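import Mathlib

set_option autoImplicit false

namespace Pool.Agent.Lib.MP_6505eb_co

/-- Rooted trees, built from a single root by grafting a second tree below the root. -/
inductive RT : Type
  | pt : RT
  | graft : RT → RT → RT

/-- Number of non-root vertices. -/
def RT.sz : RT → ℕ
  | RT.pt => 0
  | RT.graft a b => a.sz + b.sz + 1

section trees

variable {V : Type*} [Fintype V]

/-- Weighted number of homomorphisms of a rooted tree with the root sent to `x`. -/
noncomputable def hh (K : V → V → ℝ) : RT → V → ℝ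
  | RT.pt, _ => 1
  | RT.graft a b, x => hh K a x * ∑ y, K x y * hh K b y

/-- Weighted degree. -/
noncomputable def dg (K : V → V → ℝ) (x : V) : ℝ := ∑ y, K x y

/-- The random walk operator. -/
noncomputable def PP (K : V → V → ℝ) (f : V → ℝ) (x : V) : ℝ := (∑ y, K x y * f y) / dg K x

/-- The entropy lower bound functional for a tree. -/
noncomputable def AA (K : V → V → ℝ) (u : V → ℝ) : RT → V → ℝ
  | RT.pt, _ => 0
  | RT.graft a b, x => AA K u a x + u x + PP K (AA K u b) x

lemma dg_nonneg {K : V → V → ℝ} (hK : ∀ x y, 0 ≤ K x y) (x : V) : 0 ≤ dg K x :=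
  Finset.sum_nonneg fun y _ => hK x y

lemma le_dg {K : V → V → ℝ} (hK : ∀ x y, 0 ≤ K x y) (x y : V) : K x y ≤ dg K x :=
  Finset.single_le_sum (f := fun y => K x y) (fun y _ => hK x y) (Finset.mem_univ y)

lemma dg_pos_of_pos {K : V → V → ℝ} (hK : ∀ x y, 0 ≤ K x y) (hs : ∀ x y, K x y = K y x)
    {x y : V} (h : 0 < K x y) : 0 < dg K y :=
  lt_of_lt_of_le h (by rw [hs x y]; exact le_dg hK y x)

lemma K_eq_zero_of_dg {K : V → V → ℝ} (hK : ∀ x y, 0 ≤ K x y) {x : V} (h : dg K x = 0) (y : V) :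
    K x y = 0 :=
  le_antisymm (by rw [← h]; exact le_dg hK x y) (hK x y)

lemma hh_nonneg {K : V → V → ℝ} (hK : ∀ x y, 0 ≤ K x y) :
    ∀ (T : RT) (x : V), 0 ≤ hh K T x
  | RT.pt, _ => by simp [hh]
  | RT.graft a b, x => by
      simp only [hh]
      exact mul_nonneg (hh_nonneg hK a x)
        (Finset.sum_nonneg fun y _ => mul_nonneg (hK x y) (hh_nonneg hK b y))

lemma hh_mono {K K' : V → V → ℝ} (hK : ∀ x y, 0 ≤ K x y) (hKK : ∀ x y, K x y ≤ K' x y) :
    ∀ (T : RT) (x : V), hh K T x ≤ hh K' T x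
  | RT.pt, _ => by simp [hh]
  | RT.graft a b, x => by
      simp only [hh]
      have hK' : ∀ x y, 0 ≤ K' x y := fun x y => (hK x y).trans (hKK x y)
      refine mul_le_mul (hh_mono hK hKK a x) ?_ ?_ (hh_nonneg hK' a x)
      · exact Finset.sum_le_sum fun y _ =>
          mul_le_mul (hKK x y) (hh_mono hK hKK b y) (hh_nonneg hK b y) (hK' x y)
      · exact Finset.sum_nonneg fun y _ => mul_nonneg (hK x y) (hh_nonneg hK b y)

lemma dg_mul_PP {K : V → V → ℝ} (hK : ∀ x y, 0 ≤ K x y) (f : V → ℝ) (x : V) :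
    dg K x * PP K f x = ∑ y, K x y * f y := by
  unfold PP
  by_cases h : dg K x = 0
  · rw [h, zero_mul]
    symm
    apply Finset.sum_eq_zero
    intro y _
    rw [K_eq_zero_of_dg hK h y, zero_mul]
  · field_simp

lemma PP_add (K : V → V → ℝ) (f g : V → ℝ) : PP K (f + g) = PP K f + PP K g := by
  funext x
  simp only [PP, Pi.add_apply, mul_add, Finset.sum_add_distrib, add_div]

lemma PP_smul (K : V → V → ℝ) (c : ℝ) (f : V → ℝ) : PP K (c • f) = c • PP K f := by
  funext x
  simp only [PP, Pi.smul_apply, smul_eq_mul]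
  rw [← mul_div_assoc, Finset.mul_sum]
  congr 1
  apply Finset.sum_congr rfl
  intro y _
  ring

lemma PPi_add (K : V → V → ℝ) (j : ℕ) (f g : V → ℝ) :
    (PP K)^[j] (f + g) = (PP K)^[j] f + (PP K)^[j] g := by
  induction j generalizing f g with
  | zero => rfl
  | succ j ih => rw [Function.iterate_succ_apply, Function.iterate_succ_apply,
      Function.iterate_succ_apply, PP_add, ih]

lemma PPi_smul (K : V → V → ℝ) (j : ℕ) (c : ℝ) (f : V → ℝ) :
    (PP K)^[j] (c • f) = c • (PP K)^[j] f := by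
  induction j generalizing f with
  | zero => rfl
  | succ j ih => rw [Function.iterate_succ_apply, Function.iterate_succ_apply, PP_smul, ih]

lemma PPi_zero (K : V → V → ℝ) (j : ℕ) : (PP K)^[j] (0 : V → ℝ) = 0 := by
  have := PPi_smul K j 0 (0 : V → ℝ)
  simpa using this

lemma PPi_sum (K : V → V → ℝ) (j : ℕ) {ι : Type*} (s : Finset ι) (F : ι → V → ℝ) :
    (PP K)^[j] (∑ i ∈ s, F i) = ∑ i ∈ s, (PP K)^[j] (F i) := by
  classical
  induction s using Finset.induction_on with
  | empty => simp [PPi_zero]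
  | insert a s ha ih => rw [Finset.sum_insert ha, Finset.sum_insert ha, PPi_add, ih]

lemma PP_le {K : V → V → ℝ} (hK : ∀ x y, 0 ≤ K x y) {f : V → ℝ} {c : ℝ} {x : V}
    (hx : 0 < dg K x) (h : ∀ y, 0 < K x y → f y ≤ c) : PP K f x ≤ c := by
  unfold PP
  rw [div_le_iff₀ hx]
  have : c * dg K x = ∑ y, K x y * c := by
    unfold dg; rw [Finset.mul_sum]; exact Finset.sum_congr rfl fun y _ => mul_comm _ _
  rw [this]
  apply Finset.sum_le_sum
  intro y _
  rcases (hK x y).eq_or_lt with h0 | h0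
  · rw [← h0]; simp
  · exact mul_le_mul_of_nonneg_left (h y h0) (hK x y)

lemma le_PP {K : V → V → ℝ} (hK : ∀ x y, 0 ≤ K x y) {f : V → ℝ} {c : ℝ} {x : V}
    (hx : 0 < dg K x) (h : ∀ y, 0 < K x y → c ≤ f y) : c ≤ PP K f x := by
  unfold PP
  rw [le_div_iff₀ hx]
  have : c * dg K x = ∑ y, K x y * c := by
    unfold dg; rw [Finset.mul_sum]; exact Finset.sum_congr rfl fun y _ => mul_comm _ _
  rw [this]
  apply Finset.sum_le_sum
  intro y _
  rcases (hK x y).eq_or_lt with h0 | h0
  · rw [← h0]; simp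
  · exact mul_le_mul_of_nonneg_left (h y h0) (hK x y)

/-- Jensen for the exponential against the row measure. -/
lemma dg_mul_exp_PP_le {K : V → V → ℝ} (hK : ∀ x y, 0 ≤ K x y) (f : V → ℝ) (x : V) :
    dg K x * Real.exp (PP K f x) ≤ ∑ y, K x y * Real.exp (f y) := by
  have h1 : ∀ y, K x y * (Real.exp (PP K f x) * (1 + (f y - PP K f x))) ≤
      K x y * Real.exp (f y) := by
    intro y
    apply mul_le_mul_of_nonneg_left _ (hK x y)
    have h2 : Real.exp (f y) = Real.exp (PP K f x) * Real.exp (f y - PP K f x) := by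
      rw [← Real.exp_add]; congr 1; ring
    rw [h2]
    apply mul_le_mul_of_nonneg_left _ (Real.exp_pos _).le
    have := Real.add_one_le_exp (f y - PP K f x)
    linarith
  have h3 := Finset.sum_le_sum (s := Finset.univ) (fun y _ => h1 y)
  refine le_trans (le_of_eq ?_) h3
  have h4 : ∑ y, K x y * (Real.exp (PP K f x) * (1 + (f y - PP K f x))) =
      Real.exp (PP K f x) * (dg K x + (∑ y, K x y * f y) - dg K x * PP K f x) := by
    unfold dg
    rw [Finset.sum_mul, ← Finset.sum_add_distrib, ← Finset.sum_sub_distrib, Finset.mul_sum]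
    apply Finset.sum_congr rfl
    intro y _
    ring
  rw [h4, dg_mul_PP hK]
  ring

lemma exp_AA_le {K : V → V → ℝ} (hK : ∀ x y, 0 ≤ K x y) (hs : ∀ x y, K x y = K y x)
    {u : V → ℝ} (hu : ∀ x, 0 < dg K x → u x ≤ Real.log (dg K x)) :
    ∀ (T : RT) (x : V), 0 < dg K x → Real.exp (AA K u T x) ≤ hh K T x
  | RT.pt, x, _ => by simp [AA, hh]
  | RT.graft a b, x, hx => by
      simp only [AA, hh]
      rw [Real.exp_add, Real.exp_add, mul_assoc]
      refine mul_le_mul (exp_AA_le hK hs hu a x hx) ?_ (by positivity) (hh_nonneg hK a x)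
      have h1 : Real.exp (u x) ≤ dg K x := by
        rw [← Real.le_log_iff_exp_le hx]; exact hu x hx
      calc Real.exp (u x) * Real.exp (PP K (AA K u b) x)
          ≤ dg K x * Real.exp (PP K (AA K u b) x) :=
            mul_le_mul_of_nonneg_right h1 (Real.exp_pos _).le
        _ ≤ ∑ y, K x y * Real.exp (AA K u b y) := dg_mul_exp_PP_le hK _ x
        _ ≤ ∑ y, K x y * hh K b y := by
            apply Finset.sum_le_sum
            intro y _
            rcases (hK x y).eq_or_lt with h0 | h0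
            · rw [← h0]; simp
            · exact mul_le_mul_of_nonneg_left
                (exp_AA_le hK hs hu b y (dg_pos_of_pos hK hs h0)) (hK x y)

lemma AA_le {K : V → V → ℝ} (hK : ∀ x y, 0 ≤ K x y) (hs : ∀ x y, K x y = K y x)
    {u : V → ℝ} {c : ℝ} (hu : ∀ x, 0 < dg K x → u x ≤ c) :
    ∀ (T : RT) (x : V), 0 < dg K x → AA K u T x ≤ T.sz * c
  | RT.pt, x, _ => by simp [AA, RT.sz]
  | RT.graft a b, x, hx => by
      simp only [AA, RT.sz]
      have h1 := AA_le hK hs hu a x hx
      have h2 : PP K (AA K u b) x ≤ b.sz * c :=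
        PP_le hK hx fun y hy => AA_le hK hs hu b y (dg_pos_of_pos hK hs hy)
      have h3 := hu x hx
      push_cast
      linarith

lemma AA_graft (K : V → V → ℝ) (u : V → ℝ) (a b : RT) :
    AA K u (RT.graft a b) = AA K u a + u + PP K (AA K u b) := by
  funext x; simp [AA]

/-- If every iterate of the walk gives `u` a large average, so does the tree functional. -/
lemma sum_iterate_AA (K : V → V → ℝ) (u σ : V → ℝ) (c : ℝ)
    (h : ∀ j : ℕ, c ≤ ∑ x, σ x * ((PP K)^[j] u) x) :
    ∀ (T : RT) (j : ℕ), T.sz * c ≤ ∑ x, σ x * ((PP K)^[j] (AA K u T)) x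
  | RT.pt, j => by
      have h0 : AA K u RT.pt = 0 := by funext x; simp [AA]
      rw [h0, PPi_zero]; simp [RT.sz]
  | RT.graft a b, j => by
      rw [AA_graft, PPi_add, PPi_add, ← Function.iterate_succ_apply]
      have h1 := sum_iterate_AA K u σ c h a j
      have h2 := sum_iterate_AA K u σ c h b (j + 1)
      have h3 := h j
      simp only [Pi.add_apply, mul_add, Finset.sum_add_distrib]
      simp only [RT.sz]
      push_cast
      linarith

/-! ### Self-adjointness -/

lemma selfadj {K : V → V → ℝ} (hK : ∀ x y, 0 ≤ K x y) (hs : ∀ x y, K x y = K y x)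
    (f g : V → ℝ) : ∑ x, dg K x * f x * PP K g x = ∑ x, dg K x * PP K f x * g x := by
  have h1 : ∀ x, dg K x * f x * PP K g x = ∑ y, f x * (K x y * g y) := by
    intro x
    rw [← Finset.mul_sum, ← dg_mul_PP hK]; ring
  have h2 : ∀ x, dg K x * PP K f x * g x = ∑ y, (K x y * f y) * g x := by
    intro x
    rw [← Finset.sum_mul, ← dg_mul_PP hK]
  simp_rw [h1, h2]
  rw [Finset.sum_comm]
  apply Finset.sum_congr rfl
  intro y _
  apply Finset.sum_congr rfl
  intro x _
  rw [hs x y]; ring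

lemma selfadj_iter {K : V → V → ℝ} (hK : ∀ x y, 0 ≤ K x y) (hs : ∀ x y, K x y = K y x)
    (j : ℕ) : ∀ f g : V → ℝ,
      ∑ x, dg K x * f x * ((PP K)^[j] g) x = ∑ x, dg K x * ((PP K)^[j] f) x * g x := by
  induction j with
  | zero => intro f g; rfl
  | succ j ih =>
    intro f g
    rw [Function.iterate_succ_apply, ih, Function.iterate_succ_apply', selfadj hK hs]

lemma mass_PP {K : V → V → ℝ} (hK : ∀ x y, 0 ≤ K x y) (hs : ∀ x y, K x y = K y x)
    (f : V → ℝ) : ∑ x, dg K x * PP K f x = ∑ x, dg K x * f x := by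
  simp_rw [dg_mul_PP hK]
  rw [Finset.sum_comm]
  apply Finset.sum_congr rfl
  intro y _
  unfold dg
  rw [Finset.sum_mul]
  exact Finset.sum_congr rfl fun x _ => by rw [hs]

lemma mass_PPi {K : V → V → ℝ} (hK : ∀ x y, 0 ≤ K x y) (hs : ∀ x y, K x y = K y x)
    (j : ℕ) (f : V → ℝ) : ∑ x, dg K x * ((PP K)^[j] f) x = ∑ x, dg K x * f x := by
  induction j generalizing f with
  | zero => rfl
  | succ j ih => rw [Function.iterate_succ_apply, ih, mass_PP hK hs]

lemma PP_nonneg {K : V → V → ℝ} (hK : ∀ x y, 0 ≤ K x y) {f : V → ℝ} (hf : ∀ x, 0 ≤ f x)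
    (x : V) : 0 ≤ PP K f x :=
  div_nonneg (Finset.sum_nonneg fun y _ => mul_nonneg (hK x y) (hf y)) (dg_nonneg hK x)

lemma PP_le_one {K : V → V → ℝ} (hK : ∀ x y, 0 ≤ K x y) {f : V → ℝ} (hf : ∀ x, f x ≤ 1)
    (x : V) : PP K f x ≤ 1 := by
  rcases (dg_nonneg hK x).eq_or_lt with h | h
  · unfold PP; rw [← h]; simp
  · exact PP_le hK h fun y _ => hf y

lemma PPi_nonneg {K : V → V → ℝ} (hK : ∀ x y, 0 ≤ K x y) (j : ℕ) {f : V → ℝ}
    (hf : ∀ x, 0 ≤ f x) (x : V) : 0 ≤ ((PP K)^[j] f) x := by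
  induction j generalizing f with
  | zero => exact hf x
  | succ j ih => rw [Function.iterate_succ_apply]; exact ih (PP_nonneg hK hf)

lemma PPi_le_one {K : V → V → ℝ} (hK : ∀ x y, 0 ≤ K x y) (j : ℕ) {f : V → ℝ}
    (hf : ∀ x, f x ≤ 1) (x : V) : ((PP K)^[j] f) x ≤ 1 := by
  induction j generalizing f with
  | zero => exact hf x
  | succ j ih => rw [Function.iterate_succ_apply]; exact ih (PP_le_one hK hf)

/-! ### The star inequality -/

/-- The capped entropy defect. -/
noncomputable def Lam (K : V → V → ℝ) (θ : ℝ) : ℝ :=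
  ∑ x, dg K x * max 0 (Real.log (θ / dg K x))

lemma walk_lower {K : V → V → ℝ} (hK : ∀ x y, 0 ≤ K x y) (hs : ∀ x y, K x y = K y x)
    {θ : ℝ} (hθ : 0 < θ) (g : V → ℝ) (hg0 : ∀ x, 0 ≤ g x) (hg1 : ∀ x, g x ≤ 1) (j : ℕ) :
    Real.log θ * (∑ x, dg K x * g x) - Lam K θ ≤
      ∑ x, (dg K x * g x) * ((PP K)^[j] (fun x => Real.log (dg K x))) x := by
  rw [selfadj_iter hK hs j, ← mass_PPi hK hs j g]
  have h0 := PPi_nonneg hK j hg0
  have h1 := PPi_le_one hK j hg1
  unfold Lam
  rw [Finset.mul_sum, ← Finset.sum_sub_distrib]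
  apply Finset.sum_le_sum
  intro x _
  rcases (dg_nonneg hK x).eq_or_lt with hd | hd
  · rw [← hd]; simp
  · have h2 : Real.log (θ / dg K x) = Real.log θ - Real.log (dg K x) :=
      Real.log_div hθ.ne' hd.ne'
    rw [h2]
    set ψ := ((PP K)^[j] g) x with hψ
    have hψ0 : 0 ≤ ψ := h0 x
    have hψ1 : ψ ≤ 1 := h1 x
    set L := Real.log θ - Real.log (dg K x) with hL
    have h3 : ψ * L ≤ max 0 L := by
      rcases le_total 0 L with h | h
      · rw [max_eq_right h]; nlinarith
      · rw [max_eq_left h]; exact mul_nonpos_of_nonneg_of_nonpos hψ0 h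
    have h4 : dg K x * (ψ * L) ≤ dg K x * max 0 L := mul_le_mul_of_nonneg_left h3 hd.le
    have h5 : Real.log (dg K x) = Real.log θ - L := by rw [hL]; ring
    rw [h5]
    nlinarith

/-- The star inequality: on a set of vertices where the tree density is below `δ ^ N`. -/
theorem star {K : V → V → ℝ} (hK : ∀ x y, 0 ≤ K x y) (hs : ∀ x y, K x y = K y x)
    {ι : Type*} [Fintype ι] (T : ι → RT) (hN : 0 < ∑ s, (T s).sz)
    {δ θ : ℝ} (hδ : 0 < δ) (hθ : 0 < θ) (X : Finset V)
    (hX : ∀ x ∈ X, ∏ s, hh K (T s) x < δ ^ (∑ s, (T s).sz)) :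
    (Real.log θ - Real.log δ) * ∑ x ∈ X, dg K x ≤ Lam K θ := by
  classical
  set g : V → ℝ := fun x => if x ∈ X then 1 else 0 with hg
  set u : V → ℝ := fun x => Real.log (dg K x) with hu
  set N : ℕ := ∑ s, (T s).sz with hNdef
  have hg0 : ∀ x, 0 ≤ g x := by intro x; simp only [hg]; split_ifs <;> norm_num
  have hg1 : ∀ x, g x ≤ 1 := by intro x; simp only [hg]; split_ifs <;> norm_num
  have hmass : ∑ x, dg K x * g x = ∑ x ∈ X, dg K x := by
    simp only [hg, mul_ite, mul_one, mul_zero, Finset.sum_ite_mem, Finset.univ_inter]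
  set c := Real.log θ * (∑ x, dg K x * g x) - Lam K θ with hc
  have h1 : ∀ j : ℕ, c ≤ ∑ x, (dg K x * g x) * ((PP K)^[j] u) x :=
    fun j => walk_lower hK hs hθ g hg0 hg1 j
  have h2 : ∀ s, (T s).sz * c ≤ ∑ x, (dg K x * g x) * AA K u (T s) x :=
    fun s => sum_iterate_AA K u (fun x => dg K x * g x) c h1 (T s) 0
  have h3 : (N : ℝ) * c ≤ ∑ x, (dg K x * g x) * ∑ s, AA K u (T s) x := by
    have : (N : ℝ) * c = ∑ s, ((T s).sz : ℝ) * c := by
      rw [← Finset.sum_mul, hNdef]; push_cast; rfl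
    rw [this]
    refine (Finset.sum_le_sum fun s _ => h2 s).trans (le_of_eq ?_)
    rw [Finset.sum_comm]
    exact Finset.sum_congr rfl fun x _ => (Finset.mul_sum _ _ _).symm
  have h4 : ∑ x, (dg K x * g x) * ∑ s, AA K u (T s) x ≤
      ∑ x, (dg K x * g x) * (N * Real.log δ) := by
    apply Finset.sum_le_sum
    intro x _
    by_cases hx : x ∈ X
    · rcases (dg_nonneg hK x).eq_or_lt with hd | hd
      · rw [← hd]; simp
      · have hgx : g x = 1 := by simp [hg, hx]
        rw [hgx, mul_one]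
        apply mul_le_mul_of_nonneg_left _ hd.le
        have h5 : Real.exp (∑ s, AA K u (T s) x) ≤ ∏ s, hh K (T s) x := by
          rw [Real.exp_sum]
          exact Finset.prod_le_prod (fun s _ => (Real.exp_pos _).le)
            (fun s _ => exp_AA_le hK hs (fun x _ => le_refl _) (T s) x hd)
        have h6 : Real.exp (∑ s, AA K u (T s) x) < δ ^ N := lt_of_le_of_lt h5 (hX x hx)
        have h7 : ∑ s, AA K u (T s) x < Real.log (δ ^ N) := by
          rw [Real.lt_log_iff_exp_lt (pow_pos hδ N)]; exact h6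
        rw [Real.log_pow] at h7
        exact h7.le
    · have hgx : g x = 0 := by simp [hg, hx]
      rw [hgx]; simp
  have h5 : ∑ x, (dg K x * g x) * (N * Real.log δ) =
      N * (Real.log δ * ∑ x ∈ X, dg K x) := by
    rw [← Finset.sum_mul, hmass]; ring
  have h6 : (N : ℝ) * c ≤ N * (Real.log δ * ∑ x ∈ X, dg K x) := by
    rw [← h5]; exact h3.trans h4
  have hNpos : (0 : ℝ) < N := by exact_mod_cast hN
  have h7 := le_of_mul_le_mul_left h6 hNpos
  rw [hc, hmass] at h7
  linarith

/-! ### The rearrangement inequality -/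

lemma rearr {K : V → V → ℝ} (hK : ∀ x y, 0 ≤ K x y) (hs : ∀ x y, K x y = K y x)
    (f g : V → ℝ)
    (hfg : ∀ x y, 0 < dg K x → 0 < dg K y → (g x - g y) * (f x - f y) ≤ 0) (j : ℕ) :
    ∑ x, dg K x * g x * f x ≤ ∑ x, dg K x * g x * ((PP K)^[j] f) x := by
  classical
  -- the kernel of the iterate
  set κ : V → V → ℝ := fun x y => dg K x * ((PP K)^[j] (Pi.single y 1)) x with hκ
  have hκ_apply : ∀ (φ : V → ℝ) x, ∑ y, κ x y * φ y = dg K x * ((PP K)^[j] φ) x := by
    intro φ x
    have h1 : φ = ∑ y, φ y • (Pi.single y 1 : V → ℝ) := by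
      funext z
      rw [Finset.sum_apply]
      simp [Pi.single_apply]
    have h2 : ((PP K)^[j] φ) x = ∑ y, φ y * ((PP K)^[j] (Pi.single y 1)) x := by
      conv_lhs => rw [h1, PPi_sum]
      rw [Finset.sum_apply]
      apply Finset.sum_congr rfl
      intro y _
      rw [PPi_smul]; simp
    rw [h2, Finset.mul_sum]
    apply Finset.sum_congr rfl
    intro y _
    simp only [hκ]; ring
  have hκ_nonneg : ∀ x y, 0 ≤ κ x y := by
    intro x y
    apply mul_nonneg (dg_nonneg hK x)
    apply PPi_nonneg hK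
    intro z
    by_cases h : z = y
    · subst h; simp
    · simp [Pi.single_apply, h]
  have hκ_symm : ∀ x y, κ x y = κ y x := by
    intro x y
    have h1 := selfadj_iter hK hs j (Pi.single x 1) (Pi.single y 1)
    have h2 : ∑ z, dg K z * (Pi.single x (1 : ℝ) : V → ℝ) z *
        ((PP K)^[j] (Pi.single y 1)) z = κ x y := by
      rw [Finset.sum_eq_single x]
      · simp [hκ]
      · intro z _ hz; simp [Pi.single_apply, hz]
      · intro h; exact absurd (Finset.mem_univ _) h
    have h3 : ∑ z, dg K z * ((PP K)^[j] (Pi.single x 1)) z *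
        (Pi.single y (1 : ℝ) : V → ℝ) z = κ y x := by
      rw [Finset.sum_eq_single y]
      · simp [hκ]
      · intro z _ hz; simp [Pi.single_apply, hz]
      · intro h; exact absurd (Finset.mem_univ _) h
    rw [← h2, ← h3]; exact h1
  have hκ_row : ∀ x, ∑ y, κ x y = dg K x := by
    intro x
    have h1 := hκ_apply (fun _ => 1) x
    simp only [mul_one] at h1
    rw [h1]
    rcases (dg_nonneg hK x).eq_or_lt with hd | hd
    · rw [← hd]; simp
    · have h2 : ((PP K)^[j] (fun _ => (1 : ℝ))) x = 1 := by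
        have key : ∀ i, ∀ z, 0 < dg K z → ((PP K)^[i] (fun _ => (1 : ℝ))) z = 1 := by
          intro i
          induction i with
          | zero => intro z _; rfl
          | succ i ih =>
            intro z hz
            rw [Function.iterate_succ_apply']
            apply le_antisymm
            · exact PP_le hK hz fun y hy => (ih y (dg_pos_of_pos hK hs hy)).le
            · exact le_PP hK hz fun y hy => (ih y (dg_pos_of_pos hK hs hy)).ge
        exact key j x hd
      rw [h2, mul_one]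
  have hpos : 0 ≤ ∑ x, ∑ y, κ x y * ((g x - g y) * (f y - f x)) := by
    apply Finset.sum_nonneg; intro x _
    apply Finset.sum_nonneg; intro y _
    rcases (dg_nonneg hK x).eq_or_lt with hd | hd
    · have : κ x y = 0 := by simp only [hκ]; rw [← hd]; ring
      rw [this]; simp
    · rcases (dg_nonneg hK y).eq_or_lt with hd' | hd'
      · have : κ x y = 0 := by rw [hκ_symm]; simp only [hκ]; rw [← hd']; ring
        rw [this]; simp
      · apply mul_nonneg (hκ_nonneg x y)
        have := hfg x y hd hd'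
        nlinarith
  have e1 : ∑ x, ∑ y, κ x y * (g x * f y) = ∑ x, dg K x * g x * ((PP K)^[j] f) x := by
    apply Finset.sum_congr rfl
    intro x _
    have : ∑ y, κ x y * (g x * f y) = g x * ∑ y, κ x y * f y := by
      rw [Finset.mul_sum]; exact Finset.sum_congr rfl fun y _ => by ring
    rw [this, hκ_apply]; ring
  have e2 : ∑ x, ∑ y, κ x y * (g x * f x) = ∑ x, dg K x * g x * f x := by
    apply Finset.sum_congr rfl
    intro x _
    rw [← Finset.sum_mul, hκ_row]; ring
  have e3 : ∑ x, ∑ y, κ x y * (g y * f y) = ∑ x, dg K x * g x * f x := by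
    rw [Finset.sum_comm]
    apply Finset.sum_congr rfl
    intro x _
    rw [← Finset.sum_mul]
    have : ∑ i, κ i x = dg K x := by
      rw [← hκ_row x]; exact Finset.sum_congr rfl fun y _ => hκ_symm y x
    rw [this]; ring
  have e4 : ∑ x, ∑ y, κ x y * (g y * f x) = ∑ x, dg K x * g x * ((PP K)^[j] f) x := by
    rw [Finset.sum_comm, ← e1]
    apply Finset.sum_congr rfl
    intro x _
    apply Finset.sum_congr rfl
    intro y _
    rw [hκ_symm y x]
  have e5 : ∑ x, ∑ y, κ x y * ((g x - g y) * (f y - f x)) =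
      ((∑ x, ∑ y, κ x y * (g x * f y)) - (∑ x, ∑ y, κ x y * (g x * f x))
        - (∑ x, ∑ y, κ x y * (g y * f y))) + ∑ x, ∑ y, κ x y * (g y * f x) := by
    rw [← Finset.sum_sub_distrib, ← Finset.sum_sub_distrib, ← Finset.sum_add_distrib]
    apply Finset.sum_congr rfl
    intro x _
    rw [← Finset.sum_sub_distrib, ← Finset.sum_sub_distrib, ← Finset.sum_add_distrib]
    apply Finset.sum_congr rfl
    intro y _
    ring
  rw [e5, e1, e2, e3, e4] at hpos
  linarith

end trees

end Pool.Agent.Lib.MP_6505eb_co
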