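import Mathlib
import Pool.Agent.Lib.MP_6505eb_co.Trees

set_option autoImplicit false

namespace Pool.Agent.Lib.MP_6505eb_co

open Classical

section defs

variable {V : Type} [Fintype V]

/-- The normalised adjacency kernel of a relation. -/
noncomputable def ker (R : V → V → Prop) (x y : V) : ℝ :=
  if R x y then 1 / (Fintype.card V : ℝ) else 0

/-- The density of `m`-cliques inside `D` (as ordered tuples, for a symmetric relation). -/
noncomputable def cl (R : V → V → Prop) : ℕ → Finset V → ℝ
  | 0, _ => 1
  | m + 1, D => (1 / (Fintype.card V : ℝ)) * ∑ x ∈ D, cl R m (D.filter (R x))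

/-- normalised size -/
noncomputable def ms (D : Finset V) : ℝ := (D.card : ℝ) / (Fintype.card V : ℝ)

lemma ker_nonneg (R : V → V → Prop) (x y : V) : 0 ≤ ker R x y := by
  unfold ker; split_ifs <;> positivity

lemma ker_symm {R : V → V → Prop} (hR : ∀ x y, R x y → R y x) (x y : V) :
    ker R x y = ker R y x := by
  unfold ker
  by_cases h : R x y
  · rw [if_pos h, if_pos (hR x y h)]
  · rw [if_neg h, if_neg (fun h' => h (hR y x h'))]

lemma cl_nonneg (R : V → V → Prop) : ∀ (m : ℕ) (D : Finset V), 0 ≤ cl R m D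
  | 0, D => by simp [cl]
  | m + 1, D => by
      simp only [cl]
      exact mul_nonneg (by positivity) (Finset.sum_nonneg fun x _ => cl_nonneg R m _)

lemma cl_mono (R : V → V → Prop) : ∀ (m : ℕ) (D D' : Finset V), D ⊆ D' → cl R m D ≤ cl R m D'
  | 0, D, D', _ => by simp [cl]
  | m + 1, D, D', h => by
      simp only [cl]
      apply mul_le_mul_of_nonneg_left _ (by positivity)
      calc ∑ x ∈ D, cl R m (D.filter (R x)) ≤ ∑ x ∈ D, cl R m (D'.filter (R x)) :=
            Finset.sum_le_sum fun x _ => cl_mono R m _ _ (Finset.filter_subset_filter _ h)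
        _ ≤ ∑ x ∈ D', cl R m (D'.filter (R x)) :=
            Finset.sum_le_sum_of_subset_of_nonneg h fun x _ _ => cl_nonneg R m _

lemma ms_nonneg (D : Finset V) : 0 ≤ ms D := by unfold ms; positivity

lemma ms_mono {D D' : Finset V} (h : D ⊆ D') : ms D ≤ ms D' := by
  unfold ms
  apply div_le_div_of_nonneg_right _ (by positivity)
  exact_mod_cast Finset.card_le_card h

variable [Nonempty V]

lemma card_pos' : (0 : ℝ) < (Fintype.card V : ℝ) := by exact_mod_cast Fintype.card_pos

lemma ms_le_one (D : Finset V) : ms D ≤ 1 := by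
  unfold ms
  rw [div_le_one card_pos']
  exact_mod_cast Finset.card_le_univ D

lemma ms_univ : ms (Finset.univ : Finset V) = 1 := by
  unfold ms
  rw [Finset.card_univ, div_self card_pos'.ne']

end defs

/-! ### Ramsey -/

theorem ramsey_density : ∀ (s a b : ℕ), a + b ≤ s → ∀ ξ : ℝ, 0 < ξ → ∃ κ : ℝ, 0 < κ ∧ κ ≤ 1 ∧
    ∀ (V : Type) [Fintype V] [Nonempty V] (R : V → V → Prop) (I : Finset V), ξ ≤ ms I →
      κ ≤ cl R a I ∨ κ ≤ cl (fun x y => ¬ R x y) b I := by
  intro s
  induction s with
  | zero =>
    intro a b hab ξ hξ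
    refine ⟨1, one_pos, le_refl _, ?_⟩
    intro V _ _ R I _
    left
    have : a = 0 := by omega
    subst this
    simp [cl]
  | succ s ih =>
    intro a b hab ξ hξ
    rcases Nat.eq_zero_or_pos a with ha | ha
    · refine ⟨1, one_pos, le_refl _, ?_⟩
      intro V _ _ R I _
      left; subst ha; simp [cl]
    rcases Nat.eq_zero_or_pos b with hb | hb
    · refine ⟨1, one_pos, le_refl _, ?_⟩
      intro V _ _ R I _
      right; subst hb; simp [cl]
    obtain ⟨a, rfl⟩ : ∃ a', a = a' + 1 := ⟨a - 1, by omega⟩
    obtain ⟨b, rfl⟩ : ∃ b', b = b' + 1 := ⟨b - 1, by omega⟩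
    obtain ⟨κ₁, hκ₁, hκ₁1, h₁⟩ := ih a (b + 1) (by omega) (ξ / 2) (by linarith)
    obtain ⟨κ₂, hκ₂, hκ₂1, h₂⟩ := ih (a + 1) b (by omega) (ξ / 2) (by linarith)
    set κ' := min κ₁ κ₂ with hκ'
    have hκ'pos : 0 < κ' := lt_min hκ₁ hκ₂
    refine ⟨min κ' (ξ / 2 * κ'), lt_min hκ'pos (by positivity),
      (min_le_left _ _).trans ((min_le_left _ _).trans hκ₁1), ?_⟩
    intro V _ _ R I hI
    by_contra hcon
    push Not at hcon
    obtain ⟨hc1, hc2⟩ := hcon
    have hn : (0 : ℝ) < (Fintype.card V : ℝ) := card_pos'
    -- the two types of vertices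
    set X1 := I.filter (fun x => ξ / 2 ≤ ms (I.filter (R x))) with hX1
    set X2 := I.filter (fun x => ξ / 2 ≤ ms (I.filter (fun y => ¬ R x y))) with hX2
    have hcover : I ⊆ X1 ∪ X2 := by
      intro x hx
      have hsum : ms (I.filter (R x)) + ms (I.filter (fun y => ¬ R x y)) = ms I := by
        unfold ms
        rw [← add_div]
        congr 1
        exact_mod_cast Finset.card_filter_add_card_filter_not (s := I) (R x)
      rw [Finset.mem_union, hX1, hX2, Finset.mem_filter, Finset.mem_filter]
      by_contra hcc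
      push Not at hcc
      have a1 := hcc.1 hx
      have a2 := hcc.2 hx
      linarith
    have hms : ξ ≤ ms X1 + ms X2 := by
      refine hI.trans ((ms_mono hcover).trans ?_)
      unfold ms
      rw [← add_div]
      apply div_le_div_of_nonneg_right _ hn.le
      exact_mod_cast Finset.card_union_le X1 X2
    rcases le_or_gt (ξ / 2) (ms X1) with hcase | hcase
    · have key : ∀ x ∈ X1, κ' ≤ cl R a (I.filter (R x)) := by
        intro x hx
        rw [hX1, Finset.mem_filter] at hx
        rcases h₁ V R (I.filter (R x)) hx.2 with h | h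
        · exact (min_le_left _ _).trans h
        · exfalso
          have h3 := cl_mono (fun x y => ¬ R x y) (b + 1) _ _ (Finset.filter_subset (R x) I)
          have h4 : κ' ≤ κ₁ := min_le_left _ _
          have h5 : min κ' (ξ / 2 * κ') ≤ κ' := min_le_left _ _
          linarith
      have h6 : ξ / 2 * κ' ≤ cl R (a + 1) I := by
        simp only [cl]
        have h7 : ∑ x ∈ X1, κ' ≤ ∑ x ∈ I, cl R a (I.filter (R x)) :=
          (Finset.sum_le_sum key).trans
            (Finset.sum_le_sum_of_subset_of_nonneg (Finset.filter_subset _ _)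
              fun x _ _ => cl_nonneg R a _)
        rw [Finset.sum_const, nsmul_eq_mul] at h7
        have h8 : ms X1 * κ' = 1 / (Fintype.card V : ℝ) * ((X1.card : ℝ) * κ') := by
          unfold ms; ring
        calc ξ / 2 * κ' ≤ ms X1 * κ' := mul_le_mul_of_nonneg_right hcase hκ'pos.le
          _ = 1 / (Fintype.card V : ℝ) * ((X1.card : ℝ) * κ') := h8
          _ ≤ _ := mul_le_mul_of_nonneg_left h7 (by positivity)
      have h9 : min κ' (ξ / 2 * κ') ≤ ξ / 2 * κ' := min_le_right _ _
      linarith
    · have hcase2 : ξ / 2 ≤ ms X2 := by linarith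
      have key : ∀ x ∈ X2, κ' ≤ cl (fun x y => ¬ R x y) b (I.filter (fun y => ¬ R x y)) := by
        intro x hx
        rw [hX2, Finset.mem_filter] at hx
        rcases h₂ V R (I.filter (fun y => ¬ R x y)) hx.2 with h | h
        · exfalso
          have h3 := cl_mono R (a + 1) _ _ (Finset.filter_subset (fun y => ¬ R x y) I)
          have h4 : κ' ≤ κ₂ := min_le_right _ _
          have h5 : min κ' (ξ / 2 * κ') ≤ κ' := min_le_left _ _
          linarith
        · exact (min_le_right _ _).trans h
      have h6 : ξ / 2 * κ' ≤ cl (fun x y => ¬ R x y) (b + 1) I := by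
        simp only [cl]
        have h7 : ∑ x ∈ X2, κ' ≤
            ∑ x ∈ I, cl (fun x y => ¬ R x y) b (I.filter (fun y => ¬ R x y)) :=
          (Finset.sum_le_sum key).trans
            (Finset.sum_le_sum_of_subset_of_nonneg (Finset.filter_subset _ _)
              fun x _ _ => cl_nonneg _ b _)
        rw [Finset.sum_const, nsmul_eq_mul] at h7
        have h8 : ms X2 * κ' = 1 / (Fintype.card V : ℝ) * ((X2.card : ℝ) * κ') := by
          unfold ms; ring
        calc ξ / 2 * κ' ≤ ms X2 * κ' := mul_le_mul_of_nonneg_right hcase2 hκ'pos.le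
          _ = 1 / (Fintype.card V : ℝ) * ((X2.card : ℝ) * κ') := h8
          _ ≤ _ := mul_le_mul_of_nonneg_left h7 (by positivity)
      have h9 : min κ' (ξ / 2 * κ') ≤ ξ / 2 * κ' := min_le_right _ _
      linarith

/-! ### Stability in the style of Furedi -/

/-- `B`-degree inside `D`, as a real number -/
noncomputable def dn {V : Type} (B : V → V → Prop) (D : Finset V) (x : V) : ℝ :=
  ((D.filter (B x)).card : ℝ)

lemma dn_eq_sum {V : Type} (B : V → V → Prop) (D : Finset V) (x : V) :
    dn B D x = ∑ y ∈ D, (if B x y then (1 : ℝ) else 0) := by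
  unfold dn; rw [Finset.card_filter]; push_cast; rfl

theorem furedi : ∀ (q : ℕ) (ε : ℝ), 0 < ε → ∃ κ : ℝ, 0 < κ ∧
    ∀ (V : Type) [Fintype V] [Nonempty V] (B : V → V → Prop), (∀ x y, B x y → B y x) →
      ∀ D : Finset V, cl B (q + 2) D ≤ κ →
        ∃ c : V → ℕ, (∀ x, c x < q + 1) ∧
          ∑ x ∈ D, ∑ y ∈ D, ((if B x y then (1 : ℝ) else 0) +
            (if B x y ∧ c x = c y then (1 : ℝ) else 0) - (if c x = c y then (0 : ℝ) else 1))
            ≤ ε * (Fintype.card V : ℝ) ^ 2 := by
  intro q
  induction q with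
  | zero =>
    intro ε hε
    refine ⟨ε / 2, by linarith, ?_⟩
    intro V _ _ B hB D hD
    refine ⟨fun _ => 0, fun _ => by norm_num, ?_⟩
    have hn : (0 : ℝ) < (Fintype.card V : ℝ) := card_pos'
    have h1 : cl B (0 + 2) D = (1 / (Fintype.card V : ℝ)) * ((1 / (Fintype.card V : ℝ)) *
        ∑ x ∈ D, ∑ y ∈ D, (if B x y then (1 : ℝ) else 0)) := by
      simp only [cl]
      rw [← Finset.mul_sum]
      congr 2
      apply Finset.sum_congr rfl
      intro x _
      rw [Finset.sum_const, nsmul_eq_mul, mul_one, Finset.card_filter]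
      push_cast
      rfl
    have h2 : ∑ x ∈ D, ∑ y ∈ D, ((if B x y then (1 : ℝ) else 0) +
            (if B x y ∧ (0 : ℕ) = 0 then (1 : ℝ) else 0) - (if (0 : ℕ) = 0 then (0 : ℝ) else 1))
          = 2 * ∑ x ∈ D, ∑ y ∈ D, (if B x y then (1 : ℝ) else 0) := by
      rw [Finset.mul_sum]
      apply Finset.sum_congr rfl
      intro x _
      rw [Finset.mul_sum]
      apply Finset.sum_congr rfl
      intro y _
      simp only [and_true, if_true]
      ring
    rw [h2]
    rw [h1] at hD
    have h3 : (1 / (Fintype.card V : ℝ)) * ((1 / (Fintype.card V : ℝ)) *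
        ∑ x ∈ D, ∑ y ∈ D, (if B x y then (1 : ℝ) else 0)) * (Fintype.card V : ℝ) ^ 2 =
        ∑ x ∈ D, ∑ y ∈ D, (if B x y then (1 : ℝ) else 0) := by
      field_simp
    have h4 := mul_le_mul_of_nonneg_right hD (by positivity : (0:ℝ) ≤ (Fintype.card V : ℝ) ^ 2)
    rw [h3] at h4
    linarith
  | succ q ih =>
    intro ε hε
    obtain ⟨κ', hκ', hmain⟩ := ih (ε / 2) (by linarith)
    set s := min (min κ' (ε / 4)) 1 with hs
    have hspos : 0 < s := lt_min (lt_min hκ' (by linarith)) one_pos
    have hs1 : s ≤ κ' := (min_le_left _ _).trans (min_le_left _ _)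
    have hs2 : s ≤ ε / 4 := (min_le_left _ _).trans (min_le_right _ _)
    have hs3 : s ≤ 1 := min_le_right _ _
    refine ⟨s ^ 2, by positivity, ?_⟩
    intro V _ _ B hB D hD
    have hn : (0 : ℝ) < (Fintype.card V : ℝ) := card_pos'
    set n : ℝ := (Fintype.card V : ℝ) with hndef
    set G := D.filter (fun x => cl B (q + 2) (D.filter (B x)) ≤ s) with hG
    have hbad : ((D \ G).card : ℝ) ≤ n * s := by
      have h1 : ∑ x ∈ D \ G, s ≤ ∑ x ∈ D, cl B (q + 2) (D.filter (B x)) := by
        refine (Finset.sum_le_sum ?_).trans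
          (Finset.sum_le_sum_of_subset_of_nonneg Finset.sdiff_subset
            fun x _ _ => cl_nonneg B _ _)
        intro x hx
        rw [Finset.mem_sdiff, hG, Finset.mem_filter] at hx
        by_contra hcon
        push Not at hcon
        exact hx.2 ⟨hx.1, hcon.le⟩
      rw [Finset.sum_const, nsmul_eq_mul] at h1
      have h2 : ∑ x ∈ D, cl B (q + 2) (D.filter (B x)) = n * cl B (q + 1 + 2) D := by
        have : cl B (q + 1 + 2) D = (1 / n) * ∑ x ∈ D, cl B (q + 2) (D.filter (B x)) := rfl
        rw [this]; field_simp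
      rw [h2] at h1
      have h3 : ((D \ G).card : ℝ) * s ≤ (n * s) * s := by
        calc ((D \ G).card : ℝ) * s ≤ n * cl B (q + 1 + 2) D := h1
          _ ≤ n * s ^ 2 := mul_le_mul_of_nonneg_left hD hn.le
          _ = (n * s) * s := by ring
      exact le_of_mul_le_mul_right h3 hspos
    rcases G.eq_empty_or_nonempty with hGe | hGne
    · -- D is small
      refine ⟨fun _ => 0, fun _ => Nat.succ_pos _, ?_⟩
      rw [hGe, Finset.sdiff_empty] at hbad
      have h1 : ∑ x ∈ D, ∑ y ∈ D, ((if B x y then (1 : ℝ) else 0) +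
            (if B x y ∧ (0 : ℕ) = 0 then (1 : ℝ) else 0) - (if (0 : ℕ) = 0 then (0 : ℝ) else 1))
            ≤ ∑ x ∈ D, ∑ y ∈ D, (2 : ℝ) := by
        apply Finset.sum_le_sum; intro x _
        apply Finset.sum_le_sum; intro y _
        simp only [and_true, if_true]
        split_ifs <;> norm_num
      refine h1.trans ?_
      simp only [Finset.sum_const, nsmul_eq_mul]
      have h2 : (D.card : ℝ) * (D.card : ℝ) ≤ (n * s) * (n * s) :=
        mul_le_mul hbad hbad (by positivity) (by positivity)
      have h3 : s * s ≤ s := by nlinarith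
      have h4 : 0 < n ^ 2 := by positivity
      nlinarith
    · obtain ⟨x₁, hx₁, hmax⟩ := Finset.exists_max_image G (fun x => dn B D x) hGne
      have hx₁G := hx₁
      rw [hG, Finset.mem_filter] at hx₁
      set N := D.filter (B x₁) with hN
      have hNsub : N ⊆ D := Finset.filter_subset _ _
      obtain ⟨c', hc', hsum'⟩ := hmain V B hB N (hx₁.2.trans hs1)
      set c : V → ℕ := fun x => if x ∈ N then c' x + 1 else 0 with hc
      refine ⟨c, ?_, ?_⟩
      · intro x
        simp only [hc]
        split_ifs
        · have := hc' x; omega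
        · omega
      · set F : V → V → ℝ := fun x y => (if B x y then (1 : ℝ) else 0) +
            (if B x y ∧ c x = c y then (1 : ℝ) else 0) - (if c x = c y then (0 : ℝ) else 1) with hF
        set U := D \ N with hU
        have hsplit : ∀ g : V → ℝ, ∑ x ∈ D, g x = ∑ x ∈ U, g x + ∑ x ∈ N, g x := by
          intro g
          rw [hU, Finset.sum_sdiff hNsub]
        have hcN : ∀ x ∈ N, c x = c' x + 1 := fun x hx => by simp only [hc]; rw [if_pos hx]
        have hcU : ∀ x ∈ U, c x = 0 := fun x hx => by
          simp only [hc]; rw [if_neg (Finset.mem_sdiff.mp hx).2]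
        have e1 : ∑ x ∈ N, ∑ y ∈ N, F x y = ∑ x ∈ N, ∑ y ∈ N, ((if B x y then (1 : ℝ) else 0) +
            (if B x y ∧ c' x = c' y then (1 : ℝ) else 0) - (if c' x = c' y then (0 : ℝ) else 1)) := by
          apply Finset.sum_congr rfl; intro x hx
          apply Finset.sum_congr rfl; intro y hy
          simp only [hF, hcN x hx, hcN y hy, Nat.add_right_cancel_iff]
        have e2 : ∀ x ∈ U, ∑ y ∈ D, F x y = 2 * dn B U x + dn B N x - N.card := by
          intro x hx
          rw [hsplit]
          have a1 : ∑ y ∈ U, F x y = 2 * dn B U x := by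
            rw [dn_eq_sum, Finset.mul_sum]
            apply Finset.sum_congr rfl; intro y hy
            simp only [hF, hcU x hx, hcU y hy, and_true, if_true]
            ring
          have a2 : ∑ y ∈ N, F x y = dn B N x - N.card := by
            rw [dn_eq_sum]
            have : (N.card : ℝ) = ∑ y ∈ N, (1 : ℝ) := by simp
            rw [this, ← Finset.sum_sub_distrib]
            apply Finset.sum_congr rfl; intro y hy
            have hne : ¬ (0 = c' y + 1) := by omega
            simp only [hF, hcU x hx, hcN y hy, hne, and_false, if_false]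
            ring
          rw [a1, a2]; ring
        have e3 : ∑ x ∈ N, ∑ y ∈ U, F x y = ∑ x ∈ U, (dn B N x - N.card) := by
          rw [Finset.sum_comm]
          apply Finset.sum_congr rfl
          intro y hy
          rw [dn_eq_sum]
          have : (N.card : ℝ) = ∑ x ∈ N, (1 : ℝ) := by simp
          rw [this, ← Finset.sum_sub_distrib]
          apply Finset.sum_congr rfl; intro x hx
          have hne : ¬ (c' x + 1 = 0) := by omega
          have hsym : (if B x y then (1 : ℝ) else 0) = if B y x then (1 : ℝ) else 0 := by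
            by_cases h : B x y
            · rw [if_pos h, if_pos (hB x y h)]
            · rw [if_neg h, if_neg (fun h' => h (hB y x h'))]
          simp only [hF, hcU y hy, hcN x hx, hne, and_false, if_false]
          rw [hsym]; ring
        have e4 : ∑ x ∈ D, ∑ y ∈ D, F x y =
            (∑ x ∈ N, ∑ y ∈ N, F x y) + 2 * ∑ x ∈ U, (dn B D x - N.card) := by
          rw [hsplit]
          have b1 : ∑ x ∈ N, ∑ y ∈ D, F x y = ∑ x ∈ N, ∑ y ∈ U, F x y + ∑ x ∈ N, ∑ y ∈ N, F x y := by
            rw [← Finset.sum_add_distrib]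
            exact Finset.sum_congr rfl fun x _ => hsplit _
          rw [b1, e3, Finset.sum_congr rfl e2, Finset.mul_sum]
          have b2 : ∀ x, dn B D x = dn B U x + dn B N x := by
            intro x; rw [dn_eq_sum, dn_eq_sum, dn_eq_sum, hsplit]
          have b3 : ∑ x ∈ U, 2 * (dn B D x - N.card) =
              ∑ x ∈ U, (2 * dn B U x + dn B N x - N.card) + ∑ x ∈ U, (dn B N x - N.card) := by
            rw [← Finset.sum_add_distrib]
            apply Finset.sum_congr rfl; intro x _; rw [b2]; ring
          rw [b3]; ring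
        have e5 : ∑ x ∈ U, (dn B D x - N.card) ≤ ∑ x ∈ D \ G, n := by
          have c1 : ∀ x ∈ U, dn B D x - N.card ≤ if x ∈ D \ G then n else 0 := by
            intro x hx
            by_cases hxG : x ∈ G
            · have h1 := hmax x hxG
              have h2 : dn B D x₁ = N.card := rfl
              rw [if_neg (by rw [Finset.mem_sdiff]; tauto)]
              linarith
            · have hxD : x ∈ D := (Finset.mem_sdiff.mp hx).1
              rw [if_pos (Finset.mem_sdiff.mpr ⟨hxD, hxG⟩)]
              have h3 : dn B D x ≤ n := by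
                unfold dn; rw [hndef]; exact_mod_cast Finset.card_le_univ _
              have h4 : (0 : ℝ) ≤ N.card := by positivity
              linarith
          refine (Finset.sum_le_sum c1).trans ?_
          rw [← Finset.sum_filter]
          apply Finset.sum_le_sum_of_subset_of_nonneg
          · intro x hx; exact (Finset.mem_filter.mp hx).2
          · intro x _ _; exact hn.le
        rw [Finset.sum_const, nsmul_eq_mul] at e5
        rw [e4, e1]
        have e6 : ((D \ G).card : ℝ) * n ≤ (ε / 4) * n ^ 2 := by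
          calc ((D \ G).card : ℝ) * n ≤ (n * s) * n := mul_le_mul_of_nonneg_right hbad hn.le
            _ = s * n ^ 2 := by ring
            _ ≤ (ε / 4) * n ^ 2 := mul_le_mul_of_nonneg_right hs2 (by positivity)
        linarith

end Pool.Agent.Lib.MP_6505eb_co
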