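import Mathlib
import Pool.Agent.Lib.MP_6505eb_co.Cliques

set_option autoImplicit false

namespace Pool.Agent.Lib.MP_6505eb_co

open Classical

section tools

variable {V : Type} [Fintype V]

/-- normalised degree into `S` -/
noncomputable def nd (B : V → V → Prop) (S : Finset V) (x : V) : ℝ :=
  dn B S x / (Fintype.card V : ℝ)

/-- normalised number of ordered pairs -/
noncomputable def ed (B : V → V → Prop) (S S' : Finset V) : ℝ :=
  (∑ x ∈ S, nd B S' x) / (Fintype.card V : ℝ)

lemma nd_eq_sum (B : V → V → Prop) (S : Finset V) (x : V) :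
    nd B S x = ∑ y ∈ S, ker B x y := by
  unfold nd ker
  rw [dn_eq_sum, Finset.sum_div]
  apply Finset.sum_congr rfl
  intro y _
  split_ifs <;> simp

lemma dg_ker (B : V → V → Prop) (x : V) : dg (ker B) x = nd B Finset.univ x := by
  rw [nd_eq_sum]; rfl

lemma nd_nonneg (B : V → V → Prop) (S : Finset V) (x : V) : 0 ≤ nd B S x := by
  rw [nd_eq_sum]; exact Finset.sum_nonneg fun y _ => ker_nonneg B x y

lemma nd_mono (B : V → V → Prop) {S S' : Finset V} (h : S ⊆ S') (x : V) :
    nd B S x ≤ nd B S' x := by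
  rw [nd_eq_sum, nd_eq_sum]
  exact Finset.sum_le_sum_of_subset_of_nonneg h fun y _ _ => ker_nonneg B x y

lemma nd_le_ms (B : V → V → Prop) (S : Finset V) (x : V) : nd B S x ≤ ms S := by
  unfold nd ms dn
  apply div_le_div_of_nonneg_right _ (by positivity)
  exact_mod_cast Finset.card_le_card (Finset.filter_subset _ _)

lemma nd_add_compl (B : V → V → Prop) (S : Finset V) (x : V) :
    nd B S x + nd (fun x y => ¬ B x y) S x = ms S := by
  unfold nd ms dn
  rw [← add_div]
  congr 1
  have h := Finset.card_filter_add_card_filter_not (s := S) (B x)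
  norm_cast
  convert h

lemma nd_union_disj (B : V → V → Prop) {S S' : Finset V} (h : Disjoint S S') (x : V) :
    nd B (S ∪ S') x = nd B S x + nd B S' x := by
  rw [nd_eq_sum, nd_eq_sum, nd_eq_sum, Finset.sum_union h]

lemma nd_sdiff (B : V → V → Prop) {S S' : Finset V} (h : S' ⊆ S) (x : V) :
    nd B S x = nd B (S \ S') x + nd B S' x := by
  rw [nd_eq_sum, nd_eq_sum, nd_eq_sum, Finset.sum_sdiff h]

lemma ms_sdiff {S S' : Finset V} (h : S' ⊆ S) : ms S = ms (S \ S') + ms S' := by
  unfold ms
  rw [← add_div]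
  congr 1
  rw [← Finset.card_sdiff_add_card_eq_card h]; push_cast; rfl

lemma ms_union_disj {S S' : Finset V} (h : Disjoint S S') : ms (S ∪ S') = ms S + ms S' := by
  unfold ms
  rw [← add_div]
  congr 1
  exact_mod_cast Finset.card_union_of_disjoint h

lemma ms_union_le (S S' : Finset V) : ms (S ∪ S') ≤ ms S + ms S' := by
  unfold ms
  rw [← add_div]
  apply div_le_div_of_nonneg_right _ (by positivity)
  exact_mod_cast Finset.card_union_le S S'

lemma ms_eq_sum (S : Finset V) : ms S = (∑ _x ∈ S, (1 : ℝ)) / (Fintype.card V : ℝ) := by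
  unfold ms; simp

lemma ed_nonneg (B : V → V → Prop) (S S' : Finset V) : 0 ≤ ed B S S' :=
  div_nonneg (Finset.sum_nonneg fun x _ => nd_nonneg B S' x) (by positivity)

lemma ed_eq (B : V → V → Prop) (S S' : Finset V) :
    ed B S S' = (∑ x ∈ S, ∑ y ∈ S', (if B x y then (1 : ℝ) else 0)) /
      (Fintype.card V : ℝ) ^ 2 := by
  unfold ed nd
  rw [← Finset.sum_div, div_div, ← pow_two]
  congr 1
  exact Finset.sum_congr rfl fun x _ => dn_eq_sum B S' x

lemma ed_symm {B : V → V → Prop} (hB : ∀ x y, B x y → B y x) (S S' : Finset V) :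
    ed B S S' = ed B S' S := by
  rw [ed_eq, ed_eq, Finset.sum_comm]
  congr 1
  apply Finset.sum_congr rfl; intro x _
  apply Finset.sum_congr rfl; intro y _
  by_cases h : B y x
  · rw [if_pos h, if_pos (hB y x h)]
  · rw [if_neg h, if_neg (fun h' => h (hB x y h'))]

lemma ed_mono_left (B : V → V → Prop) {S S' : Finset V} (h : S ⊆ S') (W : Finset V) :
    ed B S W ≤ ed B S' W := by
  unfold ed
  apply div_le_div_of_nonneg_right _ (by positivity)
  exact Finset.sum_le_sum_of_subset_of_nonneg h fun x _ _ => nd_nonneg B W x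

lemma ed_mono_right (B : V → V → Prop) (W : Finset V) {S S' : Finset V} (h : S ⊆ S') :
    ed B W S ≤ ed B W S' := by
  unfold ed
  apply div_le_div_of_nonneg_right _ (by positivity)
  exact Finset.sum_le_sum fun x _ => nd_mono B h x

lemma ed_union_left (B : V → V → Prop) {S S' : Finset V} (h : Disjoint S S') (W : Finset V) :
    ed B (S ∪ S') W = ed B S W + ed B S' W := by
  unfold ed
  rw [Finset.sum_union h, add_div]

lemma ed_union_right (B : V → V → Prop) (W : Finset V) {S S' : Finset V} (h : Disjoint S S') :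
    ed B W (S ∪ S') = ed B W S + ed B W S' := by
  unfold ed
  rw [← add_div, ← Finset.sum_add_distrib]
  congr 1
  exact Finset.sum_congr rfl fun x _ => nd_union_disj B h x

lemma ed_add_compl (B : V → V → Prop) (S S' : Finset V) :
    ed B S S' + ed (fun x y => ¬ B x y) S S' = ms S * ms S' := by
  unfold ed
  rw [← add_div, ← Finset.sum_add_distrib, Finset.sum_congr rfl fun x _ => nd_add_compl B S' x,
    Finset.sum_const, nsmul_eq_mul]
  unfold ms; ring

lemma ed_le (B : V → V → Prop) (S S' : Finset V) : ed B S S' ≤ ms S * ms S' := by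
  have := ed_add_compl B S S'
  have h2 := ed_nonneg (fun x y => ¬ B x y) S S'
  linarith

/-! ### Growth inside a closed set -/

lemma hh_ge_closed (B : V → V → Prop) {δ : ℝ} (hδ : 0 ≤ δ) (C : Finset V)
    (hC : ∀ x ∈ C, δ ≤ nd B C x) :
    ∀ (T : RT) (x : V), δ ≤ nd B C x → δ ^ T.sz ≤ hh (ker B) T x
  | RT.pt, x, _ => by simp [hh, RT.sz]
  | RT.graft a b, x, hx => by
      simp only [hh, RT.sz]
      have h1 := hh_ge_closed B hδ C hC a x hx
      have h2 : δ * δ ^ b.sz ≤ ∑ y, ker B x y * hh (ker B) b y := by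
        calc δ * δ ^ b.sz ≤ nd B C x * δ ^ b.sz :=
              mul_le_mul_of_nonneg_right hx (by positivity)
          _ = ∑ y ∈ C, ker B x y * δ ^ b.sz := by rw [nd_eq_sum, Finset.sum_mul]
          _ ≤ ∑ y ∈ C, ker B x y * hh (ker B) b y := by
              apply Finset.sum_le_sum
              intro y hy
              exact mul_le_mul_of_nonneg_left (hh_ge_closed B hδ C hC b y (hC y hy))
                (ker_nonneg B x y)
          _ ≤ ∑ y, ker B x y * hh (ker B) b y :=
              Finset.sum_le_sum_of_subset_of_nonneg (Finset.subset_univ _)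
                fun y _ _ => mul_nonneg (ker_nonneg B x y) (hh_nonneg (ker_nonneg B) b y)
      calc δ ^ (a.sz + b.sz + 1) = δ ^ a.sz * (δ * δ ^ b.sz) := by ring
        _ ≤ _ := mul_le_mul h1 h2 (by positivity) (hh_nonneg (ker_nonneg B) a x)

/-! ### The core -/

variable [Nonempty V]

lemma core_exists {B : V → V → Prop} (hB : ∀ x y, B x y → B y x) (δ : ℝ)
    (D : Finset V) :
    ∃ C : Finset V, C ⊆ D ∧ (∀ x ∈ C, δ ≤ nd B C x) ∧
      ∀ m : ℕ, m ≤ (D \ C).card → ∃ D' : Finset V, C ⊆ D' ∧ D' ⊆ D ∧ (D \ D').card = m ∧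
        ed B D D ≤ ed B D' D' + 2 * δ * ((m : ℝ) / (Fintype.card V : ℝ)) := by
  have hn : (0 : ℝ) < (Fintype.card V : ℝ) := card_pos'
  set fam := D.powerset.filter (fun C => ∀ x ∈ C, δ ≤ nd B C x) with hfam
  have hne : fam.Nonempty := ⟨∅, by simp [hfam]⟩
  obtain ⟨C, hCmem, hCmax⟩ := Finset.exists_max_image fam (fun C => C.card) hne
  rw [hfam, Finset.mem_filter, Finset.mem_powerset] at hCmem
  refine ⟨C, hCmem.1, hCmem.2, ?_⟩
  intro m
  induction m with
  | zero =>
    intro _
    exact ⟨D, hCmem.1, Finset.Subset.refl _, by simp, by simp⟩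
  | succ m ih =>
    intro hm
    obtain ⟨D', hCD', hD'D, hcard, hed⟩ := ih (by omega)
    -- D' is not a core, since it is larger than C
    have hne' : C ≠ D' := by
      intro h
      rw [← h] at hcard
      omega
    have hlt : C.card < D'.card := Finset.card_lt_card (hCD'.ssubset_of_ne hne')
    have hnot : ¬ (∀ x ∈ D', δ ≤ nd B D' x) := by
      intro hall
      have hmem : D' ∈ fam := by
        rw [hfam, Finset.mem_filter, Finset.mem_powerset]; exact ⟨hD'D, hall⟩
      have := hCmax D' hmem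
      omega
    push Not at hnot
    obtain ⟨x, hxD', hx⟩ := hnot
    have hxC : x ∉ C := by
      intro hxC
      have h1 := hCmem.2 x hxC
      have h2 := nd_mono B hCD' x
      linarith
    refine ⟨D'.erase x, ?_, (Finset.erase_subset _ _).trans hD'D, ?_, ?_⟩
    · intro y hy
      rw [Finset.mem_erase]
      exact ⟨fun h => hxC (h ▸ hy), hCD' hy⟩
    · have h1 : D \ D'.erase x = insert x (D \ D') := by
        ext y
        simp only [Finset.mem_sdiff, Finset.mem_erase, Finset.mem_insert]
        constructor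
        · rintro ⟨h1, h2⟩
          by_cases h : y = x
          · left; exact h
          · right; exact ⟨h1, fun h' => h2 ⟨h, h'⟩⟩
        · rintro (h | ⟨h1, h2⟩)
          · subst h; exact ⟨hD'D hxD', fun h' => h'.1 rfl⟩
          · exact ⟨h1, fun h' => h2 h'.2⟩
      rw [h1, Finset.card_insert_of_notMem, hcard]
      rw [Finset.mem_sdiff]; tauto
    · have h1 : D' = (D'.erase x) ∪ {x} := by
        ext y
        simp only [Finset.mem_union, Finset.mem_erase, Finset.mem_singleton]
        constructor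
        · intro h
          by_cases h' : y = x
          · right; exact h'
          · left; exact ⟨h', h⟩
        · rintro (h | h)
          · exact h.2
          · rw [h]; exact hxD'
      have hdisj : Disjoint (D'.erase x) {x} := by
        rw [Finset.disjoint_singleton_right]; simp
      have hsub : D'.erase x ⊆ D' := Finset.erase_subset _ _
      have h2 : ed B D' D' = ed B (D'.erase x) D' + ed B {x} D' := by
        conv_lhs => rw [h1, ed_union_left B hdisj]
        rw [← h1]
      have h3 : ed B (D'.erase x) D' = ed B (D'.erase x) (D'.erase x) + ed B (D'.erase x) {x} := by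
        conv_lhs => rw [h1, ed_union_right B _ hdisj]
        rw [← h1]
      have h4 : ed B (D'.erase x) {x} ≤ ed B {x} D' := by
        rw [ed_symm hB (D'.erase x) {x}]
        exact ed_mono_right B _ hsub
      have h5 : ed B {x} D' ≤ δ / (Fintype.card V : ℝ) := by
        unfold ed
        rw [Finset.sum_singleton]
        exact div_le_div_of_nonneg_right hx.le hn.le
      have h6 : 2 * δ * (((m + 1 : ℕ) : ℝ) / (Fintype.card V : ℝ)) =
          2 * δ * ((m : ℝ) / (Fintype.card V : ℝ)) + 2 * (δ / (Fintype.card V : ℝ)) := by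
        push_cast; ring
      rw [h6]
      linarith

/-! ### Turan bound -/

/-- same-colour pairs -/
lemma same_ge (D : Finset V) (c : V → ℕ) (q : ℕ) (hc : ∀ x, c x < q + 1) :
    (D.card : ℝ) ^ 2 / ((q : ℝ) + 1) ≤ ∑ x ∈ D, ∑ y ∈ D, (if c x = c y then (1 : ℝ) else 0) := by
  have h1 : ∑ x ∈ D, ∑ y ∈ D, (if c x = c y then (1 : ℝ) else 0) =
      ∑ i ∈ Finset.range (q + 1), ((D.filter (fun x => c x = i)).card : ℝ) ^ 2 := by
    have h2 : ∀ x ∈ D, ∑ y ∈ D, (if c x = c y then (1 : ℝ) else 0) =
        ((D.filter (fun y => c y = c x)).card : ℝ) := by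
      intro x _
      rw [Finset.card_filter]; push_cast
      apply Finset.sum_congr rfl; intro y _
      by_cases h : c x = c y
      · rw [if_pos h, if_pos h.symm]
      · rw [if_neg h, if_neg (fun h' => h h'.symm)]
    rw [Finset.sum_congr rfl h2]
    rw [← Finset.sum_fiberwise_of_maps_to (g := c) (t := Finset.range (q + 1))
      (fun x _ => Finset.mem_range.mpr (hc x))]
    apply Finset.sum_congr rfl
    intro i _
    have h3 : ∀ x ∈ D.filter (fun x => c x = i), ((D.filter (fun y => c y = c x)).card : ℝ) =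
        ((D.filter (fun y => c y = i)).card : ℝ) := by
      intro x hx
      rw [(Finset.mem_filter.mp hx).2]
    rw [Finset.sum_congr rfl h3, Finset.sum_const, nsmul_eq_mul, pow_two]
  have h4 : (D.card : ℝ) = ∑ i ∈ Finset.range (q + 1), ((D.filter (fun x => c x = i)).card : ℝ) := by
    have := Finset.card_eq_sum_card_fiberwise (f := c) (s := D) (t := Finset.range (q + 1))
      (fun x _ => Finset.mem_coe.mpr (Finset.mem_range.mpr (hc x)))
    exact_mod_cast this
  rw [h1, h4, div_le_iff₀ (by positivity)]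
  have := sq_sum_le_card_mul_sum_sq (s := Finset.range (q + 1))
    (f := fun i => ((D.filter (fun x => c x = i)).card : ℝ))
  rw [Finset.card_range] at this
  push_cast at this
  linarith

theorem turan_density (q : ℕ) (ε : ℝ) (hε : 0 < ε) : ∃ κ : ℝ, 0 < κ ∧
    ∀ (V : Type) [Fintype V] [Nonempty V] (B : V → V → Prop), (∀ x y, B x y → B y x) →
      ∀ D : Finset V, cl B (q + 2) D ≤ κ →
        ed B D D ≤ (1 - 1 / ((q : ℝ) + 1)) * ms D ^ 2 + ε := by
  obtain ⟨κ, hκ, hmain⟩ := furedi q ε hε
  refine ⟨κ, hκ, ?_⟩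
  intro V _ _ B hB D hD
  have hn : (0 : ℝ) < (Fintype.card V : ℝ) := card_pos'
  obtain ⟨c, hc, hsum⟩ := hmain V B hB D hD
  have h1 := same_ge D c q hc
  have h2 : ∑ x ∈ D, ∑ y ∈ D, (if B x y then (1 : ℝ) else 0) ≤
      (D.card : ℝ) ^ 2 - ∑ x ∈ D, ∑ y ∈ D, (if c x = c y then (1 : ℝ) else 0) +
      ε * (Fintype.card V : ℝ) ^ 2 := by
    have h3 : (D.card : ℝ) ^ 2 = ∑ x ∈ D, ∑ y ∈ D, (1 : ℝ) := by
      simp [pow_two]
    have h4 : ∑ x ∈ D, ∑ y ∈ D, ((if B x y then (1 : ℝ) else 0) -
        (1 - (if c x = c y then (1 : ℝ) else 0))) ≤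
        ∑ x ∈ D, ∑ y ∈ D, ((if B x y then (1 : ℝ) else 0) +
            (if B x y ∧ c x = c y then (1 : ℝ) else 0) - (if c x = c y then (0 : ℝ) else 1)) := by
      apply Finset.sum_le_sum; intro x _
      apply Finset.sum_le_sum; intro y _
      by_cases h : c x = c y
      · simp only [h, and_true, if_true]
        split_ifs <;> norm_num
      · simp only [h, and_false, if_false]
        split_ifs <;> norm_num
    have h5 := h4.trans hsum
    simp only [Finset.sum_sub_distrib] at h5
    rw [h3]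
    linarith
  have h6 : ed B D D = (∑ x ∈ D, ∑ y ∈ D, (if B x y then (1 : ℝ) else 0)) /
      (Fintype.card V : ℝ) ^ 2 := ed_eq B D D
  rw [h6, div_le_iff₀ (by positivity)]
  unfold ms
  have h7 : ((1 - 1 / ((q : ℝ) + 1)) * ((D.card : ℝ) / (Fintype.card V : ℝ)) ^ 2 + ε) *
      (Fintype.card V : ℝ) ^ 2 = (D.card : ℝ) ^ 2 - (D.card : ℝ) ^ 2 / ((q : ℝ) + 1) +
      ε * (Fintype.card V : ℝ) ^ 2 := by
    field_simp
  rw [h7]
  linarith

/-! ### Clique tuples and the glueing bound -/

/-- a tuple is a clique -/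
def isCl {V : Type} (R : V → V → Prop) {k : ℕ} (x : Fin k → V) : Prop :=
  ∀ i j : Fin k, i ≠ j → R (x i) (x j)

lemma isCl_cons {V : Type} {R : V → V → Prop} (hR : ∀ x y, R x y → R y x) {k : ℕ} (a : V)
    (x : Fin k → V) : isCl R (Fin.cons a x : Fin (k + 1) → V) ↔ (∀ i, R a (x i)) ∧ isCl R x := by
  constructor
  · intro h
    refine ⟨fun i => ?_, fun i j hij => ?_⟩
    · have := h 0 i.succ (Fin.succ_ne_zero i).symm
      simpa using this
    · have := h i.succ j.succ (fun h' => hij (Fin.succ_injective _ h'))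
      simpa using this
  · rintro ⟨h1, h2⟩ i j hij
    rcases Fin.eq_zero_or_eq_succ i with hi | ⟨i', hi⟩ <;>
    rcases Fin.eq_zero_or_eq_succ j with hj | ⟨j', hj⟩
    · exact absurd (hi.trans hj.symm) hij
    · subst hi; subst hj; simpa using h1 j'
    · subst hi; subst hj; simpa using hR _ _ (h1 i')
    · subst hi; subst hj
      simpa using h2 i' j' (fun h' => hij (by rw [h']))

lemma sum_cons {V : Type} [Fintype V] {k : ℕ} (F : (Fin (k + 1) → V) → ℝ) :
    ∑ x : Fin (k + 1) → V, F x = ∑ a : V, ∑ x : Fin k → V, F (Fin.cons a x) := by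
  rw [← Fintype.sum_prod_type' (f := fun a x => F (Fin.cons a x))]
  exact (Fintype.sum_equiv (Fin.consEquiv (fun _ : Fin (k + 1) => V)) _ _ (fun _ => rfl)).symm

lemma tuple_count {R : V → V → Prop} (hR : ∀ x y, R x y → R y x) :
    ∀ (k : ℕ) (D : Finset V),
      ∑ x : Fin k → V, (if (∀ i, x i ∈ D) ∧ isCl R x then (1 : ℝ) else 0) =
        (Fintype.card V : ℝ) ^ k * cl R k D := by
  have hn : (0 : ℝ) < (Fintype.card V : ℝ) := card_pos'
  intro k
  induction k with
  | zero =>
    intro D
    simp [cl, isCl]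
  | succ k ih =>
    intro D
    rw [sum_cons]
    have h1 : ∀ a : V, ∑ x : Fin k → V,
        (if (∀ i, (Fin.cons a x : Fin (k + 1) → V) i ∈ D) ∧
          isCl R (Fin.cons a x : Fin (k + 1) → V) then (1 : ℝ) else 0) =
        if a ∈ D then (Fintype.card V : ℝ) ^ k * cl R k (D.filter (R a)) else 0 := by
      intro a
      by_cases ha : a ∈ D
      · rw [if_pos ha, ← ih]
        apply Finset.sum_congr rfl
        intro x _
        congr 1
        rw [isCl_cons hR, eq_iff_iff]
        constructor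
        · rintro ⟨h1, h2, h3⟩
          refine ⟨fun i => ?_, h3⟩
          rw [Finset.mem_filter]
          exact ⟨by simpa using h1 i.succ, h2 i⟩
        · rintro ⟨h1, h2⟩
          refine ⟨fun i => ?_, fun i => (Finset.mem_filter.mp (h1 i)).2, h2⟩
          refine Fin.cases ?_ (fun i' => ?_) i
          · simpa using ha
          · simpa using (Finset.mem_filter.mp (h1 i')).1
      · rw [if_neg ha]
        apply Finset.sum_eq_zero
        intro x _
        rw [if_neg]
        rintro ⟨h1, _⟩
        exact ha (by simpa using h1 0)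
    rw [Finset.sum_congr rfl fun a _ => h1 a]
    rw [Finset.sum_ite_mem, Finset.univ_inter]
    simp only [cl]
    rw [← Finset.mul_sum]
    field_simp
    ring

/-- weighted clique-with-trees density -/
noncomputable def td (R : V → V → Prop) {k : ℕ} (T : Fin k → RT) : ℝ :=
  (∑ x : Fin k → V, (if isCl R x then ∏ s, hh (ker R) (T s) (x s) else 0)) /
    (Fintype.card V : ℝ) ^ k

lemma td_nonneg (R : V → V → Prop) {k : ℕ} (T : Fin k → RT) : 0 ≤ td R T := by
  unfold td
  apply div_nonneg _ (by positivity)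
  apply Finset.sum_nonneg
  intro x _
  split_ifs
  · exact Finset.prod_nonneg fun s _ => hh_nonneg (ker_nonneg R) _ _
  · exact le_refl _

lemma amgm_fin {q : ℕ} (z : Fin (q + 1) → ℝ) (hz : ∀ a, 0 ≤ z a) {l : ℝ} (hl : 0 ≤ l)
    (h : l ^ (q + 1) ≤ ∏ a, z a) : ((q : ℝ) + 1) * l ≤ ∑ a, z a := by
  have hq : (0 : ℝ) < (q : ℝ) + 1 := by positivity
  have h1 := Real.geom_mean_le_arith_mean_weighted (Finset.univ : Finset (Fin (q + 1)))
    (fun _ => 1 / ((q : ℝ) + 1)) z (fun _ _ => by positivity)
    (by rw [Finset.sum_const, Finset.card_univ, Fintype.card_fin, nsmul_eq_mul]; push_cast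
        field_simp) (fun a _ => hz a)
  rw [Real.finsetProd_rpow _ _ (fun a _ => hz a), ← Finset.mul_sum] at h1
  have h2 : l ≤ (∏ a, z a) ^ (1 / ((q : ℝ) + 1)) := by
    have h3 : l = (l ^ (q + 1)) ^ (1 / ((q : ℝ) + 1)) := by
      rw [← Real.rpow_natCast, ← Real.rpow_mul hl]
      push_cast
      rw [mul_one_div_cancel hq.ne', Real.rpow_one]
    rw [h3]
    exact Real.rpow_le_rpow (by positivity) h (by positivity)
  have h4 := h2.trans h1
  rw [one_div, ← div_eq_inv_mul, le_div_iff₀ hq] at h4
  linarith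

theorem glue {R : V → V → Prop} (hR : ∀ x y, R x y → R y x) {q : ℕ} (T : Fin (q + 1) → RT)
    {l : ℝ} (hl : 0 ≤ l) (D : Finset V) (hD : ∀ x ∈ D, l ≤ ∏ s, hh (ker R) (T s) x) :
    l * cl R (q + 1) D ≤ td R T := by
  have hn : (0 : ℝ) < (Fintype.card V : ℝ) := card_pos'
  set g : Fin (q + 1) → V → ℝ := fun s x => hh (ker R) (T s) x with hg
  have hg0 : ∀ s x, 0 ≤ g s x := fun s x => hh_nonneg (ker_nonneg R) _ _
  set W : (Fin (q + 1) → V) → ℝ := fun x => if isCl R x then ∏ s, g s (x s) else 0 with hW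
  have hW0 : ∀ x, 0 ≤ W x := by
    intro x; simp only [hW]; split_ifs
    · exact Finset.prod_nonneg fun s _ => hg0 _ _
    · exact le_refl _
  have hshift : ∀ a : Fin (q + 1), ∑ x : Fin (q + 1) → V, W (fun s => x (s + a)) = ∑ x, W x := by
    intro a
    exact Fintype.sum_equiv ((Equiv.addRight a).symm.arrowCongr (Equiv.refl V)) _ _ (fun x => rfl)
  have h1 : ((q : ℝ) + 1) * ∑ x, W x = ∑ x : Fin (q + 1) → V, ∑ a : Fin (q + 1),
      W (fun s => x (s + a)) := by
    rw [Finset.sum_comm, Finset.sum_congr rfl fun a _ => hshift a, Finset.sum_const,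
      Finset.card_univ, Fintype.card_fin, nsmul_eq_mul]
    push_cast; ring
  have h2 : ∀ x : Fin (q + 1) → V, ((q : ℝ) + 1) * (l *
      (if (∀ i, x i ∈ D) ∧ isCl R x then (1 : ℝ) else 0)) ≤
      ∑ a : Fin (q + 1), W (fun s => x (s + a)) := by
    intro x
    by_cases hx : (∀ i, x i ∈ D) ∧ isCl R x
    · rw [if_pos hx, mul_one]
      have hcl : ∀ a : Fin (q + 1), isCl R (fun s => x (s + a)) := by
        intro a i j hij
        exact hx.2 (i + a) (j + a) (fun h => hij (add_right_cancel h))
      have hWa : ∀ a : Fin (q + 1), W (fun s => x (s + a)) = ∏ s, g s (x (s + a)) := by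
        intro a; simp only [hW]; rw [if_pos (hcl a)]
      rw [Finset.sum_congr rfl fun a _ => hWa a]
      apply amgm_fin _ (fun a => Finset.prod_nonneg fun s _ => hg0 _ _) hl
      rw [Finset.prod_comm]
      have h3 : ∀ s, ∏ a : Fin (q + 1), g s (x (s + a)) = ∏ s', g s (x s') := by
        intro s
        exact Fintype.prod_equiv (Equiv.addLeft s) _ _ (fun a => rfl)
      rw [Finset.prod_congr rfl fun s _ => h3 s, Finset.prod_comm]
      have h4 : l ^ (q + 1) = ∏ _s' : Fin (q + 1), l := by simp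
      rw [h4]
      exact Finset.prod_le_prod (fun _ _ => hl) fun s' _ => hD _ (hx.1 s')
    · rw [if_neg hx]
      simp only [mul_zero]
      exact Finset.sum_nonneg fun a _ => hW0 _
  have h3 := Finset.sum_le_sum (s := Finset.univ) fun x _ => h2 x
  rw [← h1, ← Finset.mul_sum, ← Finset.mul_sum, tuple_count hR] at h3
  have h4 : l * ((Fintype.card V : ℝ) ^ (q + 1) * cl R (q + 1) D) ≤ ∑ x, W x :=
    le_of_mul_le_mul_left h3 (by positivity)
  unfold td
  rw [le_div_iff₀ (by positivity)]
  calc l * cl R (q + 1) D * (Fintype.card V : ℝ) ^ (q + 1)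
      = l * ((Fintype.card V : ℝ) ^ (q + 1) * cl R (q + 1) D) := by ring
    _ ≤ ∑ x, W x := h4

end tools

end Pool.Agent.Lib.MP_6505eb_co
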