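import Mathlib
import Pool.Agent.Lib.MP_6505eb_co.Tools

set_option autoImplicit false

namespace Pool.Agent.Lib.MP_6505eb_co

open Classical

/-! ### Numerical facts -/

lemma log_five_quarters : Real.log (5 / 4) ≤ 23 / 100 := by
  rw [Real.log_le_iff_le_exp (by norm_num)]
  have := Real.quadratic_le_exp_of_nonneg (show (0 : ℝ) ≤ 23 / 100 by norm_num)
  refine le_trans ?_ this
  norm_num

lemma log_fifteen_eighths : (5 / 8 : ℝ) ≤ Real.log (15 / 8) := by
  rw [Real.le_log_iff_exp_le (by norm_num)]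
  have h1 := Real.exp_one_lt_d9
  have h2 : Real.exp (5 / 8) ^ 8 ≤ (15 / 8 : ℝ) ^ 8 := by
    rw [← Real.exp_nat_mul]
    have : ((8 : ℕ) : ℝ) * (5 / 8) = ((5 : ℕ) : ℝ) * 1 := by norm_num
    rw [this, Real.exp_nat_mul]
    calc Real.exp 1 ^ 5 ≤ (2.7182818286 : ℝ) ^ 5 :=
          pow_le_pow_left₀ (Real.exp_pos _).le h1.le 5
      _ ≤ (15 / 8 : ℝ) ^ 8 := by norm_num
  exact le_of_pow_le_pow_left₀ (by norm_num) (by norm_num) h2

lemma log_five_halves : (9 / 10 : ℝ) ≤ Real.log (5 / 2) := by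
  rw [Real.le_log_iff_exp_le (by norm_num)]
  have h1 := Real.exp_one_lt_d9
  have h2 : Real.exp (9 / 10) ^ 10 ≤ (5 / 2 : ℝ) ^ 10 := by
    rw [← Real.exp_nat_mul]
    have : ((10 : ℕ) : ℝ) * (9 / 10) = ((9 : ℕ) : ℝ) * 1 := by norm_num
    rw [this, Real.exp_nat_mul]
    calc Real.exp 1 ^ 9 ≤ (2.7182818286 : ℝ) ^ 9 :=
          pow_le_pow_left₀ (Real.exp_pos _).le h1.le 9
      _ ≤ (5 / 2 : ℝ) ^ 10 := by norm_num
  exact le_of_pow_le_pow_left₀ (by norm_num) (by norm_num) h2

lemma exp_half_le : Real.exp (1 / 2) ≤ 1.6488 := by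
  have h1 := Real.exp_one_lt_d9
  have h2 : Real.exp (1 / 2) ^ 2 ≤ (1.6488 : ℝ) ^ 2 := by
    rw [← Real.exp_nat_mul]
    have : ((2 : ℕ) : ℝ) * (1 / 2) = 1 := by norm_num
    rw [this]
    refine h1.le.trans ?_
    norm_num
  exact le_of_pow_le_pow_left₀ (by norm_num) (by norm_num) h2

lemma mul_max_log_le {r θ : ℝ} (hr : 0 ≤ r) (hθ : 0 < θ) :
    r * max 0 (Real.log (θ / r)) ≤ θ * Real.exp (-1) := by
  rcases hr.eq_or_lt with h | h
  · rw [← h, zero_mul]; positivity
  · rcases le_total 0 (Real.log (θ / r)) with h0 | h0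
    · rw [max_eq_right h0]
      have h1 : Real.log (θ / r * Real.exp (-1)) ≤ θ / r * Real.exp (-1) - 1 :=
        Real.log_le_sub_one_of_pos (by positivity)
      rw [Real.log_mul (by positivity) (by positivity), Real.log_exp] at h1
      have h2 : Real.log (θ / r) ≤ θ / r * Real.exp (-1) := by linarith
      calc r * Real.log (θ / r) ≤ r * (θ / r * Real.exp (-1)) :=
            mul_le_mul_of_nonneg_left h2 hr
        _ = θ * Real.exp (-1) := by field_simp
    · rw [max_eq_left h0, mul_zero]; positivity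

lemma mul_max_log_le' {r θ : ℝ} (hr : 0 ≤ r) (hθ : 0 < θ) :
    r * max 0 (Real.log (θ / r)) ≤ max 0 (θ - r) := by
  rcases hr.eq_or_lt with h | h
  · rw [← h, zero_mul]; exact le_max_left _ _
  · rcases le_total 0 (Real.log (θ / r)) with h0 | h0
    · rw [max_eq_right h0]
      have h1 : Real.log (θ / r) ≤ θ / r - 1 := Real.log_le_sub_one_of_pos (by positivity)
      refine le_trans ?_ (le_max_right _ _)
      calc r * Real.log (θ / r) ≤ r * (θ / r - 1) := mul_le_mul_of_nonneg_left h1 hr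
        _ = θ - r := by field_simp
    · rw [max_eq_left h0, mul_zero]; exact le_max_left _ _

lemma exp_neg_one_le : Real.exp (-1) ≤ 0.368 := by
  rw [Real.exp_neg]
  have h := Real.exp_one_gt_d9
  rw [inv_le_comm₀ (Real.exp_pos 1) (by norm_num)]
  refine le_trans ?_ h.le
  norm_num

lemma pt_ineq (r : ℝ) (h0 : 0 ≤ r) (h1 : r ≤ 1) :
    r * max 0 (Real.log ((5 / 8) / r)) + (1 - r) * max 0 (Real.log ((5 / 8) / (1 - r))) ≤
      23 / 100 := by
  have he := exp_neg_one_le
  have hlow : ∀ s : ℝ, 0 ≤ s → s ≤ 1 → s ≤ 3 / 8 →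
      s * max 0 (Real.log ((5 / 8) / s)) + (1 - s) * max 0 (Real.log ((5 / 8) / (1 - s))) ≤
      23 / 100 := by
    intro s hs0 hs1 hs
    have a1 := mul_max_log_le hs0 (show (0 : ℝ) < 5 / 8 by norm_num)
    have a2 : max 0 (Real.log ((5 / 8) / (1 - s))) = 0 := by
      apply max_eq_left
      apply Real.log_nonpos
      · apply div_nonneg (by norm_num) (by linarith)
      · rw [div_le_one (by linarith)]; linarith
    rw [a2, mul_zero, add_zero]
    refine a1.trans ?_
    calc (5 / 8 : ℝ) * Real.exp (-1) ≤ 5 / 8 * 0.368 := mul_le_mul_of_nonneg_left he (by norm_num)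
      _ ≤ 23 / 100 := by norm_num
  rcases le_total r (3 / 8) with hr | hr
  · exact hlow r h0 h1 hr
  · rcases le_total (5 / 8) r with hr' | hr'
    · have := hlow (1 - r) (by linarith) (by linarith) (by linarith)
      rw [show 1 - (1 - r) = r by ring] at this
      linarith
    · have hr0 : 0 < r := by linarith
      have hr1 : 0 < 1 - r := by linarith
      have key : ∀ s : ℝ, 0 < s → s ≤ 5 / 8 →
          s * max 0 (Real.log ((5 / 8) / s)) ≤ s * Real.log (5 / 4) + (1 / 2 - s) := by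
        intro s hs hs'
        have b1 : 0 ≤ Real.log ((5 / 8) / s) := by
          apply Real.log_nonneg
          rw [le_div_iff₀ hs]; linarith
        rw [max_eq_right b1]
        have b2 : (5 / 8) / s = (5 / 4) * (1 / (2 * s)) := by field_simp; norm_num
        rw [b2, Real.log_mul (by norm_num) (by positivity)]
        have b3 : Real.log (1 / (2 * s)) ≤ 1 / (2 * s) - 1 :=
          Real.log_le_sub_one_of_pos (by positivity)
        have b4 : s * Real.log (1 / (2 * s)) ≤ s * (1 / (2 * s) - 1) :=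
          mul_le_mul_of_nonneg_left b3 hs.le
        have b5 : s * (1 / (2 * s) - 1) = 1 / 2 - s := by field_simp
        rw [b5] at b4
        linarith
      have k1 := key r hr0 hr'
      have k2 := key (1 - r) hr1 (by linarith)
      have k3 := log_five_quarters
      nlinarith

/-- the linear lower bound used on the core -/
lemma line_low {q lam r c : ℝ} (hq : 0 < q) (hr : 0 ≤ r) (hc : 0 ≤ c)
    (h : r * (1 - lam) ≤ 1 / q + c) :
    r - 1 / q - c ≤ lam * r - r * max 0 (Real.log ((Real.exp lam / q) / r)) := by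
  rcases hr.eq_or_lt with h0 | h0
  · have h9 : (0 : ℝ) ≤ 1 / q := by positivity
    rw [← h0, zero_mul, mul_zero]
    linarith
  · rcases le_total r (Real.exp lam / q) with h1 | h1
    · have h2 : 0 ≤ Real.log ((Real.exp lam / q) / r) := by
        apply Real.log_nonneg
        rw [le_div_iff₀ h0]; linarith
      rw [max_eq_right h2]
      have h3 : Real.log ((Real.exp lam / q) / r) = lam - Real.log (q * r) := by
        rw [Real.log_div (by positivity) h0.ne', Real.log_div (by positivity) hq.ne',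
          Real.log_exp, Real.log_mul hq.ne' h0.ne']
        ring
      rw [h3]
      have h4 : 1 - (q * r)⁻¹ ≤ Real.log (q * r) := Real.one_sub_inv_le_log_of_pos (by positivity)
      have h5 : r * (1 - (q * r)⁻¹) = r - 1 / q := by field_simp
      have h6 : r * (1 - (q * r)⁻¹) ≤ r * Real.log (q * r) := mul_le_mul_of_nonneg_left h4 hr
      rw [h5] at h6
      linarith
    · have h2 : Real.log ((Real.exp lam / q) / r) ≤ 0 := by
        apply Real.log_nonpos (by positivity)
        rw [div_le_one h0]; exact h1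
      rw [max_eq_left h2]
      linarith

lemma num_case1 (u : ℝ) (h0 : 0 ≤ u) (h1 : u ≤ 1 / 4) :
    23 / 100 < (9 / 10 + (1 - 4 * u) - 1 / 10000) * (u + (1 - 2 * u) * (6 / 49) - 3 / 10000) ∧
      0 ≤ u + (1 - 2 * u) * (6 / 49) - 3 / 10000 ∧ 0 ≤ 9 / 10 + (1 - 4 * u) - 1 / 10000 := by
  refine ⟨?_, ?_, ?_⟩
  · nlinarith [mul_nonneg h0 (sub_nonneg.mpr h1)]
  · linarith
  · linarith

lemma num_t2 (a b : ℝ) (ha : a ≤ 6 / 7) (hb : b ≤ 6 / 7) (hab : a + b ≤ 1) :
    (6 / 49 : ℝ) ≤ (1 - a) * (1 - b) := by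
  rcases le_total a (1 / 7) with h | h
  · nlinarith [mul_nonneg (sub_nonneg.mpr h) (sub_nonneg.mpr hb)]
  · nlinarith [mul_nonneg (sub_nonneg.mpr h) (sub_nonneg.mpr ha)]

lemma num_p (u β P : ℝ) (hu0 : 0 ≤ u) (hu1 : u ≤ 1 / 3) (hb0 : 6 / 7 ≤ β) (hb1 : β ≤ 1)
    (hP0 : 1 / 9 ≤ P) (hP1 : P ≤ 1 / 9 + 1 / 10000) :
    1 / 300 ≤ β ^ 2 - β * u - (1 - u) * (β - P) ^ 2 - 2 * u * P := by
  -- write β = 6/7 + s, P = 1/9 + r
  obtain ⟨s, rfl⟩ : ∃ s, β = 6 / 7 + s := ⟨β - 6 / 7, by ring⟩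
  obtain ⟨r, rfl⟩ : ∃ r, P = 1 / 9 + r := ⟨P - 1 / 9, by ring⟩
  have hs0 : 0 ≤ s := by linarith
  have hr0 : 0 ≤ r := by linarith
  have hr1 : r ≤ 1 / 10000 := by linarith
  have hs1 : s ≤ 1 / 7 := by linarith
  have h1 : 0 ≤ s * (1 - u) := mul_nonneg hs0 (by linarith)
  have h2 : 0 ≤ s * r * (1 - u) := mul_nonneg (mul_nonneg hs0 hr0) (by linarith)
  have h3 : 0 ≤ s * s * u := mul_nonneg (mul_nonneg hs0 hs0) hu0
  have h4 : 0 ≤ s * u := mul_nonneg hs0 hu0
  have h5 : r * u ≤ 1 / 10000 * (1 / 3) := mul_le_mul hr1 hu1 hu0 (by norm_num)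
  have h6 : r ^ 2 ≤ 1 / 10000 := by nlinarith
  have h7 : 0 ≤ r ^ 2 * u := mul_nonneg (sq_nonneg r) hu0
  nlinarith

lemma num_T3 (y p t : ℝ) (hy0 : 0 ≤ y) (hy1 : y ≤ 1 / 7) (hp0 : 0 ≤ p) (hp1 : p ≤ 1 / 9)
    (ht : t ≤ 137 / 1000) :
    9 / 100 * y ≤ (1 - y) ^ 2 - (1 - 1 / 3) * ((1 - y) - p) ^ 2 - 2 * (1 / 3) * p +
      y * ((1 - y) - p - 1 / 3) - 1 / 3 * (1 - y) - 1 / 6 * p - y * t := by
  have h1 : y * t ≤ y * (137 / 1000) := mul_le_mul_of_nonneg_left ht hy0
  have h2 : 0 ≤ y * (1 / 7 - y) := mul_nonneg hy0 (by linarith)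
  have h3 : 0 ≤ p * (1 / 7 - y) := mul_nonneg hp0 (by linarith)
  have h4 : 0 ≤ p * (1 / 9 - p) := mul_nonneg hp0 (by linarith)
  nlinarith

lemma num_T4 (u y p t : ℝ) (hu0 : 0 ≤ u) (hu1 : u ≤ 1 / 4) (hy0 : 0 ≤ y) (hy1 : y ≤ 1 / 7)
    (hp0 : 0 ≤ p) (hp1 : p ≤ 1 / 9) (ht : t ≤ 184 / 1000) :
    9 / 100 * y ≤ (1 - y) ^ 2 - (1 - u) * ((1 - y) - p) ^ 2 - 2 * u * p +
      y * ((1 - y) - p - u) - u * (1 - y) - 0 * p - y * t := by
  have h1 : y * t ≤ y * (184 / 1000) := mul_le_mul_of_nonneg_left ht hy0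
  have h2 : 0 ≤ y * (1 / 7 - y) := mul_nonneg hy0 (by linarith)
  have h3 : 0 ≤ p * (1 / 7 - y) := mul_nonneg hp0 (by linarith)
  have h4 : 0 ≤ p * (1 / 9 - p) := mul_nonneg hp0 (by linarith)
  have h5 : 0 ≤ y * (1 / 4 - u) := mul_nonneg hy0 (by linarith)
  have h6 : 0 ≤ p * (1 / 4 - u) := mul_nonneg hp0 (by linarith)
  have h7 : 0 ≤ y ^ 2 * u := by positivity
  have h8 : 0 ≤ p ^ 2 * u := by positivity
  have h9 : 0 ≤ p * y * u := by positivity
  nlinarith

/-! ### The abstract situation -/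

section sit

variable {V : Type} [Fintype V]

structure Half (q : ℕ) (e : ℝ) (R : V → V → Prop) (DR : Finset V) : Prop where
  symm : ∀ x y, R x y → R y x
  turan : ∀ D' : Finset V, D' ⊆ DR → ed R D' D' ≤ (1 - 1 / (q : ℝ)) * ms D' ^ 2 + e
  star : ∀ θ : ℝ, 0 < θ → (Real.log θ - Real.log ((1 + e) / q)) *
    ∑ x ∈ Finset.univ \ DR, nd R Finset.univ x ≤
      ∑ x, nd R Finset.univ x * max 0 (Real.log (θ / nd R Finset.univ x))
  low : ∀ S : Finset V, Disjoint S DR → ed R S S ≤ (1 + e) / q * ms S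
  grow : ∀ C : Finset V, (∀ x ∈ C, (1 + e) / q ≤ nd R C x) → ∀ x, (1 + e) / q ≤ nd R C x → x ∈ DR

lemma eB_eq {R B : V → V → Prop} (hRB : ∀ x y, B x y ↔ ¬ R x y) (S S' : Finset V) :
    ed R S S' + ed B S S' = ms S * ms S' := by
  have h : B = fun x y => ¬ R x y := by
    funext x y; exact propext (hRB x y)
  rw [h]; exact ed_add_compl R S S'

lemma nB_eq {R B : V → V → Prop} (hRB : ∀ x y, B x y ↔ ¬ R x y) (S : Finset V) (x : V) :
    nd R S x + nd B S x = ms S := by
  have h : B = fun x y => ¬ R x y := by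
    funext x y; exact propext (hRB x y)
  rw [h]; exact nd_add_compl R S x

variable [Nonempty V]

lemma card_eq_ms (S : Finset V) : (S.card : ℝ) = (Fintype.card V : ℝ) * ms S := by
  have hn : (0 : ℝ) < (Fintype.card V : ℝ) := card_pos'
  unfold ms; field_simp

lemma sum_nd_eq (R : V → V → Prop) (S S' : Finset V) :
    ∑ x ∈ S, nd R S' x = (Fintype.card V : ℝ) * ed R S S' := by
  have hn : (0 : ℝ) < (Fintype.card V : ℝ) := card_pos'
  unfold ed; field_simp

lemma ed_le_of_inter (R : V → V → Prop) (D I : Finset V)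
    (hI : I ⊆ D) : ed R D D ≤ ed R (D \ I) (D \ I) + 2 * ms I := by
  have h1 : D = (D \ I) ∪ I := (Finset.sdiff_union_of_subset hI).symm
  have hd : Disjoint (D \ I) I := Finset.sdiff_disjoint
  have h2 : ed R D D = ed R (D \ I) D + ed R I D := by
    conv_lhs => rw [h1, ed_union_left R hd]
    rw [← h1]
  have h3 : ed R (D \ I) D = ed R (D \ I) (D \ I) + ed R (D \ I) I := by
    conv_lhs => rw [h1, ed_union_right R _ hd]
    rw [← h1]
  have h4 : ed R I D ≤ ms I := by
    refine (ed_le R I D).trans ?_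
    have := ms_le_one D
    have := ms_nonneg I
    nlinarith
  have h5 : ed R (D \ I) I ≤ ms I := by
    refine (ed_le R (D \ I) I).trans ?_
    have := ms_le_one (D \ I)
    have := ms_nonneg I
    nlinarith
  linarith

/-- the low-density bound for the other colour inside `D_B` -/
lemma ed_R_DB {q : ℕ} (hq : 3 ≤ q) {e : ℝ} (he : 0 ≤ e) {R : V → V → Prop}
    {DR DB : Finset V} (hR : Half q e R DR)
    (hI : ms (DR ∩ DB) ≤ e) : ed R DB DB ≤ ms DB / q + 3 * e := by
  have hq' : (3 : ℝ) ≤ q := by exact_mod_cast hq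
  have hI' : DR ∩ DB ⊆ DB := Finset.inter_subset_right
  have h1 := ed_le_of_inter R DB (DR ∩ DB) hI'
  have h2 := hR.low (DB \ (DR ∩ DB)) (by
    rw [Finset.disjoint_left]
    intro x hx hx'
    rw [Finset.mem_sdiff, Finset.mem_inter] at hx
    exact hx.2 ⟨hx', hx.1⟩)
  have h3 : ms (DB \ (DR ∩ DB)) ≤ ms DB := ms_mono Finset.sdiff_subset
  have h4 : (1 + e) / q * ms (DB \ (DR ∩ DB)) ≤ (1 + e) / q * ms DB :=
    mul_le_mul_of_nonneg_left h3 (by positivity)
  have h5 : (1 + e) / q * ms DB ≤ ms DB / q + e := by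
    have h6 := ms_le_one DB
    have h7 := ms_nonneg DB
    have h8 : (1 + e) / q * ms DB = ms DB / q + e * (ms DB / q) := by ring
    rw [h8]
    have h9 : ms DB / q ≤ 1 := by rw [div_le_one (by linarith)]; linarith
    nlinarith
  linarith

/-- Case 1: neither `D_R` nor `D_B` is nearly everything. -/
lemma far_case1 {q : ℕ} (hq : 3 ≤ q) {e : ℝ} (he : 0 < e) (he1 : e ≤ 1 / 10000)
    {R B : V → V → Prop} (hRB : ∀ x y, B x y ↔ ¬ R x y)
    {DR DB : Finset V} (hR : Half q e R DR) (hB : Half q e B DB)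
    (hI : ms (DR ∩ DB) ≤ e) (h1 : ms DR ≤ 6 / 7) (h2 : ms DB ≤ 6 / 7) : False := by
  have hq' : (3 : ℝ) ≤ q := by exact_mod_cast hq
  have hq0 : (0 : ℝ) < q := by linarith
  have hn : (0 : ℝ) < (Fintype.card V : ℝ) := card_pos'
  set n : ℝ := (Fintype.card V : ℝ) with hndef
  set I := DR ∩ DB with hIdef
  set ER := DR \ I with hER
  set EB := DB \ I with hEB
  set Z := Finset.univ \ (DR ∪ DB) with hZ
  -- set identities
  have s1 : Finset.univ \ DR = Z ∪ EB := by
    ext x
    simp only [hZ, hEB, hIdef, Finset.mem_sdiff, Finset.mem_univ, true_and, Finset.mem_union,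
      Finset.mem_inter]
    tauto
  have s2 : Finset.univ \ DB = Z ∪ ER := by
    ext x
    simp only [hZ, hER, hIdef, Finset.mem_sdiff, Finset.mem_univ, true_and, Finset.mem_union,
      Finset.mem_inter]
    tauto
  have d1 : Disjoint Z EB := by
    rw [Finset.disjoint_left]
    intro x hx hx'
    simp only [hZ, hEB, Finset.mem_sdiff, Finset.mem_univ, true_and, Finset.mem_union] at hx hx'
    tauto
  have d2 : Disjoint Z ER := by
    rw [Finset.disjoint_left]
    intro x hx hx'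
    simp only [hZ, hER, Finset.mem_sdiff, Finset.mem_univ, true_and, Finset.mem_union] at hx hx'
    tauto
  have d3 : Disjoint EB ER := by
    rw [Finset.disjoint_left]
    intro x hx hx'
    simp only [hEB, hER, hIdef, Finset.mem_sdiff, Finset.mem_inter] at hx hx'
    tauto
  set a := ms ER with ha
  set b := ms EB with hb
  set z := ms Z with hz
  have ha0 : 0 ≤ a := ms_nonneg _
  have hb0 : 0 ≤ b := ms_nonneg _
  have ha1 : a ≤ 6 / 7 := (ms_mono Finset.sdiff_subset).trans h1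
  have hb1 : b ≤ 6 / 7 := (ms_mono Finset.sdiff_subset).trans h2
  have hzab : z = 1 - a - b - ms I := by
    have t1 : ms (Finset.univ : Finset V) = ms (Finset.univ \ DR) + ms DR :=
      ms_sdiff (Finset.subset_univ _)
    rw [ms_univ, s1, ms_union_disj d1] at t1
    have t2 : ms DR = ms ER + ms I := ms_sdiff Finset.inter_subset_left
    rw [t2] at t1
    linarith
  have hab : a + b ≤ 1 := by
    have := ms_nonneg Z
    have := ms_nonneg I
    linarith
  -- the mass
  set m : ℝ := ed R (Finset.univ \ DR) Finset.univ + ed B (Finset.univ \ DB) Finset.univ with hm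
  have hm1 : z + (b ^ 2 / q - e) + (a ^ 2 / q - e) + a * b ≤ m := by
    have e1 : ed R (Finset.univ \ DR) Finset.univ = ed R Z Finset.univ + ed R EB Finset.univ := by
      rw [s1, ed_union_left R d1]
    have e2 : ed B (Finset.univ \ DB) Finset.univ = ed B Z Finset.univ + ed B ER Finset.univ := by
      rw [s2, ed_union_left B d2]
    have e3 : ed R Z Finset.univ + ed B Z Finset.univ = z := by
      rw [eB_eq hRB, ms_univ, mul_one]
    have e4 : ed R EB EB + ed R EB ER ≤ ed R EB Finset.univ := by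
      rw [← ed_union_right R EB d3]
      exact ed_mono_right R EB (Finset.subset_univ _)
    have e5 : ed B ER ER + ed B ER EB ≤ ed B ER Finset.univ := by
      rw [← ed_union_right B ER d3.symm]
      exact ed_mono_right B ER (Finset.subset_univ _)
    have e6 : ed R EB ER + ed B ER EB = a * b := by
      rw [ed_symm hB.symm ER EB, eB_eq hRB]; ring
    have e7 : b ^ 2 / q - e ≤ ed R EB EB := by
      have t1 := eB_eq hRB EB EB
      have t2 := hB.turan EB Finset.sdiff_subset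
      have t3 : (1 - 1 / (q : ℝ)) * b ^ 2 = b * b - b ^ 2 / q := by field_simp
      rw [t3] at t2
      linarith
    have e8 : a ^ 2 / q - e ≤ ed B ER ER := by
      have t1 := eB_eq hRB ER ER
      have t2 := hR.turan ER Finset.sdiff_subset
      have t3 : (1 - 1 / (q : ℝ)) * a ^ 2 = a * a - a ^ 2 / q := by field_simp
      rw [t3] at t2
      linarith
    rw [hm, e1, e2]
    linarith
  -- upper bound through the star inequalities
  set L := Real.log (5 / 8) - Real.log ((1 + e) / q) with hL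
  have hup : L * m ≤ 23 / 100 := by
    have t1 := hR.star (5 / 8) (by norm_num)
    have t2 := hB.star (5 / 8) (by norm_num)
    rw [← hL] at t1 t2
    have t3 : L * m = (L * ∑ x ∈ Finset.univ \ DR, nd R Finset.univ x +
        L * ∑ x ∈ Finset.univ \ DB, nd B Finset.univ x) / n := by
      rw [hm]; unfold ed; rw [← hndef, ← add_div, ← mul_div_assoc, mul_add]
    rw [t3, div_le_iff₀ hn]
    refine (add_le_add t1 t2).trans ?_
    rw [← Finset.sum_add_distrib]
    have t4 : (23 / 100 : ℝ) * n = ∑ _x : V, (23 / 100 : ℝ) := by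
      rw [Finset.sum_const, Finset.card_univ, nsmul_eq_mul]; ring
    rw [t4]
    apply Finset.sum_le_sum
    intro x _
    have t5 : nd B Finset.univ x = 1 - nd R Finset.univ x := by
      have := nB_eq hRB Finset.univ x
      rw [ms_univ] at this; linarith
    rw [t5]
    apply pt_ineq _ (nd_nonneg R _ x)
    have := nd_nonneg B Finset.univ x
    linarith
  -- lower bound for L
  have hL2 : Real.log (5 / 8) + Real.log q - e ≤ L := by
    rw [hL, Real.log_div (by positivity) hq0.ne']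
    have := Real.log_le_sub_one_of_pos (show 0 < 1 + e by linarith)
    linarith
  -- lower bound for m
  have hm2 : 1 / q + (1 - 2 / q) * (6 / 49) - 3 * e ≤ m := by
    refine le_trans ?_ hm1
    have t1 : ms I ≤ e := hI
    have t2 : (6 / 49 : ℝ) ≤ (1 - a) * (1 - b) := num_t2 a b ha1 hb1 hab
    have t3 : (1 - 2 * ((1 - a) * (1 - b))) / q ≤ (a ^ 2 + b ^ 2) / q := by
      apply div_le_div_of_nonneg_right _ hq0.le
      nlinarith [sq_nonneg (1 - a - b)]
    have t4 : 0 ≤ 1 - 2 / (q : ℝ) := by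
      rw [sub_nonneg, div_le_one hq0]; linarith
    have t5 : (1 - 2 / (q : ℝ)) * (6 / 49) ≤ (1 - 2 / (q : ℝ)) * ((1 - a) * (1 - b)) :=
      mul_le_mul_of_nonneg_left t2 t4
    have t6 : (1 - 2 * ((1 - a) * (1 - b))) / q = 1 / q - (2 / q) * ((1 - a) * (1 - b)) := by
      field_simp
    have t7 : (a ^ 2 + b ^ 2) / q = a ^ 2 / q + b ^ 2 / q := by ring
    have t8 : z = (1 - a) * (1 - b) - a * b - ms I := by rw [hzab]; ring
    rw [t6, t7] at t3
    rw [t8]
    have t9 : (1 - 2 / (q : ℝ)) * ((1 - a) * (1 - b)) =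
      (1 - a) * (1 - b) - 2 / (q : ℝ) * ((1 - a) * (1 - b)) := by ring
    linarith
  -- numerical contradiction
  have hm0 : 0 ≤ m := by
    rw [hm]; exact add_nonneg (ed_nonneg _ _ _) (ed_nonneg _ _ _)
  rcases Nat.eq_or_lt_of_le hq with h3 | h3
  · have hq3 : (q : ℝ) = 3 := by rw [← h3]; norm_num
    rw [hq3] at hL2 hm2
    have t1 : Real.log (5 / 8) + Real.log 3 = Real.log (15 / 8) := by
      rw [← Real.log_mul (by norm_num) (by norm_num)]; norm_num
    rw [t1] at hL2
    have t2 := log_fifteen_eighths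
    have t3 : 5 / 8 - 1 / 10000 ≤ L := by linarith
    have t4 : 1 / 3 + (1 - 2 / 3) * (6 / 49) - 3 / 10000 ≤ m := by linarith
    have t8 : (5 / 8 - 1 / 10000 : ℝ) * (1 / 3 + (1 - 2 / 3) * (6 / 49) - 3 / 10000) ≤
        L * m := mul_le_mul t3 t4 (by norm_num) (by linarith)
    have t9 : (23 / 100 : ℝ) <
      (5 / 8 - 1 / 10000 : ℝ) * (1 / 3 + (1 - 2 / 3) * (6 / 49) - 3 / 10000) := by norm_num
    linarith
  · have hq4 : (4 : ℝ) ≤ q := by exact_mod_cast h3
    have t1 : Real.log (5 / 8) + Real.log q = Real.log (5 / 2) + Real.log (q / 4) := by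
      rw [← Real.log_mul (by norm_num) hq0.ne', ← Real.log_mul (by norm_num) (by positivity)]
      congr 1; ring
    rw [t1] at hL2
    have t2 := log_five_halves
    have t3 : 1 - 4 / (q : ℝ) ≤ Real.log (q / 4) := by
      have := Real.one_sub_inv_le_log_of_pos (show (0 : ℝ) < q / 4 by positivity)
      rw [inv_div] at this; exact this
    set u := 1 / (q : ℝ) with hu
    have hu1 : u ≤ 1 / 4 := by
      rw [hu]; exact one_div_le_one_div_of_le (by norm_num) hq4
    have hu0 : 0 < u := by positivity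
    have t4 : 4 / (q : ℝ) = 4 * u := by rw [hu]; ring
    have t5 : 2 / (q : ℝ) = 2 * u := by rw [hu]; ring
    rw [t4] at t3
    rw [t5] at hm2
    have t6 : 9 / 10 + (1 - 4 * u) - 1 / 10000 ≤ L := by linarith
    have t7 : u + (1 - 2 * u) * (6 / 49) - 3 / 10000 ≤ m := by linarith
    obtain ⟨n1, n2, n3⟩ := num_case1 u hu0.le hu1
    have t8 : (9 / 10 + (1 - 4 * u) - 1 / 10000) * (u + (1 - 2 * u) * (6 / 49) - 3 / 10000) ≤
        L * m := mul_le_mul t6 t7 n2 (by linarith)
    linarith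

/-- the core of `D_B` is almost all of it -/
lemma p_bound {q : ℕ} (hq : 3 ≤ q) {e : ℝ} (he : 0 < e) (he1 : e ≤ 1 / 10000)
    {R B : V → V → Prop} (hRB : ∀ x y, B x y ↔ ¬ R x y)
    {DR DB : Finset V} (hR : Half q e R DR) (hB : Half q e B DB)
    (hI : ms (DR ∩ DB) ≤ e) (hn1 : 1 / (Fintype.card V : ℝ) ≤ e) (h2 : 6 / 7 ≤ ms DB)
    (C : Finset V)
    (hC : ∀ m : ℕ, m ≤ (DB \ C).card → ∃ D' : Finset V, C ⊆ D' ∧ D' ⊆ DB ∧ (DB \ D').card = m ∧
        ed B DB DB ≤ ed B D' D' + 2 * ((1 + e) / q) * ((m : ℝ) / (Fintype.card V : ℝ))) :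
    ms (DB \ C) ≤ 1 / 9 := by
  by_contra hcon
  push Not at hcon
  have hq' : (3 : ℝ) ≤ q := by exact_mod_cast hq
  have hq0 : (0 : ℝ) < q := by linarith
  have hn : (0 : ℝ) < (Fintype.card V : ℝ) := card_pos'
  set n : ℝ := (Fintype.card V : ℝ) with hndef
  set mm := ⌈n / 9⌉₊ with hmm
  have hm1 : mm ≤ (DB \ C).card := by
    rw [hmm, Nat.ceil_le]
    unfold ms at hcon
    rw [lt_div_iff₀ hn] at hcon
    linarith
  obtain ⟨D', hCD', hD', hcard, hed⟩ := hC mm hm1
  set P : ℝ := (mm : ℝ) / n with hP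
  have hP0 : 1 / 9 ≤ P := by
    rw [hP, le_div_iff₀ hn]
    have := Nat.le_ceil (n / 9)
    linarith
  have hP1 : P ≤ 1 / 9 + 1 / 10000 := by
    rw [hP, div_le_iff₀ hn]
    have h3 := (Nat.ceil_lt_add_one (show 0 ≤ n / 9 by positivity)).le
    have h4 : 1 ≤ 1 / 10000 * n := by
      have : 1 / n ≤ 1 / 10000 := hn1.trans he1
      rw [div_le_iff₀ hn] at this
      exact this
    rw [← hmm] at h3
    linarith
  have hmsD' : ms D' = ms DB - P := by
    have h3 := ms_sdiff hD'
    have h4 : ms (DB \ D') = P := by unfold ms; rw [hcard]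
    linarith
  have hturan := hB.turan D' hD'
  rw [hmsD'] at hturan
  have hlow := ed_R_DB hq he.le hR hI
  have hsum := eB_eq hRB DB DB
  set β := ms DB with hβ
  have hβ1 : β ≤ 1 := ms_le_one _
  set u : ℝ := 1 / (q : ℝ) with hu
  have hu0 : 0 ≤ u := by positivity
  have hu1 : u ≤ 1 / 3 := by
    rw [hu]; exact one_div_le_one_div_of_le (by norm_num) hq'
  have h5 : β / q = β * u := by rw [hu]; ring
  have h6 : (1 + e) / q = (1 + e) * u := by rw [hu]; ring
  rw [h5] at hlow
  rw [h6] at hed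
  have key := num_p u β P hu0 hu1 h2 hβ1 hP0 hP1
  have h7 : e * (2 * u * P) ≤ e * 1 := by
    apply mul_le_mul_of_nonneg_left _ he.le
    nlinarith
  nlinarith

set_option maxHeartbeats 1000000 in
/-- Case 2 : `D_B` is large, hence nearly everything. -/
lemma far_case2 {q : ℕ} (hq : 3 ≤ q) {e : ℝ} (he : 0 < e) (he1 : e ≤ 1 / 10000)
    {R B : V → V → Prop} (hRB : ∀ x y, B x y ↔ ¬ R x y)
    {DR DB : Finset V} (hR : Half q e R DR) (hB : Half q e B DB)
    (hI : ms (DR ∩ DB) ≤ e) (hn1 : 1 / (Fintype.card V : ℝ) ≤ e) (h2 : 6 / 7 ≤ ms DB)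
    (lam c : ℝ) (hlam0 : 0 ≤ lam) (hlam1 : lam ≤ 1) (hc : 0 ≤ c)
    (hl1 : (1 - 1 / (q : ℝ)) * (1 - lam) ≤ 1 / q) (hl2 : 1 - lam ≤ 1 / q + c) :
    ∃ p : ℝ, 0 ≤ p ∧ p ≤ 1 / 9 ∧
      (1 - (1 - ms DB)) ^ 2 - (1 - 1 / (q : ℝ)) * ((1 - (1 - ms DB)) - p) ^ 2
        - 2 * (1 / (q : ℝ)) * p +
      (1 - ms DB) * ((1 - (1 - ms DB)) - p - 1 / (q : ℝ)) - 1 / (q : ℝ) * (1 - (1 - ms DB))
        - c * p -
      (1 - ms DB) * max 0 (Real.exp lam / q - ms DB + p + 1 / q) ≤ 5 * e := by
  have hq' : (3 : ℝ) ≤ q := by exact_mod_cast hq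
  have hq0 : (0 : ℝ) < q := by linarith
  have hn : (0 : ℝ) < (Fintype.card V : ℝ) := card_pos'
  set δ : ℝ := (1 + e) / q with hδ
  have hδ0 : 0 ≤ δ := by positivity
  obtain ⟨C, hCD, hC1, hC2⟩ := core_exists hB.symm δ DB
  have hp := p_bound hq he he1 hRB hR hB hI hn1 h2 C hC2
  set n : ℝ := (Fintype.card V : ℝ) with hndef
  set p := ms (DB \ C) with hpdef
  have hp0 : 0 ≤ p := ms_nonneg _
  refine ⟨p, hp0, hp, ?_⟩
  set β := ms DB with hβ
  have hβ1 : β ≤ 1 := ms_le_one _
  have hmsC : ms C = β - p := by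
    have := ms_sdiff hCD; linarith
  set u : ℝ := 1 / (q : ℝ) with hu
  have hu0 : 0 ≤ u := by positivity
  have hu1 : u ≤ 1 / 3 := by
    rw [hu]; exact one_div_le_one_div_of_le (by norm_num) hq'
  have hδu : δ = (1 + e) * u := by rw [hδ, hu]; ring
  -- blue mass inside D_B
  have hblue : ed B DB DB ≤ (1 - u) * (β - p) ^ 2 + e + 2 * δ * p := by
    obtain ⟨D', hCD', hD', hcard, hed⟩ := hC2 (DB \ C).card (le_refl _)
    have h3 : ms (DB \ D') = p := by rw [hpdef]; unfold ms; rw [hcard]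
    have h4 : ms D' = β - p := by
      have := ms_sdiff hD'; linarith
    have h5 := hB.turan D' hD'
    rw [h4] at h5
    have h6 : ((DB \ C).card : ℝ) / n = p := rfl
    rw [h6] at hed
    linarith
  -- vertices outside D_B
  set Y := Finset.univ \ DB with hY
  have hmsY : ms Y = 1 - β := by
    have := ms_sdiff (Finset.subset_univ DB)
    rw [ms_univ] at this
    linarith
  have hYdeg : ∀ x ∈ Y, β - p - δ ≤ nd R C x := by
    intro x hx
    have h3 : nd B C x < δ := by
      by_contra hcon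
      push Not at hcon
      have := hB.grow C hC1 x hcon
      exact (Finset.mem_sdiff.mp hx).2 this
    have h4 := nB_eq hRB C x
    linarith
  -- total red mass
  set M : ℝ := ed R DB Finset.univ with hM
  have hMlow : β * β - ed B DB DB + (1 - β) * (β - p - δ) ≤ M := by
    have h3 : (Finset.univ : Finset V) = DB ∪ Y := by
      rw [hY]; ext x; simp [Classical.em]
    have h4 : Disjoint DB Y := Finset.disjoint_sdiff
    have h5 : M = ed R DB DB + ed R DB Y := by
      rw [hM, h3, ed_union_right R DB h4]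
    have h6 := eB_eq hRB DB DB
    have h7 : (1 - β) * (β - p - δ) ≤ ed R DB Y := by
      rw [ed_symm hR.symm DB Y]
      have h8 : ed R Y C ≤ ed R Y DB := ed_mono_right R Y hCD
      refine le_trans ?_ h8
      unfold ed
      rw [le_div_iff₀ hn, ← hmsY]
      have h9 : ms Y * (β - p - δ) * n = ∑ _x ∈ Y, (β - p - δ) := by
        rw [Finset.sum_const, nsmul_eq_mul, card_eq_ms Y]; ring
      rw [h9]
      exact Finset.sum_le_sum hYdeg
    linarith
  have hM1 : M ≤ 1 := by
    refine (ed_le R _ _).trans ?_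
    rw [ms_univ]; linarith
  have hM0 : 0 ≤ M := ed_nonneg _ _ _
  -- star for R
  set θ : ℝ := Real.exp lam / q with hθ
  have hθ0 : 0 < θ := by positivity
  have hstar := hR.star θ hθ0
  have hlog : lam - e ≤ Real.log θ - Real.log δ := by
    rw [hθ, hδ, Real.log_div (by positivity) hq0.ne', Real.log_div (by positivity) hq0.ne',
      Real.log_exp]
    have := Real.log_le_sub_one_of_pos (show 0 < 1 + e by linarith)
    linarith
  set r : V → ℝ := fun x => nd R Finset.univ x with hr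
  have hr0 : ∀ x, 0 ≤ r x := fun x => nd_nonneg _ _ _
  have hr1 : ∀ x, r x ≤ 1 := fun x => (nd_le_ms _ _ _).trans (ms_le_one _)
  -- lower bound of the left side
  have hsum1 : n * (M - e) ≤ ∑ x ∈ Finset.univ \ DR, r x := by
    have h3 : DB \ (DR ∩ DB) ⊆ Finset.univ \ DR := by
      intro x hx
      rw [Finset.mem_sdiff, Finset.mem_inter] at hx
      rw [Finset.mem_sdiff]
      exact ⟨Finset.mem_univ _, fun h => hx.2 ⟨h, hx.1⟩⟩
    have h4 : ∑ x ∈ DB \ (DR ∩ DB), r x ≤ ∑ x ∈ Finset.univ \ DR, r x :=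
      Finset.sum_le_sum_of_subset_of_nonneg h3 fun x _ _ => hr0 x
    have h5 : ∑ x ∈ DB, r x = ∑ x ∈ DB \ (DR ∩ DB), r x + ∑ x ∈ DR ∩ DB, r x := by
      rw [Finset.sum_sdiff Finset.inter_subset_right]
    have h6 : ∑ x ∈ DR ∩ DB, r x ≤ n * e := by
      calc ∑ x ∈ DR ∩ DB, r x ≤ ∑ x ∈ DR ∩ DB, (1 : ℝ) := Finset.sum_le_sum fun x _ => hr1 x
        _ = n * ms (DR ∩ DB) := by
            rw [Finset.sum_const, nsmul_eq_mul, mul_one, card_eq_ms]
        _ ≤ n * e := mul_le_mul_of_nonneg_left hI hn.le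
    have h7 : n * M = ∑ x ∈ DB, r x := (sum_nd_eq R DB Finset.univ).symm
    rw [mul_sub, h7]
    linarith
  -- upper bound of the right side
  have hsplit : ∑ x, r x * max 0 (Real.log (θ / r x)) =
      ∑ x ∈ DB, r x * max 0 (Real.log (θ / r x)) + ∑ x ∈ Y, r x * max 0 (Real.log (θ / r x)) := by
    rw [hY, add_comm, Finset.sum_sdiff (Finset.subset_univ DB)]
  have hYsum : ∑ x ∈ Y, r x * max 0 (Real.log (θ / r x)) ≤
      n * ((1 - β) * max 0 (θ - (β - p - δ))) := by
    have h3 : ∀ x ∈ Y, r x * max 0 (Real.log (θ / r x)) ≤ max 0 (θ - (β - p - δ)) := by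
      intro x hx
      refine (mul_max_log_le' (hr0 x) hθ0).trans ?_
      apply max_le_max (le_refl _)
      have h4 := hYdeg x hx
      have h5 : nd R C x ≤ r x := nd_mono R (Finset.subset_univ C) x
      linarith
    refine (Finset.sum_le_sum h3).trans (le_of_eq ?_)
    rw [Finset.sum_const, nsmul_eq_mul, ← hmsY, card_eq_ms Y]
    ring
  have hDsum : n * (M - u * β - c * p) ≤
      ∑ x ∈ DB, (lam * r x - r x * max 0 (Real.log (θ / r x))) := by
    have h3 : ∀ x ∈ C, r x - u ≤ lam * r x - r x * max 0 (Real.log (θ / r x)) := by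
      intro x hx
      have h4 : r x ≤ 1 - u := by
        have h5 := hC1 x hx
        have h6 := nB_eq hRB Finset.univ x
        rw [ms_univ] at h6
        have h7 : nd B C x ≤ nd B Finset.univ x := nd_mono B (Finset.subset_univ C) x
        have h8 : u ≤ δ := by rw [hδu]; nlinarith
        have h9 : r x + nd B Finset.univ x = 1 := h6
        linarith
      have h5 := line_low (q := (q : ℝ)) (lam := lam) (r := r x) (c := 0) hq0 (hr0 x) (le_refl _)
        (by
          rw [add_zero]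
          refine le_trans ?_ hl1
          exact mul_le_mul_of_nonneg_right h4 (by linarith))
      rw [sub_zero] at h5
      exact h5
    have h4 : ∀ x ∈ DB \ C, r x - u - c ≤ lam * r x - r x * max 0 (Real.log (θ / r x)) := by
      intro x _
      apply line_low hq0 (hr0 x) hc
      have h5 : r x * (1 - lam) ≤ 1 * (1 - lam) :=
        mul_le_mul_of_nonneg_right (hr1 x) (by linarith)
      linarith
    have h5 : ∑ x ∈ DB, (lam * r x - r x * max 0 (Real.log (θ / r x))) =
        ∑ x ∈ DB \ C, (lam * r x - r x * max 0 (Real.log (θ / r x))) +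
        ∑ x ∈ C, (lam * r x - r x * max 0 (Real.log (θ / r x))) := by
      rw [Finset.sum_sdiff hCD]
    rw [h5]
    have h6 := add_le_add (Finset.sum_le_sum h4) (Finset.sum_le_sum h3)
    refine le_trans (le_of_eq ?_) h6
    have h7 : ∑ x ∈ DB \ C, (r x - u - c) + ∑ x ∈ C, (r x - u) =
        (∑ x ∈ DB \ C, r x + ∑ x ∈ C, r x) - u * ((DB \ C).card + C.card : ℝ)
          - c * (DB \ C).card := by
      rw [Finset.sum_sub_distrib, Finset.sum_sub_distrib, Finset.sum_sub_distrib]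
      simp only [Finset.sum_const, nsmul_eq_mul]
      ring
    rw [h7, Finset.sum_sdiff hCD]
    have h8 : ∑ x ∈ DB, r x = n * M := sum_nd_eq R DB Finset.univ
    have h9 : ((DB \ C).card : ℝ) = n * p := card_eq_ms _
    have h10 : (C.card : ℝ) = n * ms C := card_eq_ms _
    rw [h8, h9, h10, hmsC]
    ring
  rw [Finset.sum_sub_distrib, ← Finset.mul_sum] at hDsum
  have h8 : ∑ x ∈ DB, r x = n * M := sum_nd_eq R DB Finset.univ
  rw [h8] at hDsum
  -- combine
  have hfin : n * (M - u * β - c * p) ≤ n * (2 * e + (1 - β) * max 0 (θ - (β - p - δ))) := by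
    have h3 : (lam - e) * (n * (M - e)) ≤
        ∑ x, r x * max 0 (Real.log (θ / r x)) := by
      have hS0 : 0 ≤ ∑ x ∈ Finset.univ \ DR, r x := Finset.sum_nonneg fun x _ => hr0 x
      rcases le_total 0 (lam - e) with hle | hle
      · calc (lam - e) * (n * (M - e)) ≤ (lam - e) * ∑ x ∈ Finset.univ \ DR, r x :=
              mul_le_mul_of_nonneg_left hsum1 hle
          _ ≤ (Real.log θ - Real.log δ) * ∑ x ∈ Finset.univ \ DR, r x :=
              mul_le_mul_of_nonneg_right hlog hS0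
          _ ≤ _ := hstar
      · -- then lam is tiny, which contradicts the hypotheses
        exfalso
        have h9 : 2 / 3 * (1 - lam) ≤ (1 - u) * (1 - lam) :=
          mul_le_mul_of_nonneg_right (by linarith) (by linarith)
        linarith
    rw [hsplit] at h3
    have h4 : lam * (n * M) - 2 * e * n ≤ (lam - e) * (n * (M - e)) := by
      have : (lam - e) * (n * (M - e)) = lam * (n * M) - e * n * (lam + M) + n * e ^ 2 := by ring
      rw [this]
      have h5 : e * n * (lam + M) ≤ e * n * 2 :=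
        mul_le_mul_of_nonneg_left (by linarith) (by positivity)
      have h6 : 0 ≤ n * e ^ 2 := by positivity
      linarith
    have h5 : n * (2 * e + (1 - β) * max 0 (θ - (β - p - δ))) =
      2 * e * n + n * ((1 - β) * max 0 (θ - (β - p - δ))) := by ring
    rw [h5]
    linarith
  have hfin2 := le_of_mul_le_mul_left hfin hn
  have hmax : (1 - β) * max 0 (θ - (β - p - δ)) ≤
      (1 - β) * max 0 (θ - β + p + u) + e * u * (1 - β) := by
    have h3 : max 0 (θ - (β - p - δ)) ≤ max 0 (θ - β + p + u) + e * u := by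
      have h4 : 0 ≤ e * u := by positivity
      apply max_le
      · have := le_max_left 0 (θ - β + p + u); linarith
      · have := le_max_right 0 (θ - β + p + u)
        rw [hδu]; linarith
    have h5 := mul_le_mul_of_nonneg_left h3 (show 0 ≤ 1 - β by linarith)
    linarith
  have herr1 : 2 * δ * p ≤ 2 * u * p + e * u := by
    rw [hδu]
    have t1 : e * u * p ≤ e * u * (1 / 9) := mul_le_mul_of_nonneg_left hp (by positivity)
    have t2 : 0 ≤ e * u := by positivity
    have t3 : 2 * ((1 + e) * u) * p = 2 * u * p + 2 * (e * u * p) := by ring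
    rw [t3]; linarith
  have herr2 : (1 - β) * δ ≤ (1 - β) * u + e * u := by
    rw [hδu]
    have t1 : e * u * (1 - β) ≤ e * u * 1 :=
      mul_le_mul_of_nonneg_left (by linarith) (by positivity)
    have t3 : (1 - β) * ((1 + e) * u) = (1 - β) * u + e * u * (1 - β) := by ring
    rw [t3]; linarith
  have herr3 : e * u * (1 - β) ≤ e * u := by
    have : e * u * (1 - β) ≤ e * u * 1 := mul_le_mul_of_nonneg_left (by linarith) (by positivity)
    linarith
  have herr4 : e * u ≤ e * (1 / 3) := mul_le_mul_of_nonneg_left hu1 he.le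
  have hb : 1 - (1 - β) = β := by ring
  rw [hb]
  have hexp : (1 - β) * (β - p - δ) = (1 - β) * (β - p) - (1 - β) * δ := by ring
  have hexp2 : (1 - β) * (β - p - u) = (1 - β) * (β - p) - (1 - β) * u := by ring
  rw [hexp] at hMlow
  rw [hexp2]
  have hsq : β ^ 2 = β * β := by ring
  rw [hsq]
  linarith

lemma far_case2' {q : ℕ} (hq : 3 ≤ q) {e : ℝ} (he : 0 < e) (he1 : e ≤ 1 / 10000)
    {R B : V → V → Prop} (hRB : ∀ x y, B x y ↔ ¬ R x y)
    {DR DB : Finset V} (hR : Half q e R DR) (hB : Half q e B DB)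
    (hI : ms (DR ∩ DB) ≤ e) (hn1 : 1 / (Fintype.card V : ℝ) ≤ e) (h2 : 6 / 7 ≤ ms DB) :
    1 - 60 * e ≤ ms DB ∧ 1 - 1 / (q : ℝ) - 130 * e ≤ ed B DB DB := by
  have hq' : (3 : ℝ) ≤ q := by exact_mod_cast hq
  have hq0 : (0 : ℝ) < q := by linarith
  have hb1 : ms DB ≤ 1 := ms_le_one _
  have h1 : 1 - 60 * e ≤ ms DB := by
    have hy0 : 0 ≤ 1 - ms DB := by linarith
    have hy1 : 1 - ms DB ≤ 1 / 7 := by linarith
    rcases Nat.eq_or_lt_of_le hq with h3 | h3
    · have hq3 : (q : ℝ) = 3 := by rw [← h3]; norm_num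
      obtain ⟨p, hp0, hp1, hp⟩ := far_case2 hq he he1 hRB hR hB hI hn1 h2 (1 / 2) (1 / 6)
        (by norm_num) (by norm_num) (by norm_num) (by rw [hq3]; norm_num)
        (by rw [hq3]; norm_num)
      rw [hq3] at hp
      have ht : max 0 (Real.exp (1 / 2) / 3 - ms DB + p + 1 / 3) ≤ 137 / 1000 := by
        apply max_le (by norm_num)
        have := exp_half_le
        linarith
      have key := num_T3 (1 - ms DB) p _ hy0 hy1 hp0 hp1 ht
      linarith
    · have hq4 : (4 : ℝ) ≤ q := by exact_mod_cast h3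
      obtain ⟨p, hp0, hp1, hp⟩ := far_case2 hq he he1 hRB hR hB hI hn1 h2 1 0
        (by norm_num) (by norm_num) (by norm_num) (by simp)
        (by simp)
      have hu1 : 1 / (q : ℝ) ≤ 1 / 4 := one_div_le_one_div_of_le (by norm_num) hq4
      have hu0 : 0 ≤ 1 / (q : ℝ) := by positivity
      have ht : max 0 (Real.exp 1 / q - ms DB + p + 1 / q) ≤ 184 / 1000 := by
        apply max_le (by norm_num)
        have h4 := Real.exp_one_lt_d9
        have h5 : Real.exp 1 / q ≤ 2.7182818286 * (1 / 4) := by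
          rw [div_eq_mul_one_div]
          exact mul_le_mul h4.le hu1 hu0 (by norm_num)
        have h6 : (2.7182818286 : ℝ) * (1 / 4) ≤ 0.67957046 := by norm_num
        have h7 : Real.exp 1 / q ≤ 0.67957046 := h5.trans h6
        have h8 : (0.67957046 : ℝ) - 6 / 7 + 1 / 9 + 1 / 4 ≤ 184 / 1000 := by norm_num
        linarith
      have key := num_T4 (1 / q) (1 - ms DB) p _ hu0 hu1 hy0 hy1 hp0 hp1 ht
      linarith
  refine ⟨h1, ?_⟩
  have h3 := ed_R_DB hq he.le hR hI
  have h4 := eB_eq hRB DB DB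
  have h5 : ed B DB DB = ms DB * ms DB - ed R DB DB := by linarith
  rw [h5]
  have h6 : ms DB / q = ms DB * (1 / q) := by ring
  rw [h6] at h3
  have hu1 : 1 / (q : ℝ) ≤ 1 / 3 := one_div_le_one_div_of_le (by norm_num) hq'
  have hu0 : 0 ≤ 1 / (q : ℝ) := by positivity
  nlinarith

/-- The far analysis: one of the colours is nearly extremal. -/
lemma far_abs {q : ℕ} (hq : 3 ≤ q) {e : ℝ} (he : 0 < e) (he1 : e ≤ 1 / 10000)
    {R B : V → V → Prop} (hRB : ∀ x y, B x y ↔ ¬ R x y)
    {DR DB : Finset V} (hR : Half q e R DR) (hB : Half q e B DB)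
    (hI : ms (DR ∩ DB) ≤ e) (hn1 : 1 / (Fintype.card V : ℝ) ≤ e) :
    (1 - 60 * e ≤ ms DB ∧ 1 - 1 / (q : ℝ) - 130 * e ≤ ed B DB DB) ∨
    (1 - 60 * e ≤ ms DR ∧ 1 - 1 / (q : ℝ) - 130 * e ≤ ed R DR DR) := by
  rcases le_total (6 / 7) (ms DB) with h | h
  · left; exact far_case2' hq he he1 hRB hR hB hI hn1 h
  · rcases le_total (6 / 7) (ms DR) with h' | h'
    · right
      have hRB' : ∀ x y, R x y ↔ ¬ B x y := fun x y => by rw [hRB x y, not_not]
      rw [Finset.inter_comm] at hI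
      exact far_case2' hq he he1 hRB' hB hR hI hn1 h'
    · exact (far_case1 hq he he1 hRB hR hB hI h' h).elim

/-! ### Producing the abstract situation from tree densities -/

lemma low_of_trees {q : ℕ} (hq : 3 ≤ q) {e : ℝ} (he : 0 < e)
    {R : V → V → Prop} (hR : ∀ x y, R x y → R y x) {k : ℕ} (T : Fin k → RT)
    (hN : 0 < ∑ s, (T s).sz) (S : Finset V)
    (hS : ∀ x ∈ S, ∏ s, hh (ker R) (T s) x < ((1 + e) / q) ^ (∑ s, (T s).sz)) :
    ed R S S ≤ (1 + e) / q * ms S := by
  have hq' : (3 : ℝ) ≤ q := by exact_mod_cast hq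
  have hq0 : (0 : ℝ) < q := by linarith
  have hn : (0 : ℝ) < (Fintype.card V : ℝ) := card_pos'
  set δ : ℝ := (1 + e) / q with hδ
  have hδ0 : 0 < δ := by positivity
  set R' : V → V → Prop := fun x y => R x y ∧ x ∈ S ∧ y ∈ S with hR'
  have hR's : ∀ x y, R' x y → R' y x := fun x y h => ⟨hR x y h.1, h.2.2, h.2.1⟩
  have hKle : ∀ x y, ker R' x y ≤ ker R x y := by
    intro x y
    unfold ker
    by_cases h : R' x y
    · rw [if_pos h, if_pos h.1]
    · rw [if_neg h]; split_ifs <;> positivity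
  have hX : ∀ x ∈ S, ∏ s, hh (ker R') (T s) x < δ ^ (∑ s, (T s).sz) := by
    intro x hx
    refine lt_of_le_of_lt ?_ (hS x hx)
    exact Finset.prod_le_prod (fun s _ => hh_nonneg (ker_nonneg R') _ _)
      fun s _ => hh_mono (ker_nonneg R') hKle _ _
  have h1 := star (ker_nonneg R') (ker_symm hR's) T hN hδ0 one_pos S hX
  have hdgS : ∀ x ∈ S, dg (ker R') x = nd R S x := by
    intro x hx
    rw [nd_eq_sum]
    unfold dg
    rw [← Finset.sum_subset (Finset.subset_univ S)]
    · apply Finset.sum_congr rfl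
      intro y hy
      unfold ker
      by_cases h : R x y
      · rw [if_pos h, if_pos ⟨h, hx, hy⟩]
      · rw [if_neg h, if_neg (fun h' => h h'.1)]
    · intro y _ hy
      unfold ker
      rw [if_neg (fun h' => hy h'.2.2)]
  have hdgN : ∀ x, x ∉ S → dg (ker R') x = 0 := by
    intro x hx
    unfold dg
    apply Finset.sum_eq_zero
    intro y _
    unfold ker
    rw [if_neg (fun h' => hx h'.2.1)]
  have h2 : Lam (ker R') 1 = ∑ x ∈ S, nd R S x * max 0 (Real.log (1 / nd R S x)) := by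
    unfold Lam
    rw [← Finset.sum_subset (Finset.subset_univ S)]
    · exact Finset.sum_congr rfl fun x hx => by rw [hdgS x hx]
    · intro x _ hx
      rw [hdgN x hx, zero_mul]
  rw [h2, Finset.sum_congr rfl hdgS, Real.log_one, Finset.mul_sum] at h1
  have h3 : ∀ x ∈ S, nd R S x - δ ≤
      (0 - Real.log δ) * nd R S x - nd R S x * max 0 (Real.log (1 / nd R S x)) := by
    intro x _
    set r := nd R S x with hr
    have hr0 : 0 ≤ r := nd_nonneg _ _ _
    have hr1 : r ≤ 1 := (nd_le_ms _ _ _).trans (ms_le_one _)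
    rcases hr0.eq_or_lt with h | h
    · rw [← h]; simp; exact hδ0.le
    · have h4 : 0 ≤ Real.log (1 / r) := by
        apply Real.log_nonneg
        rw [le_div_iff₀ h]; linarith
      rw [max_eq_right h4, Real.log_div one_ne_zero h.ne', Real.log_one]
      have h5 := Real.one_sub_inv_le_log_of_pos (show 0 < r / δ by positivity)
      rw [Real.log_div h.ne' hδ0.ne', inv_div] at h5
      have h6 := mul_le_mul_of_nonneg_left h5 hr0
      have h7 : r * (1 - δ / r) = r - δ := by field_simp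
      rw [h7] at h6
      linarith
  have h4 := Finset.sum_le_sum h3
  rw [Finset.sum_sub_distrib, Finset.sum_sub_distrib] at h4
  have h5 : ∑ x ∈ S, nd R S x ≤ ∑ _x ∈ S, δ := by linarith
  rw [sum_nd_eq, Finset.sum_const, nsmul_eq_mul, card_eq_ms S] at h5
  have h6 : (Fintype.card V : ℝ) * ed R S S ≤ (Fintype.card V : ℝ) * (δ * ms S) := by
    linarith
  exact le_of_mul_le_mul_left h6 hn

lemma half_of_trees {q : ℕ} (hq : 3 ≤ q) {e : ℝ} (he : 0 < e)
    {R : V → V → Prop} (hR : ∀ x y, R x y → R y x) {k : ℕ} (T : Fin k → RT)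
    (hN : 0 < ∑ s, (T s).sz)
    (DR : Finset V)
    (hDR : DR = Finset.univ.filter
      (fun x => ((1 + e) / q) ^ (∑ s, (T s).sz) ≤ ∏ s, hh (ker R) (T s) x))
    (hturan : ∀ D' : Finset V, D' ⊆ DR → ed R D' D' ≤ (1 - 1 / (q : ℝ)) * ms D' ^ 2 + e) :
    Half q e R DR := by
  have hq' : (3 : ℝ) ≤ q := by exact_mod_cast hq
  have hq0 : (0 : ℝ) < q := by linarith
  have hδ0 : 0 < (1 + e) / q := by positivity
  refine ⟨hR, hturan, ?_, ?_, ?_⟩
  · intro θ hθ
    have h1 := star (ker_nonneg R) (ker_symm hR) T hN hδ0 hθ (Finset.univ \ DR) (by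
      intro x hx
      rw [Finset.mem_sdiff, hDR, Finset.mem_filter] at hx
      by_contra hcon
      push Not at hcon
      exact hx.2 ⟨Finset.mem_univ _, hcon⟩)
    unfold Lam at h1
    simp only [dg_ker] at h1
    exact h1
  · intro S hS
    apply low_of_trees hq he hR T hN S
    intro x hx
    by_contra hcon
    push Not at hcon
    have : x ∈ DR := by
      rw [hDR, Finset.mem_filter]; exact ⟨Finset.mem_univ _, hcon⟩
    exact (Finset.disjoint_left.mp hS) hx this
  · intro C hC x hx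
    rw [hDR, Finset.mem_filter]
    refine ⟨Finset.mem_univ _, ?_⟩
    rw [← Finset.prod_pow_eq_pow_sum]
    exact Finset.prod_le_prod (fun s _ => by positivity)
      fun s _ => hh_ge_closed R hδ0.le C hC (T s) x hx

end sit

/-- **Far case.** -/
theorem far_main (q : ℕ) (hq : 3 ≤ q) (e : ℝ) (he : 0 < e) (he1 : e ≤ 1 / 10000) :
    ∃ N₁ n₁ : ℕ, ∀ (V : Type) [Fintype V] [Nonempty V] (R B : V → V → Prop),
      (∀ x y, B x y ↔ ¬ R x y) → (∀ x y, R x y → R y x) → (∀ x y, B x y → B y x) →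
      n₁ ≤ Fintype.card V → ∀ T : Fin (q + 1) → RT, N₁ ≤ ∑ s, (T s).sz →
      td R T + td B T < (1 / (q : ℝ)) ^ (q + ∑ s, (T s).sz) →
      (∃ D : Finset V, cl B (q + 1) D ≤ e ∧ 1 - 60 * e ≤ ms D ∧
          1 - 1 / (q : ℝ) - 130 * e ≤ ed B D D) ∨
      (∃ D : Finset V, cl R (q + 1) D ≤ e ∧ 1 - 60 * e ≤ ms D ∧
          1 - 1 / (q : ℝ) - 130 * e ≤ ed R D D) := by
  have hq' : (3 : ℝ) ≤ q := by exact_mod_cast hq
  have hq0 : (0 : ℝ) < q := by linarith
  obtain ⟨κ₁, hκ₁, hT⟩ := turan_density (q - 1) e he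
  obtain ⟨κ₂, hκ₂, _, hRam⟩ := ramsey_density ((q + 1) + (q + 1)) (q + 1) (q + 1) (le_refl _) e he
  set κ := min (min κ₁ (κ₂ / 2)) e with hκ
  have hκ0 : 0 < κ := lt_min (lt_min hκ₁ (by linarith)) he
  have hκa : κ ≤ κ₁ := (min_le_left _ _).trans (min_le_left _ _)
  have hκb : κ ≤ κ₂ / 2 := (min_le_left _ _).trans (min_le_right _ _)
  have hκc : κ ≤ e := min_le_right _ _
  refine ⟨⌈1 / (κ * e)⌉₊ + 1, ⌈1 / e⌉₊, ?_⟩
  intro V _ _ R B hRB hR hB hcard T hN htd
  have hn : (0 : ℝ) < (Fintype.card V : ℝ) := card_pos'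
  set N := ∑ s, (T s).sz with hNdef
  have hN0 : 0 < N := by omega
  have hn1 : 1 / (Fintype.card V : ℝ) ≤ e := by
    rw [div_le_iff₀ hn]
    have h1 : 1 / e ≤ (Fintype.card V : ℝ) := (Nat.le_ceil _).trans (by exact_mod_cast hcard)
    rw [div_le_iff₀ he] at h1
    linarith
  set δ : ℝ := (1 + e) / q with hδ
  have hδ0 : 0 < δ := by positivity
  -- clique densities are tiny
  have hsmall : ∀ (R₀ : V → V → Prop), (∀ x y, R₀ x y → R₀ y x) →
      td R₀ T < (1 / (q : ℝ)) ^ (q + N) → ∀ D : Finset V,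
      D = Finset.univ.filter (fun x => δ ^ N ≤ ∏ s, hh (ker R₀) (T s) x) →
      cl R₀ (q + 1) D ≤ κ := by
    intro R₀ hR₀ htd₀ D hD
    have h1 := glue hR₀ T (l := δ ^ N) (by positivity) D (by
      intro x hx
      rw [hD, Finset.mem_filter] at hx
      exact hx.2)
    have h2 : δ ^ N * cl R₀ (q + 1) D < (1 / (q : ℝ)) ^ (q + N) := lt_of_le_of_lt h1 htd₀
    have h3 : δ ^ N = (1 + e) ^ N * (1 / (q : ℝ)) ^ N := by
      rw [hδ, ← mul_pow]; congr 1; ring
    rw [h3, pow_add] at h2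
    have h4 : (1 / (q : ℝ)) ^ q ≤ 1 := pow_le_one₀ (by positivity) (by
      rw [div_le_one hq0]; linarith)
    have h5 : (1 + e) ^ N * cl R₀ (q + 1) D * (1 / (q : ℝ)) ^ N < 1 * (1 / (q : ℝ)) ^ N := by
      calc (1 + e) ^ N * cl R₀ (q + 1) D * (1 / (q : ℝ)) ^ N
          = (1 + e) ^ N * (1 / (q : ℝ)) ^ N * cl R₀ (q + 1) D := by ring
        _ < (1 / (q : ℝ)) ^ q * (1 / (q : ℝ)) ^ N := h2
        _ ≤ 1 * (1 / (q : ℝ)) ^ N := mul_le_mul_of_nonneg_right h4 (by positivity)
    have h6 : (1 + e) ^ N * cl R₀ (q + 1) D < 1 := lt_of_mul_lt_mul_right h5 (by positivity)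
    have h7 : 1 / κ ≤ (1 + e) ^ N := by
      have h8 : (1 : ℝ) + N * e ≤ (1 + e) ^ N := one_add_mul_le_pow (by linarith) N
      have h9 : 1 / (κ * e) ≤ (N : ℝ) := by
        refine (Nat.le_ceil _).trans ?_
        exact_mod_cast (by omega : ⌈1 / (κ * e)⌉₊ ≤ N)
      have h10 : 1 / κ ≤ N * e := by
        rw [div_le_iff₀ (by positivity)] at h9
        rw [div_le_iff₀ hκ0]
        linarith
      linarith
    have h11 : 1 / κ * cl R₀ (q + 1) D ≤ 1 :=
      (mul_le_mul_of_nonneg_right h7 (cl_nonneg _ _ _)).trans h6.le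
    rw [one_div, ← div_eq_inv_mul, div_le_one hκ0] at h11
    exact h11
  set DR : Finset V := Finset.univ.filter (fun x => δ ^ N ≤ ∏ s, hh (ker R) (T s) x) with hDR
  set DB : Finset V := Finset.univ.filter (fun x => δ ^ N ≤ ∏ s, hh (ker B) (T s) x) with hDB
  have htdR : td R T < (1 / (q : ℝ)) ^ (q + N) := by
    have := td_nonneg B T; linarith
  have htdB : td B T < (1 / (q : ℝ)) ^ (q + N) := by
    have := td_nonneg R T; linarith
  have hclR := hsmall R hR htdR DR hDR
  have hclB := hsmall B hB htdB DB hDB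
  have hTur : ∀ (R₀ : V → V → Prop), (∀ x y, R₀ x y → R₀ y x) → ∀ D : Finset V,
      cl R₀ (q + 1) D ≤ κ → ∀ D' : Finset V, D' ⊆ D →
      ed R₀ D' D' ≤ (1 - 1 / (q : ℝ)) * ms D' ^ 2 + e := by
    intro R₀ hR₀ D hD D' hD'
    have h1 : q - 1 + 2 = q + 1 := by omega
    have h2 : ((q - 1 : ℕ) : ℝ) + 1 = q := by
      rw [Nat.cast_sub (by omega)]; push_cast; ring
    have h3 := hT V R₀ hR₀ D' (by
      rw [h1]
      exact (cl_mono R₀ (q + 1) D' D hD').trans (hD.trans hκa))
    rw [h2] at h3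
    exact h3
  have hHR : Half q e R DR := half_of_trees hq he hR T hN0 DR hDR (hTur R hR DR hclR)
  have hHB : Half q e B DB := half_of_trees hq he hB T hN0 DB hDB (hTur B hB DB hclB)
  have hI : ms (DR ∩ DB) ≤ e := by
    by_contra hcon
    push Not at hcon
    have hB' : B = fun x y => ¬ R x y := by
      funext x y; exact propext (hRB x y)
    rcases hRam V R (DR ∩ DB) hcon.le with h | h
    · have h1 := cl_mono R (q + 1) (DR ∩ DB) DR Finset.inter_subset_left
      linarith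
    · have h1 := cl_mono B (q + 1) (DR ∩ DB) DB Finset.inter_subset_right
      rw [← hB'] at h
      linarith
  rcases far_abs hq he he1 hRB hHR hHB hI hn1 with h | h
  · left
    exact ⟨DB, hclB.trans hκc, h.1, h.2⟩
  · right
    exact ⟨DR, hclR.trans hκc, h.1, h.2⟩

end Pool.Agent.Lib.MP_6505eb_co
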