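import Mathlib
import Pool.Agent.Lib.MP_6505eb_co.Far

set_option autoImplicit false

namespace Pool.Agent.Lib.MP_6505eb_co

open Classical

section near

variable {V : Type} [Fintype V]

lemma nd_union_le (X : V → V → Prop) (S S' : Finset V) (x : V) :
    nd X (S ∪ S') x ≤ nd X S x + nd X S' x := by
  have h : S ∪ S' = S ∪ (S' \ S) := by
    ext y; simp only [Finset.mem_union, Finset.mem_sdiff]; tauto
  rw [h, nd_union_disj X Finset.disjoint_sdiff]
  have := nd_mono X (Finset.sdiff_subset : S' \ S ⊆ S') x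
  linarith

variable [Nonempty V]

lemma nd_le_of_subset_union (X : V → V → Prop) {S S' E : Finset V} (h : S ⊆ S' ∪ E) (x : V) :
    nd X S x ≤ nd X S' x + ms E :=
  (nd_mono X h x).trans ((nd_union_le X S' E x).trans (by
    have := nd_le_ms X E x; linarith))

lemma ms_le_of_subset_union {S S' E : Finset V} (h : S ⊆ S' ∪ E) :
    ms S ≤ ms S' + ms E := (ms_mono h).trans (ms_union_le S' E)

lemma ind_sum_eq (B : V → V → Prop) (S S' : Finset V) :
    ∑ x ∈ S, ∑ y ∈ S', (if B x y then (1 : ℝ) else 0) = (Fintype.card V : ℝ) ^ 2 * ed B S S' := by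
  have hn : (0 : ℝ) < (Fintype.card V : ℝ) := card_pos'
  rw [ed_eq]; field_simp

/-- The approximate structure of a colouring close to the Turan colouring. -/
structure Str (q : ℕ) (γ τ : ℝ) (R B : V → V → Prop) (P : Fin q → Finset V) : Prop where
  disj : ∀ i j, i ≠ j → Disjoint (P i) (P j)
  size_lo : ∀ i, 1 / (q : ℝ) - τ ≤ ms (P i)
  size_hi : ∀ i, ms (P i) ≤ 1 / (q : ℝ) + τ
  own : ∀ i, ∀ x ∈ P i, nd B (P i) x ≤ 2 * γ
  cross : ∀ i j, i ≠ j → ∀ x ∈ P i, nd R (P j) x ≤ 2 * γ
  total : 1 - τ ≤ ms (Finset.univ.biUnion P)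
  ecross : ∀ i j, i ≠ j → ed R (P i) (P j) ≤ τ
  rest : ∀ x, x ∉ Finset.univ.biUnion P →
    nd R (Finset.univ.biUnion P) x < 1 / (q : ℝ) + γ / 4 → ∀ i, γ / 4 ≤ nd B (P i) x

lemma nd_biUnion (X : V → V → Prop) {q : ℕ} (P : Fin q → Finset V)
    (hd : ∀ i j, i ≠ j → Disjoint (P i) (P j)) (x : V) :
    nd X (Finset.univ.biUnion P) x = ∑ i, nd X (P i) x := by
  rw [nd_eq_sum, Finset.sum_biUnion (fun i _ j _ hij => hd i j hij)]
  exact Finset.sum_congr rfl fun i _ => (nd_eq_sum X (P i) x).symm

lemma ms_biUnion {q : ℕ} (P : Fin q → Finset V)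
    (hd : ∀ i j, i ≠ j → Disjoint (P i) (P j)) :
    ms (Finset.univ.biUnion P) = ∑ i, ms (P i) := by
  unfold ms
  rw [Finset.card_biUnion (fun i _ j _ hij => hd i j hij), ← Finset.sum_div]
  push_cast; rfl

set_option maxHeartbeats 1000000 in
theorem struct_of_good {q : ℕ} (hq : 3 ≤ q) {γ τ ε : ℝ} (hγ : 0 < γ) (hγ1 : γ ≤ 1 / (4 * q))
    (hτ : 0 < τ) (hτ1 : τ ≤ γ / 4) (hε : 0 < ε) (hε1 : ε ≤ γ * τ / 36) (hε2 : ε ≤ τ ^ 2 / 12)
    {R B : V → V → Prop} (hRB : ∀ x y, B x y ↔ ¬ R x y)
    (D : Finset V) (hD : 1 - ε ≤ ms D) (hBD : 1 - 1 / (q : ℝ) - ε ≤ ed B D D)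
    (c : V → ℕ) (hc : ∀ x, c x < q)
    (hsum : ∑ x ∈ D, ∑ y ∈ D, ((if B x y then (1 : ℝ) else 0) +
            (if B x y ∧ c x = c y then (1 : ℝ) else 0) - (if c x = c y then (0 : ℝ) else 1))
            ≤ ε * (Fintype.card V : ℝ) ^ 2) :
    ∃ P : Fin q → Finset V, Str q γ τ R B P := by
  have hq' : (3 : ℝ) ≤ q := by exact_mod_cast hq
  have hq0 : (0 : ℝ) < q := by linarith
  have hn : (0 : ℝ) < (Fintype.card V : ℝ) := card_pos'
  set n : ℝ := (Fintype.card V : ℝ) with hndef
  set u : ℝ := 1 / (q : ℝ) with hu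
  have hu0 : 0 < u := by positivity
  have hu1 : u ≤ 1 / 3 := by
    rw [hu]; exact one_div_le_one_div_of_le (by norm_num) hq'
  have hγu : γ ≤ u / 4 := by
    have : 1 / (4 * (q : ℝ)) = u / 4 := by rw [hu]; field_simp
    rw [← this]; exact hγ1
  set c' : V → Fin q := fun x => ⟨c x, hc x⟩ with hc'
  have hcc : ∀ x y, c x = c y ↔ c' x = c' y := by
    intro x y; simp [hc']
  set U : Fin q → Finset V := fun i => D.filter (fun x => c' x = i) with hU
  set β := ms D with hβ
  have hβ1 : β ≤ 1 := ms_le_one _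
  have hβ0 : 0 ≤ β := ms_nonneg _
  have hfib : ∀ f : V → ℝ, ∑ x ∈ D, f x = ∑ i, ∑ x ∈ U i, f x := by
    intro f; rw [hU]; exact (Finset.sum_fiberwise D c' f).symm
  have hUD : ∀ i, U i ⊆ D := fun i => Finset.filter_subset _ _
  have hUc : ∀ i, ∀ x ∈ U i, c' x = i := fun i x hx => (Finset.mem_filter.mp hx).2
  -- masses
  have hm : ∑ i, ms (U i) = β := by
    rw [hβ]; unfold ms
    rw [← Finset.sum_div]
    congr 1
    have := hfib (fun _ => (1 : ℝ))
    simp only [Finset.sum_const, nsmul_eq_mul, mul_one] at this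
    rw [this]
  have hD2 : D.card = (D.card : ℝ) := rfl
  -- the three double sums
  have e1 : ∑ x ∈ D, ∑ y ∈ D, (if B x y then (1 : ℝ) else 0) = n ^ 2 * ed B D D :=
    ind_sum_eq B D D
  have e2 : ∑ x ∈ D, ∑ y ∈ D, (if B x y ∧ c x = c y then (1 : ℝ) else 0) =
      n ^ 2 * ∑ i, ed B (U i) (U i) := by
    rw [hfib, Finset.mul_sum]
    apply Finset.sum_congr rfl
    intro i _
    rw [← ind_sum_eq B (U i) (U i)]
    apply Finset.sum_congr rfl
    intro x hx
    rw [hU]
    simp only
    rw [Finset.sum_filter]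
    apply Finset.sum_congr rfl
    intro y _
    have hx' := hUc i x hx
    by_cases h1 : c' y = i
    · have h2 : c x = c y := by rw [hcc, hx', h1]
      rw [if_pos h1]
      simp [h2]
    · have h2 : ¬ (c x = c y) := by rw [hcc, hx']; exact fun h => h1 h.symm
      rw [if_neg h1]
      simp [h2]
  have e3 : ∑ x ∈ D, ∑ y ∈ D, (if c x = c y then (0 : ℝ) else 1) =
      n ^ 2 * (β ^ 2 - ∑ i, ms (U i) ^ 2) := by
    have h1 : ∑ x ∈ D, ∑ y ∈ D, (if c x = c y then (0 : ℝ) else 1) =
        ∑ x ∈ D, ∑ y ∈ D, (1 : ℝ) - ∑ x ∈ D, ∑ y ∈ D, (if c x = c y then (1 : ℝ) else 0) := by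
      rw [← Finset.sum_sub_distrib]
      apply Finset.sum_congr rfl; intro x _
      rw [← Finset.sum_sub_distrib]
      apply Finset.sum_congr rfl; intro y _
      split_ifs <;> norm_num
    have h2 : ∑ x ∈ D, ∑ y ∈ D, (1 : ℝ) = n ^ 2 * β ^ 2 := by
      simp only [Finset.sum_const, nsmul_eq_mul, mul_one]
      rw [card_eq_ms D]; ring
    have h3 : ∑ x ∈ D, ∑ y ∈ D, (if c x = c y then (1 : ℝ) else 0) =
        n ^ 2 * ∑ i, ms (U i) ^ 2 := by
      rw [hfib, Finset.mul_sum]
      apply Finset.sum_congr rfl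
      intro i _
      have h4 : ∀ x ∈ U i, ∑ y ∈ D, (if c x = c y then (1 : ℝ) else 0) = (U i).card := by
        intro x hx
        have hx' := hUc i x hx
        rw [hU]
        simp only
        rw [Finset.card_filter]
        push_cast
        apply Finset.sum_congr rfl
        intro y _
        by_cases h1 : c' y = i
        · have h2 : c x = c y := by rw [hcc, hx', h1]
          rw [if_pos h1, if_pos h2]
        · have h2 : ¬ (c x = c y) := by rw [hcc, hx']; exact fun h => h1 h.symm
          rw [if_neg h1, if_neg h2]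
      rw [Finset.sum_congr rfl h4, Finset.sum_const, nsmul_eq_mul, card_eq_ms (U i)]
      ring
    rw [h1, h2, h3]; ring
  have hmain : ed B D D + ∑ i, ed B (U i) (U i) - (β ^ 2 - ∑ i, ms (U i) ^ 2) ≤ ε := by
    have h1 : ∑ x ∈ D, ∑ y ∈ D, ((if B x y then (1 : ℝ) else 0) +
            (if B x y ∧ c x = c y then (1 : ℝ) else 0) - (if c x = c y then (0 : ℝ) else 1)) =
        n ^ 2 * (ed B D D + ∑ i, ed B (U i) (U i) - (β ^ 2 - ∑ i, ms (U i) ^ 2)) := by
      simp only [Finset.sum_add_distrib, Finset.sum_sub_distrib]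
      rw [e1, e2, e3]; ring
    rw [h1, mul_comm] at hsum
    exact le_of_mul_le_mul_right hsum (by positivity)
  -- sum of squares lower bound
  have hsq : β ^ 2 * u ≤ ∑ i, ms (U i) ^ 2 := by
    have h1 := sq_sum_le_card_mul_sum_sq (s := (Finset.univ : Finset (Fin q)))
      (f := fun i => ms (U i))
    rw [hm, Finset.card_univ, Fintype.card_fin] at h1
    rw [hu, mul_one_div, div_le_iff₀ hq0]
    linarith
  have hβsq : 1 - 2 * ε ≤ β ^ 2 := by nlinarith
  have hβsq1 : β ^ 2 ≤ 1 := by nlinarith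
  have hBin0 : 0 ≤ ∑ i, ed B (U i) (U i) := Finset.sum_nonneg fun i _ => ed_nonneg _ _ _
  have hsq2 : (1 - 2 * ε) * u ≤ ∑ i, ms (U i) ^ 2 :=
    (mul_le_mul_of_nonneg_right hβsq hu0.le).trans hsq
  have huε : u * ε ≤ ε / 3 := by nlinarith
  have hBin : ∑ i, ed B (U i) (U i) ≤ 3 * ε := by linarith
  -- total red between different parts
  have hred : ∑ i, ∑ j ∈ Finset.univ.erase i, ed R (U i) (U j) ≤ 5 * ε := by
    have h1 : ed R D D = ∑ i, ∑ j, ed R (U i) (U j) := by
      unfold ed
      rw [hfib, Finset.sum_div]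
      apply Finset.sum_congr rfl
      intro i _
      rw [← Finset.sum_div, Finset.sum_comm]
      congr 1
      apply Finset.sum_congr rfl
      intro x _
      rw [nd_eq_sum, hfib]
      apply Finset.sum_congr rfl
      intro j _
      rw [nd_eq_sum]
    have h2 : ∀ i, ∑ j, ed R (U i) (U j) = ed R (U i) (U i) +
        ∑ j ∈ Finset.univ.erase i, ed R (U i) (U j) := by
      intro i
      exact (Finset.add_sum_erase _ _ (Finset.mem_univ i)).symm
    rw [Finset.sum_congr rfl fun i _ => h2 i, Finset.sum_add_distrib] at h1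
    have h3 := eB_eq hRB D D
    have h4 : ∑ i, ed R (U i) (U i) = ∑ i, ms (U i) ^ 2 - ∑ i, ed B (U i) (U i) := by
      rw [← Finset.sum_sub_distrib]
      apply Finset.sum_congr rfl
      intro i _
      have := eB_eq hRB (U i) (U i)
      rw [pow_two]; linarith
    have h5 : β * β = β ^ 2 := by ring
    rw [h5] at h3
    linarith
  have hdev : ∀ i, (ms (U i) - u) ^ 2 ≤ 3 * ε := by
    intro i
    have h1 : (ms (U i) - u) ^ 2 ≤ ∑ j, (ms (U j) - u) ^ 2 :=
      Finset.single_le_sum (f := fun j => (ms (U j) - u) ^ 2) (fun j _ => sq_nonneg _)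
        (Finset.mem_univ i)
    have h2 : ∑ j, (ms (U j) - u) ^ 2 = ∑ j, ms (U j) ^ 2 - 2 * u * β + u := by
      have h3 : ∀ j : Fin q, (ms (U j) - u) ^ 2 = ms (U j) ^ 2 - 2 * u * ms (U j) + u * u := by
        intro j; ring
      rw [Finset.sum_congr rfl fun j _ => h3 j, Finset.sum_add_distrib, Finset.sum_sub_distrib,
        ← Finset.mul_sum, hm, Finset.sum_const, Finset.card_univ, Fintype.card_fin, nsmul_eq_mul]
      have : (q : ℝ) * (u * u) = u := by rw [hu]; field_simp
      rw [this]
    have h4 : (1 - ε) * (2 * u) ≤ β * (2 * u) := mul_le_mul_of_nonneg_right hD (by positivity)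
    linarith
  have hdev1 : ∀ i, u - τ / 2 ≤ ms (U i) ∧ ms (U i) ≤ u + τ / 2 := by
    intro i
    have h1 : (ms (U i) - u) ^ 2 ≤ (τ / 2) ^ 2 := by
      refine (hdev i).trans ?_
      have : (τ / 2) ^ 2 = 3 * (τ ^ 2 / 12) := by ring
      rw [this]; linarith
    have h2 := abs_le_of_sq_le_sq h1 (by positivity)
    rw [abs_le] at h2
    constructor <;> linarith [h2.1, h2.2]
  -- the typical sets
  set P : Fin q → Finset V := fun i => Finset.univ.filter
    (fun x => nd B (U i) x ≤ γ ∧ ∀ j, j ≠ i → nd R (U j) x ≤ γ) with hP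
  have hPmem : ∀ i x, x ∈ P i ↔ (nd B (U i) x ≤ γ ∧ ∀ j, j ≠ i → nd R (U j) x ≤ γ) := by
    intro i x; rw [hP]; simp
  have hPdisj : ∀ i j, i ≠ j → Disjoint (P i) (P j) := by
    intro i j hij
    rw [Finset.disjoint_left]
    intro x hx hx'
    rw [hPmem] at hx hx'
    have h1 := hx.1
    have h2 := hx'.2 i hij
    have h3 := nB_eq hRB (U i) x
    have h4 := (hdev1 i).1
    linarith
  -- the exceptional set
  set E : Finset V := (Finset.univ \ D) ∪ Finset.univ.biUnion (fun i => U i \ P i) with hE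
  have hmsE : ms E ≤ 9 * ε / γ := by
    have h1 : ms (Finset.univ \ D) ≤ ε := by
      have := ms_sdiff (Finset.subset_univ D)
      rw [ms_univ] at this
      linarith
    have h2 : ms (Finset.univ.biUnion (fun i => U i \ P i)) ≤ ∑ i, ms (U i \ P i) := by
      unfold ms
      rw [← Finset.sum_div]
      apply div_le_div_of_nonneg_right _ hn.le
      exact_mod_cast Finset.card_biUnion_le
    have h3 : γ * ∑ i, ms (U i \ P i) ≤ 8 * ε := by
      have h4 : ∀ i, γ * ms (U i \ P i) ≤ ed B (U i) (U i) +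
          ∑ j ∈ Finset.univ.erase i, ed R (U i) (U j) := by
        intro i
        have h5 : ∀ x ∈ U i \ P i, γ ≤ nd B (U i) x +
            ∑ j ∈ Finset.univ.erase i, nd R (U j) x := by
          intro x hx
          rw [Finset.mem_sdiff, hPmem] at hx
          by_cases h6 : nd B (U i) x ≤ γ
          · have h7 : ∃ j, j ≠ i ∧ γ < nd R (U j) x := by
              by_contra hcon
              push Not at hcon
              exact hx.2 ⟨h6, hcon⟩
            obtain ⟨j, hj, hj'⟩ := h7
            have h8 : nd R (U j) x ≤ ∑ j ∈ Finset.univ.erase i, nd R (U j) x :=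
              Finset.single_le_sum (f := fun j => nd R (U j) x) (fun j _ => nd_nonneg _ _ _)
                (Finset.mem_erase.mpr ⟨hj, Finset.mem_univ _⟩)
            have h9 := nd_nonneg B (U i) x
            linarith
          · push Not at h6
            have h8 : 0 ≤ ∑ j ∈ Finset.univ.erase i, nd R (U j) x :=
              Finset.sum_nonneg fun j _ => nd_nonneg _ _ _
            linarith
        have h6 : n * (γ * ms (U i \ P i)) ≤ n * (ed B (U i) (U i) +
          ∑ j ∈ Finset.univ.erase i, ed R (U i) (U j)) := by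
          calc n * (γ * ms (U i \ P i)) = ∑ _x ∈ U i \ P i, γ := by
                rw [Finset.sum_const, nsmul_eq_mul, card_eq_ms (U i \ P i)]; ring
            _ ≤ ∑ x ∈ U i \ P i, (nd B (U i) x + ∑ j ∈ Finset.univ.erase i, nd R (U j) x) :=
                Finset.sum_le_sum h5
            _ ≤ ∑ x ∈ U i, (nd B (U i) x + ∑ j ∈ Finset.univ.erase i, nd R (U j) x) := by
                apply Finset.sum_le_sum_of_subset_of_nonneg Finset.sdiff_subset
                intro x _ _
                exact add_nonneg (nd_nonneg _ _ _)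
                  (Finset.sum_nonneg fun j _ => nd_nonneg _ _ _)
            _ = n * (ed B (U i) (U i) + ∑ j ∈ Finset.univ.erase i, ed R (U i) (U j)) := by
                rw [Finset.sum_add_distrib, Finset.sum_comm, sum_nd_eq, mul_add, Finset.mul_sum]
                congr 1
                exact Finset.sum_congr rfl fun j _ => sum_nd_eq R (U i) (U j)
        exact le_of_mul_le_mul_left h6 hn
      rw [Finset.mul_sum]
      have h5 := Finset.sum_le_sum (s := Finset.univ) fun i _ => h4 i
      rw [Finset.sum_add_distrib] at h5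
      linarith
    have h4 : ∑ i, ms (U i \ P i) ≤ 8 * ε / γ := by
      rw [le_div_iff₀ hγ]; linarith
    have h5 : ε ≤ ε / γ := by
      rw [le_div_iff₀ hγ]
      have : γ ≤ 1 := by linarith
      nlinarith
    have h6 : 9 * ε / γ = ε / γ + 8 * ε / γ := by ring
    rw [h6, hE]
    have h7 := ms_union_le (Finset.univ \ D) (Finset.univ.biUnion (fun i => U i \ P i))
    linarith
  have hmsE' : ms E ≤ τ / 4 := by
    refine hmsE.trans ?_
    rw [div_le_iff₀ hγ]
    have h1 : τ / 4 * γ = 9 * (γ * τ / 36) := by ring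
    rw [h1]; linarith
  have hPU : ∀ i, P i ⊆ U i ∪ E := by
    intro i x hx
    rw [Finset.mem_union]
    by_cases h1 : x ∈ U i
    · left; exact h1
    · right
      rw [hE, Finset.mem_union]
      by_cases h2 : x ∈ D
      · right
        rw [Finset.mem_biUnion]
        refine ⟨c' x, Finset.mem_univ _, ?_⟩
        rw [Finset.mem_sdiff]
        have h3 : x ∈ U (c' x) := by
          rw [hU]; simp [h2]
        refine ⟨h3, ?_⟩
        have h4 : c' x ≠ i := by
          intro h; rw [h] at h3; exact h1 h3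
        exact fun h5 => (Finset.disjoint_left.mp (hPdisj (c' x) i h4)) h5 hx
      · left; rw [Finset.mem_sdiff]; exact ⟨Finset.mem_univ _, h2⟩
  have hUP : ∀ i, U i ⊆ P i ∪ E := by
    intro i x hx
    rw [Finset.mem_union]
    by_cases h1 : x ∈ P i
    · left; exact h1
    · right
      rw [hE, Finset.mem_union]
      right
      rw [Finset.mem_biUnion]
      exact ⟨i, Finset.mem_univ _, Finset.mem_sdiff.mpr ⟨hx, h1⟩⟩
  have hrest : Finset.univ ⊆ Finset.univ.biUnion P ∪ E := by
    intro x _
    rw [Finset.mem_union]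
    by_cases h1 : x ∈ Finset.univ.biUnion P
    · left; exact h1
    · right
      rw [hE, Finset.mem_union]
      by_cases h2 : x ∈ D
      · right
        rw [Finset.mem_biUnion]
        refine ⟨c' x, Finset.mem_univ _, ?_⟩
        rw [Finset.mem_sdiff]
        refine ⟨by rw [hU]; simp [h2], ?_⟩
        intro h3
        exact h1 (Finset.mem_biUnion.mpr ⟨c' x, Finset.mem_univ _, h3⟩)
      · left; rw [Finset.mem_sdiff]; exact ⟨Finset.mem_univ _, h2⟩
  have hτγ : τ ≤ γ := by linarith
  refine ⟨P, hPdisj, ?_, ?_, ?_, ?_, ?_, ?_, ?_⟩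
  · intro i
    have h1 := ms_le_of_subset_union (hUP i)
    have h2 := (hdev1 i).1
    linarith
  · intro i
    have h1 := ms_le_of_subset_union (hPU i)
    have h2 := (hdev1 i).2
    linarith
  · intro i x hx
    have h1 := nd_le_of_subset_union B (hPU i) x
    have h2 := ((hPmem i x).mp hx).1
    linarith
  · intro i j hij x hx
    have h1 := nd_le_of_subset_union R (hPU j) x
    have h2 := ((hPmem i x).mp hx).2 j hij.symm
    linarith
  · have h1 := ms_le_of_subset_union hrest
    rw [ms_univ] at h1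
    linarith
  · intro i j hij
    have h1 : ed R (U i) (U j) ≤ 5 * ε := by
      refine le_trans ?_ hred
      have h2 : ed R (U i) (U j) ≤ ∑ j ∈ Finset.univ.erase i, ed R (U i) (U j) :=
        Finset.single_le_sum (f := fun j => ed R (U i) (U j)) (fun j _ => ed_nonneg _ _ _)
          (Finset.mem_erase.mpr ⟨hij.symm, Finset.mem_univ _⟩)
      refine h2.trans ?_
      exact Finset.single_le_sum (f := fun i => ∑ j ∈ Finset.univ.erase i, ed R (U i) (U j))
        (fun i _ => Finset.sum_nonneg fun j _ => ed_nonneg _ _ _) (Finset.mem_univ i)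
    have h2 : ed R (P i) (P j) ≤ ed R (U i) (U j) + 2 * ms E := by
      have h3 : ed R (P i) (P j) ≤ ed R (P i) (U j) + ms E := by
        have h4 : n * ed R (P i) (P j) ≤ n * (ed R (P i) (U j) + ms E) := by
          rw [← sum_nd_eq, mul_add, ← sum_nd_eq]
          have h5 : ∑ x ∈ P i, nd R (P j) x ≤ ∑ x ∈ P i, (nd R (U j) x + ms E) :=
            Finset.sum_le_sum fun x _ => nd_le_of_subset_union R (hPU j) x
          refine h5.trans ?_
          rw [Finset.sum_add_distrib, Finset.sum_const, nsmul_eq_mul]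
          have h6 : ((P i).card : ℝ) ≤ n := by
            rw [hndef]; exact_mod_cast Finset.card_le_univ _
          have h7 := mul_le_mul_of_nonneg_right h6 (ms_nonneg E)
          linarith
        exact le_of_mul_le_mul_left h4 hn
      have h4 : ed R (P i) (U j) ≤ ed R (U i) (U j) + ms E := by
        refine (ed_mono_left R (hPU i) (U j)).trans ?_
        have h5 : U i ∪ E = U i ∪ (E \ U i) := by
          ext y; simp only [Finset.mem_union, Finset.mem_sdiff]; tauto
        rw [h5, ed_union_left R Finset.disjoint_sdiff]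
        have h6 := ed_le R (E \ U i) (U j)
        have h7 : ms (E \ U i) ≤ ms E := ms_mono Finset.sdiff_subset
        have h8 := ms_le_one (U j)
        have h9 := ms_nonneg (E \ U i)
        have h10 : ms (E \ U i) * ms (U j) ≤ ms (E \ U i) * 1 :=
          mul_le_mul_of_nonneg_left h8 h9
        linarith
      linarith
    have h3 : ε ≤ τ / 36 := by
      have h4 : γ * τ ≤ 1 * τ := mul_le_mul_of_nonneg_right (by linarith) hτ.le
      linarith
    linarith
  · intro x hx hlt i
    by_contra hcon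
    push Not at hcon
    apply hx
    rw [Finset.mem_biUnion]
    refine ⟨i, Finset.mem_univ _, (hPmem i x).mpr ?_⟩
    have h1 := nd_le_of_subset_union B (hUP i) x
    refine ⟨by linarith, ?_⟩
    intro j hj
    rw [nd_biUnion R P hPdisj] at hlt
    have h2 : nd R (P i) x + nd R (P j) x ≤ ∑ i, nd R (P i) x := by
      have h3 : ∑ k ∈ ({i, j} : Finset (Fin q)), nd R (P k) x = nd R (P i) x + nd R (P j) x := by
        rw [Finset.sum_pair hj.symm]
      rw [← h3]
      exact Finset.sum_le_sum_of_subset_of_nonneg (Finset.subset_univ _)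
        fun k _ _ => nd_nonneg _ _ _
    have h3 := nB_eq hRB (P i) x
    have h4 := ms_le_of_subset_union (hUP i)
    have h5 := (hdev1 i).1
    have h6 := nd_le_of_subset_union R (hUP j) x
    linarith

end near

end Pool.Agent.Lib.MP_6505eb_co
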