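import Mathlib
import Pool.Agent.Lib.MP_6505eb_co.Near1

set_option autoImplicit false

namespace Pool.Agent.Lib.MP_6505eb_co

open Classical

section near2

variable {V : Type} [Fintype V]

/-- transversal clique density -/
noncomputable def tr (B : V → V → Prop) : (m : ℕ) → (Fin m → Finset V) → ℝ
  | 0, _ => 1
  | m + 1, E => (1 / (Fintype.card V : ℝ)) *
      ∑ x ∈ E 0, tr B m (fun j => (E j.succ).filter (B x))

lemma tr_le_cl (B : V → V → Prop) : ∀ (m : ℕ) (E : Fin m → Finset V) (D : Finset V),
    (∀ j, E j ⊆ D) → tr B m E ≤ cl B m D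
  | 0, E, D, _ => by simp [tr, cl]
  | m + 1, E, D, h => by
      simp only [tr, cl]
      apply mul_le_mul_of_nonneg_left _ (by positivity)
      calc ∑ x ∈ E 0, tr B m (fun j => (E j.succ).filter (B x))
          ≤ ∑ x ∈ E 0, cl B m (D.filter (B x)) :=
            Finset.sum_le_sum fun x _ => tr_le_cl B m _ _
              fun j => Finset.filter_subset_filter _ (h j.succ)
        _ ≤ ∑ x ∈ D, cl B m (D.filter (B x)) :=
            Finset.sum_le_sum_of_subset_of_nonneg (h 0) fun x _ _ => cl_nonneg B m _

lemma prod_sub_ge {ι : Type*} (S : Finset ι) (a s : ι → ℝ) (hs : ∀ i ∈ S, 0 ≤ s i)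
    (hsa : ∀ i ∈ S, s i ≤ a i) (ha : ∀ i ∈ S, a i ≤ 1) :
    ∏ i ∈ S, a i - ∑ i ∈ S, s i ≤ ∏ i ∈ S, (a i - s i) := by
  induction S using Finset.induction_on with
  | empty => simp
  | insert i S hi ih =>
    rw [Finset.prod_insert hi, Finset.prod_insert hi, Finset.sum_insert hi]
    have h1 := ih (fun j hj => hs j (Finset.mem_insert_of_mem hj))
      (fun j hj => hsa j (Finset.mem_insert_of_mem hj))
      (fun j hj => ha j (Finset.mem_insert_of_mem hj))
    have hi' := Finset.mem_insert_self i S
    have h2 := hs i hi'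
    have h3 := hsa i hi'
    have h4 := ha i hi'
    set P := ∏ j ∈ S, (a j - s j) with hP
    have hP0 : 0 ≤ P := Finset.prod_nonneg fun j hj => by
      have := hsa j (Finset.mem_insert_of_mem hj); linarith
    have hP1 : P ≤ 1 := Finset.prod_le_one
      (fun j hj => by have := hsa j (Finset.mem_insert_of_mem hj); linarith)
      (fun j hj => by
        have := ha j (Finset.mem_insert_of_mem hj)
        have := hs j (Finset.mem_insert_of_mem hj); linarith)
    have hS0 : 0 ≤ ∑ j ∈ S, s j := Finset.sum_nonneg fun j hj => hs j (Finset.mem_insert_of_mem hj)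
    have h5 : a i * (∏ j ∈ S, a j - ∑ j ∈ S, s j) ≤ a i * P :=
      mul_le_mul_of_nonneg_left h1 (by linarith)
    have h6 : a i * ∑ j ∈ S, s j ≤ 1 * ∑ j ∈ S, s j := mul_le_mul_of_nonneg_right h4 hS0
    have h7 : s i * P ≤ s i * 1 := mul_le_mul_of_nonneg_left hP1 h2
    linarith

lemma ms_filter_eq (B : V → V → Prop) (S : Finset V) (x : V) :
    ms (S.filter (B x)) = nd B S x := rfl

variable [Nonempty V]

lemma tr_ge {R B : V → V → Prop} (hRB : ∀ x y, B x y ↔ ¬ R x y) {ρ : ℝ} (hρ : 0 ≤ ρ) :
    ∀ (m : ℕ) (E : Fin m → Finset V), (∀ i j, i ≠ j → ed R (E i) (E j) ≤ ρ) →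
      ∏ i, ms (E i) - (m : ℝ) ^ 2 * ρ ≤ tr B m E
  | 0, E, _ => by simp [tr]
  | m + 1, E, h => by
      have hn : (0 : ℝ) < (Fintype.card V : ℝ) := card_pos'
      simp only [tr]
      have h1 : ∀ x ∈ E 0, (∏ j : Fin m, ms (E j.succ) - ∑ j : Fin m, nd R (E j.succ) x)
          - (m : ℝ) ^ 2 * ρ ≤ tr B m (fun j => (E j.succ).filter (B x)) := by
        intro x _
        have h2 := tr_ge hRB hρ m (fun j => (E j.succ).filter (B x)) (by
          intro i j hij
          refine ((ed_mono_left R (Finset.filter_subset _ _) _).trans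
            (ed_mono_right R _ (Finset.filter_subset _ _))).trans
            (h i.succ j.succ (fun h' => hij (Fin.succ_injective _ h'))))
        refine le_trans ?_ h2
        have h3 : ∀ j : Fin m, ms ((E j.succ).filter (B x)) =
            ms (E j.succ) - nd R (E j.succ) x := by
          intro j
          rw [ms_filter_eq]
          have := nB_eq hRB (E j.succ) x
          linarith
        simp only [h3]
        have h4 := prod_sub_ge Finset.univ (fun j : Fin m => ms (E j.succ))
          (fun j => nd R (E j.succ) x) (fun j _ => nd_nonneg _ _ _)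
          (fun j _ => nd_le_ms _ _ _) (fun j _ => ms_le_one _)
        linarith
      have h2 := Finset.sum_le_sum h1
      have h3 : ∑ x ∈ E 0, ((∏ j : Fin m, ms (E j.succ) - ∑ j : Fin m, nd R (E j.succ) x)
          - (m : ℝ) ^ 2 * ρ) = (Fintype.card V : ℝ) * (ms (E 0) * ∏ j : Fin m, ms (E j.succ)
            - ∑ j : Fin m, ed R (E 0) (E j.succ) - ms (E 0) * ((m : ℝ) ^ 2 * ρ)) := by
        rw [Finset.sum_sub_distrib, Finset.sum_sub_distrib, Finset.sum_comm]
        simp only [Finset.sum_const, nsmul_eq_mul]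
        rw [Finset.sum_congr rfl fun j _ => sum_nd_eq R (E 0) (E j.succ), ← Finset.mul_sum,
          card_eq_ms (E 0)]
        ring
      rw [h3] at h2
      have h4 : ∑ j : Fin m, ed R (E 0) (E j.succ) ≤ m * ρ := by
        calc ∑ j : Fin m, ed R (E 0) (E j.succ) ≤ ∑ _j : Fin m, ρ :=
              Finset.sum_le_sum fun j _ => h 0 j.succ (Fin.succ_ne_zero j).symm
          _ = m * ρ := by simp
      have h5 : ms (E 0) * ((m : ℝ) ^ 2 * ρ) ≤ 1 * ((m : ℝ) ^ 2 * ρ) :=
        mul_le_mul_of_nonneg_right (ms_le_one _) (by positivity)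
      rw [Fin.prod_univ_succ]
      have h6 : ms (E 0) * ∏ j : Fin m, ms (E j.succ) - ((m : ℝ) + 1) ^ 2 * ρ ≤
          ms (E 0) * ∏ j : Fin m, ms (E j.succ)
            - ∑ j : Fin m, ed R (E 0) (E j.succ) - ms (E 0) * ((m : ℝ) ^ 2 * ρ) := by
        have h7 : ((m : ℝ) + 1) ^ 2 * ρ = (m : ℝ) ^ 2 * ρ + 2 * (m * ρ) + ρ := by ring
        have h8 : 0 ≤ (m : ℝ) * ρ := by positivity
        rw [h7]; linarith
      push_cast
      refine h6.trans ?_
      rw [one_div, ← div_eq_inv_mul, le_div_iff₀ hn]
      linarith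

/-- the density of blue cliques through the structure -/
lemma blue_cliques {q : ℕ} (hq : 3 ≤ q) {γ τ : ℝ} (hγ : 0 < γ) (hγ1 : γ ≤ 1 / (16 * q))
    (hτ : 0 < τ) (hτ1 : τ ≤ γ / 4) (hτ2 : (q : ℝ) ^ 2 * τ ≤ (γ / 4) ^ q / 2)
    {R B : V → V → Prop} (hRB : ∀ x y, B x y ↔ ¬ R x y)
    {P : Fin q → Finset V} (hP : Str q γ τ R B P) (Bad : Finset V)
    (hBad : ∀ x ∈ Bad, x ∉ Finset.univ.biUnion P ∧
      nd R (Finset.univ.biUnion P) x < 1 / (q : ℝ) + γ / 4) :
    (∀ x ∈ Finset.univ.biUnion P ∪ Bad, 1 / 2 ≤ nd B (Finset.univ.biUnion P) x) ∧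
    (γ / 4) ^ q / 2 * ms Bad ≤ cl B (q + 1) (Finset.univ.biUnion P ∪ Bad) ∧
    (γ / 4) ^ q / 2 * ∑ i, ed B (P i) (P i) ≤ cl B (q + 1) (Finset.univ.biUnion P ∪ Bad) := by
  have hq' : (3 : ℝ) ≤ q := by exact_mod_cast hq
  have hq0 : (0 : ℝ) < q := by linarith
  have hn : (0 : ℝ) < (Fintype.card V : ℝ) := card_pos'
  set S := Finset.univ.biUnion P with hS
  set u : ℝ := 1 / (q : ℝ) with hu
  have hu0 : 0 < u := by positivity
  have hu1 : u ≤ 1 / 3 := by
    rw [hu]; exact one_div_le_one_div_of_le (by norm_num) hq'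
  have hγu : γ ≤ u / 16 := by
    have : 1 / (16 * (q : ℝ)) = u / 16 := by rw [hu]; field_simp
    rw [← this]; exact hγ1
  have hqγ : (q : ℝ) * γ ≤ 1 / 16 := by
    calc (q : ℝ) * γ ≤ q * (1 / (16 * q)) := mul_le_mul_of_nonneg_left hγ1 hq0.le
      _ = 1 / 16 := by field_simp
  have hms : 1 - τ ≤ ms S := hP.total
  refine ⟨?_, ?_, ?_⟩
  · intro x hx
    have h1 := nB_eq hRB S x
    rcases Finset.mem_union.mp hx with hx | hx
    · rw [hS, Finset.mem_biUnion] at hx
      obtain ⟨i, _, hxi⟩ := hx
      have h2 : nd R S x ≤ u + τ + 2 * (q * γ) := by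
        rw [hS, nd_biUnion R P hP.disj, ← Finset.add_sum_erase _ _ (Finset.mem_univ i)]
        have h3 : nd R (P i) x ≤ u + τ := (nd_le_ms _ _ _).trans (hP.size_hi i)
        have h4 : ∑ j ∈ Finset.univ.erase i, nd R (P j) x ≤ ∑ j ∈ Finset.univ.erase i, 2 * γ :=
          Finset.sum_le_sum fun j hj =>
            hP.cross i j (Finset.mem_erase.mp hj).1.symm x hxi
        have h5 : ∑ _j ∈ (Finset.univ : Finset (Fin q)).erase i, 2 * γ ≤ ∑ _j : Fin q, 2 * γ :=
          Finset.sum_le_sum_of_subset_of_nonneg (Finset.erase_subset _ _)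
            fun _ _ _ => by positivity
        have h6 : ∑ _j : Fin q, 2 * γ = 2 * (q * γ) := by
          rw [Finset.sum_const, Finset.card_univ, Fintype.card_fin, nsmul_eq_mul]; ring
        linarith
      linarith
    · have h2 := (hBad x hx).2
      linarith
  · -- bad vertices
    have h1 : ∀ x ∈ Bad, (γ / 4) ^ q / 2 ≤ cl B q ((S ∪ Bad).filter (B x)) := by
      intro x hx
      have h2 := tr_le_cl B q (fun j => (P j).filter (B x)) ((S ∪ Bad).filter (B x)) (by
        intro j
        apply Finset.filter_subset_filter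
        intro y hy
        exact Finset.mem_union_left _ (Finset.mem_biUnion.mpr ⟨j, Finset.mem_univ _, hy⟩))
      refine le_trans ?_ h2
      have h3 := tr_ge hRB hτ.le q (fun j => (P j).filter (B x)) (by
        intro i j hij
        exact ((ed_mono_left R (Finset.filter_subset _ _) _).trans
            (ed_mono_right R _ (Finset.filter_subset _ _))).trans (hP.ecross i j hij))
      refine le_trans ?_ h3
      have h4 : (γ / 4) ^ q ≤ ∏ i, ms ((P i).filter (B x)) := by
        have h5 : (γ / 4) ^ q = ∏ _i : Fin q, γ / 4 := by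
          rw [Finset.prod_const, Finset.card_univ, Fintype.card_fin]
        rw [h5]
        apply Finset.prod_le_prod (fun _ _ => by positivity)
        intro i _
        rw [ms_filter_eq]
        exact hP.rest x (hBad x hx).1 (hBad x hx).2 i
      linarith
    have h2 : (1 / (Fintype.card V : ℝ)) * ∑ x ∈ Bad, (γ / 4) ^ q / 2 ≤
        cl B (q + 1) (S ∪ Bad) := by
      simp only [cl]
      apply mul_le_mul_of_nonneg_left _ (by positivity)
      exact (Finset.sum_le_sum h1).trans
        (Finset.sum_le_sum_of_subset_of_nonneg Finset.subset_union_right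
          fun x _ _ => cl_nonneg B q _)
    refine le_trans (le_of_eq ?_) h2
    rw [Finset.sum_const, nsmul_eq_mul, card_eq_ms Bad]
    field_simp
  · -- blue pairs inside the parts
    obtain ⟨m, rfl⟩ : ∃ m, q = m + 1 := ⟨q - 1, by omega⟩
    have hpow : (γ / 4) ^ (m + 1) ≤ (u / 2) ^ m := by
      calc (γ / 4) ^ (m + 1) = (γ / 4) ^ m * (γ / 4) := pow_succ _ _
        _ ≤ (u / 2) ^ m * 1 := by
            apply mul_le_mul _ (by linarith) (by positivity) (by positivity)
            exact pow_le_pow_left₀ (by positivity) (by linarith) m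
        _ = (u / 2) ^ m := mul_one _
    have h1 : ∀ i, ∀ x ∈ P i, (γ / 4) ^ (m + 1) / 2 * nd B (P i) x ≤
        cl B (m + 1) ((S ∪ Bad).filter (B x)) := by
      intro i x hx
      set E : Fin (m + 1) → Finset V := Fin.cons ((P i).filter (B x))
        (fun j => (P (i.succAbove j)).filter (B x)) with hE
      have hEsub : ∀ j, E j ⊆ (S ∪ Bad).filter (B x) := by
        intro j
        rcases Fin.eq_zero_or_eq_succ j with hj | ⟨j', hj⟩
        · subst hj
          simp only [hE, Fin.cons_zero]
          apply Finset.filter_subset_filter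
          intro y hy
          exact Finset.mem_union_left _ (Finset.mem_biUnion.mpr ⟨i, Finset.mem_univ _, hy⟩)
        · subst hj
          simp only [hE, Fin.cons_succ]
          apply Finset.filter_subset_filter
          intro y hy
          exact Finset.mem_union_left _ (Finset.mem_biUnion.mpr ⟨_, Finset.mem_univ _, hy⟩)
      refine le_trans ?_ (tr_le_cl B (m + 1) E _ hEsub)
      simp only [tr]
      have hE0 : E 0 = (P i).filter (B x) := rfl
      have hEs : ∀ j : Fin m, E j.succ = (P (i.succAbove j)).filter (B x) := fun j => rfl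
      rw [hE0]
      simp only [hEs]
      have h2 : ∀ y ∈ (P i).filter (B x), (γ / 4) ^ (m + 1) / 2 ≤
          tr B m (fun j => ((P (i.succAbove j)).filter (B x)).filter (B y)) := by
        intro y hy
        have hyi : y ∈ P i := (Finset.mem_filter.mp hy).1
        have h3 := tr_ge hRB hτ.le m (fun j => ((P (i.succAbove j)).filter (B x)).filter (B y)) (by
          intro j k hjk
          refine ((ed_mono_left R ((Finset.filter_subset _ _).trans (Finset.filter_subset _ _)) _
            ).trans (ed_mono_right R _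
              ((Finset.filter_subset _ _).trans (Finset.filter_subset _ _)))).trans
              (hP.ecross _ _ (fun h => hjk (Fin.succAbove_right_injective h))))
        refine le_trans ?_ h3
        have h4 : (u / 2) ^ m ≤ ∏ j : Fin m, ms (((P (i.succAbove j)).filter (B x)).filter (B y)) := by
          have h5 : (u / 2) ^ m = ∏ _j : Fin m, u / 2 := by
            rw [Finset.prod_const, Finset.card_univ, Fintype.card_fin]
          rw [h5]
          apply Finset.prod_le_prod (fun _ _ => by positivity)
          intro j _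
          have hne : i ≠ i.succAbove j := (Fin.succAbove_ne i j).symm
          have a1 := hP.size_lo (i.succAbove j)
          have a2 := hP.cross i _ hne x hx
          have a3 := hP.cross i _ hne y hyi
          have a4 : ms (P (i.succAbove j)) ≤ ms (((P (i.succAbove j)).filter (B x)).filter (B y)) +
              nd R (P (i.succAbove j)) x + nd R (P (i.succAbove j)) y := by
            have b1 : P (i.succAbove j) ⊆ (((P (i.succAbove j)).filter (B x)).filter (B y)) ∪
                ((P (i.succAbove j)).filter (R x) ∪ (P (i.succAbove j)).filter (R y)) := by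
              intro z hz
              simp only [Finset.mem_union, Finset.mem_filter]
              have c1 := hRB x z
              have c2 := hRB y z
              tauto
            have b2 := ms_le_of_subset_union b1
            have b3 := ms_union_le ((P (i.succAbove j)).filter (R x))
              ((P (i.succAbove j)).filter (R y))
            have b4 : ms ((P (i.succAbove j)).filter (R x)) = nd R (P (i.succAbove j)) x := rfl
            have b5 : ms ((P (i.succAbove j)).filter (R y)) = nd R (P (i.succAbove j)) y := rfl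
            linarith
          linarith
        have h5 : (m : ℝ) ^ 2 * τ ≤ (γ / 4) ^ (m + 1) / 2 := by
          refine le_trans ?_ hτ2
          apply mul_le_mul_of_nonneg_right _ hτ.le
          apply pow_le_pow_left₀ (by positivity)
          push_cast; linarith
        linarith
      have h3 : (1 / (Fintype.card V : ℝ)) * ∑ _y ∈ (P i).filter (B x), (γ / 4) ^ (m + 1) / 2 ≤
          (1 / (Fintype.card V : ℝ)) * ∑ y ∈ (P i).filter (B x),
          tr B m (fun j => ((P (i.succAbove j)).filter (B x)).filter (B y)) :=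
        mul_le_mul_of_nonneg_left (Finset.sum_le_sum h2) (by positivity)
      refine le_trans (le_of_eq ?_) h3
      rw [Finset.sum_const, nsmul_eq_mul, card_eq_ms ((P i).filter (B x)), ms_filter_eq]
      field_simp
    have h2 : (1 / (Fintype.card V : ℝ)) * ∑ i, ∑ x ∈ P i, (γ / 4) ^ (m + 1) / 2 * nd B (P i) x ≤
        cl B (m + 1 + 1) (S ∪ Bad) := by
      have hcl : cl B (m + 1 + 1) (S ∪ Bad) = (1 / (Fintype.card V : ℝ)) *
        ∑ x ∈ S ∪ Bad, cl B (m + 1) ((S ∪ Bad).filter (B x)) := rfl
      rw [hcl]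
      apply mul_le_mul_of_nonneg_left _ (by positivity)
      have h3 : ∑ x ∈ S, cl B (m + 1) ((S ∪ Bad).filter (B x)) =
          ∑ i, ∑ x ∈ P i, cl B (m + 1) ((S ∪ Bad).filter (B x)) := by
        rw [hS, Finset.sum_biUnion (fun i _ j _ hij => hP.disj i j hij)]
      calc ∑ i, ∑ x ∈ P i, (γ / 4) ^ (m + 1) / 2 * nd B (P i) x
          ≤ ∑ i, ∑ x ∈ P i, cl B (m + 1) ((S ∪ Bad).filter (B x)) :=
            Finset.sum_le_sum fun i _ => Finset.sum_le_sum fun x hx => h1 i x hx
        _ = ∑ x ∈ S, cl B (m + 1) ((S ∪ Bad).filter (B x)) := h3.symm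
        _ ≤ _ := Finset.sum_le_sum_of_subset_of_nonneg Finset.subset_union_left
              fun x _ _ => cl_nonneg B _ _
    refine le_trans (le_of_eq ?_) h2
    rw [Finset.mul_sum, Finset.mul_sum]
    apply Finset.sum_congr rfl
    intro i _
    rw [← Finset.mul_sum, sum_nd_eq]
    field_simp

end near2

end Pool.Agent.Lib.MP_6505eb_co
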