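import Mathlib
import Pool.Agent.Lib.MP_6505eb_co.Near2

set_option autoImplicit false

namespace Pool.Agent.Lib.MP_6505eb_co

open Classical

section near3

variable {V : Type} [Fintype V] [Nonempty V]

lemma one_sum {ι : Type} [Fintype ι] [DecidableEq ι] (b : ι) (ψ : V → ℝ) :
    (∑ x : ι → V, ψ (x b)) * (Fintype.card V : ℝ) = (Fintype.card V : ℝ) ^ (Fintype.card ι) *
      ∑ z, ψ z := by
  have h1 : ∑ x : ι → V, ψ (x b) = ∑ p : V × ({j // j ≠ b} → V), ψ p.1 :=
    Fintype.sum_equiv (Equiv.funSplitAt b V) _ _ (fun x => rfl)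
  have h2 : Fintype.card {j // j ≠ b} = Fintype.card ι - 1 := by
    simp
  have h3 : 0 < Fintype.card ι := Fintype.card_pos_iff.mpr ⟨b⟩
  rw [h1, Fintype.sum_prod_type]
  simp only [Finset.sum_const, Finset.card_univ, nsmul_eq_mul]
  rw [← Finset.mul_sum, Fintype.card_fun, h2]
  have h4 : (Fintype.card V : ℝ) ^ (Fintype.card ι) =
      (Fintype.card V : ℝ) ^ (Fintype.card ι - 1) * (Fintype.card V : ℝ) := by
    rw [← pow_succ]; congr 1; omega
  rw [h4]; push_cast; ring

lemma pair_sum {k : ℕ} (a b : Fin k) (hab : a ≠ b) (φ : V → V → ℝ) :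
    (∑ x : Fin k → V, φ (x a) (x b)) * (Fintype.card V : ℝ) ^ 2 =
      (Fintype.card V : ℝ) ^ k * ∑ y, ∑ z, φ y z := by
  have h1 : ∑ x : Fin k → V, φ (x a) (x b) =
      ∑ p : V × ({j // j ≠ a} → V), φ p.1 (p.2 ⟨b, hab.symm⟩) :=
    Fintype.sum_equiv (Equiv.funSplitAt a V) _ _ (fun x => rfl)
  rw [h1, Fintype.sum_prod_type, Finset.sum_mul, Finset.mul_sum]
  apply Finset.sum_congr rfl
  intro y _
  have h2 := one_sum (V := V) (⟨b, hab.symm⟩ : {j // j ≠ a}) (fun z => φ y z)
  have h3 : Fintype.card {j // j ≠ a} = k - 1 := by simp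
  have h4 : 0 < k := Fin.pos a
  rw [h3] at h2
  have h5 : (Fintype.card V : ℝ) ^ k = (Fintype.card V : ℝ) ^ (k - 1) * (Fintype.card V : ℝ) := by
    rw [← pow_succ]; congr 1; omega
  rw [h5, pow_two, ← mul_assoc, h2]
  ring

lemma isCl_ge {R B : V → V → Prop} (hRB : ∀ x y, B x y ↔ ¬ R x y) {k : ℕ} (x : Fin k → V) :
    1 - ∑ a : Fin k, ∑ b : Fin k, (if a ≠ b ∧ B (x a) (x b) then (1 : ℝ) else 0) ≤
      if isCl R x then 1 else 0 := by
  by_cases h : isCl R x
  · rw [if_pos h]
    have : 0 ≤ ∑ a : Fin k, ∑ b : Fin k, (if a ≠ b ∧ B (x a) (x b) then (1 : ℝ) else 0) :=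
      Finset.sum_nonneg fun a _ => Finset.sum_nonneg fun b _ => by split_ifs <;> norm_num
    linarith
  · rw [if_neg h]
    unfold isCl at h
    push Not at h
    obtain ⟨a, b, hab, hR⟩ := h
    have h1 : (1 : ℝ) ≤ ∑ b : Fin k, (if a ≠ b ∧ B (x a) (x b) then (1 : ℝ) else 0) := by
      refine le_trans ?_ (Finset.single_le_sum
        (f := fun b => (if a ≠ b ∧ B (x a) (x b) then (1 : ℝ) else 0))
        (fun b _ => by split_ifs <;> norm_num) (Finset.mem_univ b))
      rw [if_pos ⟨hab, (hRB _ _).mpr hR⟩]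
    have h2 : ∑ b : Fin k, (if a ≠ b ∧ B (x a) (x b) then (1 : ℝ) else 0) ≤
        ∑ a : Fin k, ∑ b : Fin k, (if a ≠ b ∧ B (x a) (x b) then (1 : ℝ) else 0) :=
      Finset.single_le_sum
        (f := fun a => ∑ b : Fin k, (if a ≠ b ∧ B (x a) (x b) then (1 : ℝ) else 0))
        (fun a _ => Finset.sum_nonneg fun b _ => by split_ifs <;> norm_num) (Finset.mem_univ a)
    linarith

/-- Jensen on a finite set -/
lemma sum_exp_ge {ι : Type*} (S : Finset ι) (hS : S.Nonempty) (f : ι → ℝ) :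
    (S.card : ℝ) * Real.exp ((∑ y ∈ S, f y) / S.card) ≤ ∑ y ∈ S, Real.exp (f y) := by
  have hc : (0 : ℝ) < S.card := by exact_mod_cast hS.card_pos
  set m := (∑ y ∈ S, f y) / S.card with hm
  have h1 : ∀ y ∈ S, Real.exp m * (1 + (f y - m)) ≤ Real.exp (f y) := by
    intro y _
    have h2 : Real.exp (f y) = Real.exp m * Real.exp (f y - m) := by
      rw [← Real.exp_add]; congr 1; ring
    rw [h2]
    apply mul_le_mul_of_nonneg_left _ (Real.exp_pos _).le
    have := Real.add_one_le_exp (f y - m)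
    linarith
  refine le_trans (le_of_eq ?_) (Finset.sum_le_sum h1)
  rw [← Finset.mul_sum, Finset.sum_add_distrib, Finset.sum_sub_distrib]
  simp only [Finset.sum_const, nsmul_eq_mul]
  have h3 : (S.card : ℝ) * m = ∑ y ∈ S, f y := by rw [hm]; field_simp
  rw [h3]; ring

/-- weighted Jensen -/
lemma wsum_exp_ge {ι : Type*} [Fintype ι] (p z : ι → ℝ) (hp : ∀ i, 0 ≤ p i)
    (hs : 0 < ∑ i, p i) :
    (∑ i, p i) * Real.exp ((∑ i, p i * z i) / ∑ i, p i) ≤ ∑ i, p i * Real.exp (z i) := by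
  set s := ∑ i, p i with hsdef
  set m := (∑ i, p i * z i) / s with hm
  have h1 : ∀ i, p i * (Real.exp m * (1 + (z i - m))) ≤ p i * Real.exp (z i) := by
    intro i
    apply mul_le_mul_of_nonneg_left _ (hp i)
    have h2 : Real.exp (z i) = Real.exp m * Real.exp (z i - m) := by
      rw [← Real.exp_add]; congr 1; ring
    rw [h2]
    apply mul_le_mul_of_nonneg_left _ (Real.exp_pos _).le
    have := Real.add_one_le_exp (z i - m)
    linarith
  refine le_trans (le_of_eq ?_) (Finset.sum_le_sum fun i _ => h1 i)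
  have h3 : ∑ i, p i * (Real.exp m * (1 + (z i - m))) =
      Real.exp m * (s + (∑ i, p i * z i) - s * m) := by
    rw [hsdef, Finset.sum_mul, ← Finset.sum_add_distrib, ← Finset.sum_sub_distrib, Finset.mul_sum]
    apply Finset.sum_congr rfl
    intro i _
    ring
  rw [h3]
  have h4 : s * m = ∑ i, p i * z i := by rw [hm]; field_simp
  rw [h4]; ring

/-- the contribution of one part -/
lemma part_sum {R B : V → V → Prop} (hRB : ∀ x y, B x y ↔ ¬ R x y) {k : ℕ}
    (A : Fin k → V → ℝ) (Q : Finset V) (hQ : Q.Nonempty) {M : ℝ}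
    (hM : ∀ x : Fin k → V, (∀ s, x s ∈ Q) → ∏ s, Real.exp (A s (x s)) ≤ M) (hM0 : 0 ≤ M) :
    ms Q ^ k * Real.exp ((∑ x ∈ Q, ∑ s, A s x) / ((Fintype.card V : ℝ) * ms Q)) -
      (k : ℝ) ^ 2 * M * ed B Q Q ≤
    (∑ x ∈ Fintype.piFinset (fun _ : Fin k => Q),
      (if isCl R x then (1 : ℝ) else 0) * ∏ s, Real.exp (A s (x s))) /
      (Fintype.card V : ℝ) ^ k := by
  have hn : (0 : ℝ) < (Fintype.card V : ℝ) := card_pos'
  set n : ℝ := (Fintype.card V : ℝ) with hndef
  have hcard : (Q.card : ℝ) = n * ms Q := card_eq_ms Q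
  rw [le_div_iff₀ (by positivity)]
  -- main term
  have h1 : ∑ x ∈ Fintype.piFinset (fun _ : Fin k => Q), ∏ s, Real.exp (A s (x s)) =
      ∏ s, ∑ y ∈ Q, Real.exp (A s y) :=
    (Finset.prod_univ_sum (fun _ : Fin k => Q) (fun s y => Real.exp (A s y))).symm
  have h2 : (n * ms Q) ^ k * Real.exp ((∑ x ∈ Q, ∑ s, A s x) / (n * ms Q)) ≤
      ∏ s, ∑ y ∈ Q, Real.exp (A s y) := by
    have h3 : (n * ms Q) ^ k * Real.exp ((∑ x ∈ Q, ∑ s, A s x) / (n * ms Q)) =
        ∏ s : Fin k, ((Q.card : ℝ) * Real.exp ((∑ y ∈ Q, A s y) / Q.card)) := by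
      rw [Finset.prod_mul_distrib, Finset.prod_const, Finset.card_univ, Fintype.card_fin,
        ← Real.exp_sum, ← Finset.sum_div, Finset.sum_comm, hcard]
    rw [h3]
    exact Finset.prod_le_prod (fun s _ => by positivity) fun s _ => sum_exp_ge Q hQ _
  -- error term
  have h4 : ∀ x ∈ Fintype.piFinset (fun _ : Fin k => Q),
      ∏ s, Real.exp (A s (x s)) - M * ∑ a : Fin k, ∑ b : Fin k,
        (if a ≠ b ∧ B (x a) (x b) then (1 : ℝ) else 0) ≤
      (if isCl R x then (1 : ℝ) else 0) * ∏ s, Real.exp (A s (x s)) := by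
    intro x hx
    rw [Fintype.mem_piFinset] at hx
    have h5 := isCl_ge hRB x
    have h6 : 0 ≤ ∏ s, Real.exp (A s (x s)) := Finset.prod_nonneg fun s _ => (Real.exp_pos _).le
    have h7 := mul_le_mul_of_nonneg_right h5 h6
    have h8 := hM x hx
    have h9 : 0 ≤ ∑ a : Fin k, ∑ b : Fin k, (if a ≠ b ∧ B (x a) (x b) then (1 : ℝ) else 0) :=
      Finset.sum_nonneg fun a _ => Finset.sum_nonneg fun b _ => by split_ifs <;> norm_num
    have h10 := mul_le_mul_of_nonneg_left h8 h9
    nlinarith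
  have h5 := Finset.sum_le_sum h4
  rw [Finset.sum_sub_distrib, ← Finset.mul_sum, h1] at h5
  have h6 : ∑ x ∈ Fintype.piFinset (fun _ : Fin k => Q), ∑ a : Fin k, ∑ b : Fin k,
        (if a ≠ b ∧ B (x a) (x b) then (1 : ℝ) else 0) ≤ (k : ℝ) ^ 2 * (n ^ k * ed B Q Q) := by
    rw [Finset.sum_comm]
    have h7 : ∀ a : Fin k, ∑ x ∈ Fintype.piFinset (fun _ : Fin k => Q), ∑ b : Fin k,
        (if a ≠ b ∧ B (x a) (x b) then (1 : ℝ) else 0) ≤ k * (n ^ k * ed B Q Q) := by
      intro a
      rw [Finset.sum_comm]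
      have h8 : ∀ b : Fin k, ∑ x ∈ Fintype.piFinset (fun _ : Fin k => Q),
          (if a ≠ b ∧ B (x a) (x b) then (1 : ℝ) else 0) ≤ n ^ k * ed B Q Q := by
        intro b
        by_cases hab : a = b
        · have : ∀ x ∈ Fintype.piFinset (fun _ : Fin k => Q),
              (if a ≠ b ∧ B (x a) (x b) then (1 : ℝ) else 0) = 0 := by
            intro x _; rw [if_neg]; exact fun h => h.1 hab
          rw [Finset.sum_congr rfl this]
          simp only [Finset.sum_const_zero]
          exact mul_nonneg (by positivity) (ed_nonneg _ _ _)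
        · have h9 : ∑ x ∈ Fintype.piFinset (fun _ : Fin k => Q),
              (if a ≠ b ∧ B (x a) (x b) then (1 : ℝ) else 0) ≤
              ∑ x : Fin k → V, (if x a ∈ Q ∧ x b ∈ Q ∧ B (x a) (x b) then (1 : ℝ) else 0) := by
            refine le_trans (Finset.sum_le_sum
              (g := fun x => (if x a ∈ Q ∧ x b ∈ Q ∧ B (x a) (x b) then (1 : ℝ) else 0)) ?_)
              (Finset.sum_le_sum_of_subset_of_nonneg (Finset.subset_univ _)
                (fun x _ _ => by split_ifs <;> norm_num))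
            intro x hx
            rw [Fintype.mem_piFinset] at hx
            by_cases h10 : a ≠ b ∧ B (x a) (x b)
            · rw [if_pos h10, if_pos ⟨hx a, hx b, h10.2⟩]
            · rw [if_neg h10]; split_ifs <;> norm_num
          refine h9.trans ?_
          have h10 := pair_sum (V := V) a b hab
            (fun y z => (if y ∈ Q ∧ z ∈ Q ∧ B y z then (1 : ℝ) else 0))
          have h11 : ∑ y : V, ∑ z : V, (if y ∈ Q ∧ z ∈ Q ∧ B y z then (1 : ℝ) else 0) =
              n ^ 2 * ed B Q Q := by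
            rw [← ind_sum_eq B Q Q]
            have e1 : ∑ y : V, ∑ z : V, (if y ∈ Q ∧ z ∈ Q ∧ B y z then (1 : ℝ) else 0) =
                ∑ y ∈ Q, ∑ z : V, (if y ∈ Q ∧ z ∈ Q ∧ B y z then (1 : ℝ) else 0) := by
              symm
              apply Finset.sum_subset (Finset.subset_univ _)
              intro y _ hy
              apply Finset.sum_eq_zero
              intro z _
              rw [if_neg (fun h => hy h.1)]
            rw [e1]
            apply Finset.sum_congr rfl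
            intro y hy
            have e2 : ∑ z : V, (if y ∈ Q ∧ z ∈ Q ∧ B y z then (1 : ℝ) else 0) =
                ∑ z ∈ Q, (if y ∈ Q ∧ z ∈ Q ∧ B y z then (1 : ℝ) else 0) := by
              symm
              apply Finset.sum_subset (Finset.subset_univ _)
              intro z _ hz
              rw [if_neg (fun h => hz h.2.1)]
            rw [e2]
            apply Finset.sum_congr rfl
            intro z hz
            simp [hy, hz]
          rw [h11] at h10
          have h12 : (∑ x : Fin k → V, (if x a ∈ Q ∧ x b ∈ Q ∧ B (x a) (x b) then (1 : ℝ) else 0))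
              * n ^ 2 = (n ^ k * ed B Q Q) * n ^ 2 := by
            rw [h10]; ring
          exact (mul_right_cancel₀ (by positivity) h12).le
      refine (Finset.sum_le_sum fun b _ => h8 b).trans (le_of_eq ?_)
      rw [Finset.sum_const, Finset.card_univ, Fintype.card_fin, nsmul_eq_mul]
    refine (Finset.sum_le_sum fun a _ => h7 a).trans (le_of_eq ?_)
    rw [Finset.sum_const, Finset.card_univ, Fintype.card_fin, nsmul_eq_mul]
    ring
  have h7 := mul_le_mul_of_nonneg_left h6 hM0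
  have h8 : (ms Q ^ k * Real.exp ((∑ x ∈ Q, ∑ s, A s x) / (n * ms Q)) -
      (k : ℝ) ^ 2 * M * ed B Q Q) * n ^ k =
      (n * ms Q) ^ k * Real.exp ((∑ x ∈ Q, ∑ s, A s x) / (n * ms Q)) -
      M * ((k : ℝ) ^ 2 * (n ^ k * ed B Q Q)) := by
    rw [mul_pow]; ring
  rw [h8]
  linarith

end near3

end Pool.Agent.Lib.MP_6505eb_co
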