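import Mathlib
import Pool.Agent.Lib.MP_6505eb_co.Near3

set_option autoImplicit false

namespace Pool.Agent.Lib.MP_6505eb_co

open Classical

section near4

variable {V : Type} [Fintype V]

lemma walk_near {R : V → V → Prop} (hR : ∀ x y, R x y → R y x) {k : ℕ} (T : Fin k → RT)
    (S0 A : Finset V) (hdisj : Disjoint S0 A) {θ : ℝ} (hθ : 0 < θ)
    (hS0 : ∀ x ∈ S0, 0 < nd R (S0 ∪ A) x) (hA : ∀ x ∈ A, θ ≤ nd R (S0 ∪ A) x) :
    ∃ F : Fin k → V → ℝ,
      (∀ x ∈ S0, ∀ s, Real.exp (F s x) ≤ hh (ker R) (T s) x) ∧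
      (∀ x ∈ S0, ∀ s, F s x ≤ (T s).sz * Real.log θ) ∧
      ((∑ s, (T s).sz : ℕ) : ℝ) * ∑ x ∈ S0, min (Real.log (nd R (S0 ∪ A) x)) (Real.log θ) ≤
        ∑ x ∈ S0, ∑ s, F s x := by
  set S := S0 ∪ A with hS
  set R' : V → V → Prop := fun x y => R x y ∧ x ∈ S ∧ y ∈ S with hR'
  have hR's : ∀ x y, R' x y → R' y x := fun x y h => ⟨hR x y h.1, h.2.2, h.2.1⟩
  set K := ker R' with hK
  have hK0 : ∀ x y, 0 ≤ K x y := ker_nonneg R'
  have hKs : ∀ x y, K x y = K y x := ker_symm hR's
  have hKle : ∀ x y, K x y ≤ ker R x y := by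
    intro x y
    simp only [hK]
    unfold ker
    by_cases h : R' x y
    · rw [if_pos h, if_pos h.1]
    · rw [if_neg h]; split_ifs <;> positivity
  have hdgS : ∀ x ∈ S, dg K x = nd R S x := by
    intro x hx
    rw [nd_eq_sum]
    unfold dg
    rw [← Finset.sum_subset (Finset.subset_univ S)]
    · apply Finset.sum_congr rfl
      intro y hy
      simp only [hK]
      unfold ker
      by_cases h : R x y
      · rw [if_pos h, if_pos ⟨h, hx, hy⟩]
      · rw [if_neg h, if_neg (fun h' => h h'.1)]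
    · intro y _ hy
      simp only [hK]
      unfold ker
      rw [if_neg (fun h' => hy h'.2.2)]
  have hdgN : ∀ x, x ∉ S → dg K x = 0 := by
    intro x hx
    unfold dg
    apply Finset.sum_eq_zero
    intro y _
    simp only [hK]
    unfold ker
    rw [if_neg (fun h' => hx h'.2.1)]
  have hsubS : S0 ⊆ S := Finset.subset_union_left
  set u : V → ℝ := fun x => min (Real.log (dg K x)) (Real.log θ) with hu
  have hu1 : ∀ x, 0 < dg K x → u x ≤ Real.log (dg K x) := fun x _ => min_le_left _ _
  have hu2 : ∀ x, 0 < dg K x → u x ≤ Real.log θ := fun x _ => min_le_right _ _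
  -- rearrangement
  set g : V → ℝ := fun x => if x ∈ S0 then 1 / dg K x else 0 with hg
  have hopp : ∀ x y, 0 < dg K x → 0 < dg K y → (g x - g y) * (u x - u y) ≤ 0 := by
    -- monotonicity for two points of S0
    have hmono : ∀ x y, 0 < dg K x → 0 < dg K y → x ∈ S0 → y ∈ S0 → dg K x ≤ dg K y →
        0 ≤ (g x - g y) ∧ (u x - u y) ≤ 0 := by
      intro x y hx hy hxS hyS hle
      constructor
      · simp only [hg, if_pos hxS, if_pos hyS]
        have := one_div_le_one_div_of_le hx hle
        linarith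
      · have : u x ≤ u y := min_le_min_right _ (Real.log_le_log hx hle)
        linarith
    have hmix : ∀ x y, 0 < dg K x → 0 < dg K y → x ∈ S0 → y ∉ S0 →
        0 ≤ (g x - g y) ∧ (u x - u y) ≤ 0 := by
      intro x y hx hy hxS hyS
      have hyS' : y ∈ S := by
        by_contra h
        rw [hdgN y h] at hy
        exact lt_irrefl _ hy
      have hyA : y ∈ A := (Finset.mem_union.mp hyS').resolve_left hyS
      constructor
      · simp only [hg, if_pos hxS, if_neg hyS]
        have : 0 < 1 / dg K x := by positivity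
        linarith
      · have h1 : u y = Real.log θ := by
          simp only [hu]
          apply min_eq_right
          rw [hdgS y hyS']
          exact Real.log_le_log hθ (hA y hyA)
        rw [h1]
        have := hu2 x hx
        linarith
    intro x y hx hy
    by_cases hxS : x ∈ S0
    · by_cases hyS : y ∈ S0
      · rcases le_total (dg K x) (dg K y) with h | h
        · have := hmono x y hx hy hxS hyS h
          exact mul_nonpos_of_nonneg_of_nonpos this.1 this.2
        · have := hmono y x hy hx hyS hxS h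
          nlinarith [this.1, this.2]
      · have := hmix x y hx hy hxS hyS
        exact mul_nonpos_of_nonneg_of_nonpos this.1 this.2
    · by_cases hyS : y ∈ S0
      · have := hmix y x hy hx hyS hxS
        nlinarith [this.1, this.2]
      · simp only [hg, if_neg hxS, if_neg hyS]
        simp
  have hdg0 : ∀ x ∈ S0, 0 < dg K x := fun x hx => by rw [hdgS x (hsubS hx)]; exact hS0 x hx
  have hσ : ∀ f : V → ℝ, ∑ x, dg K x * g x * f x = ∑ x ∈ S0, f x := by
    intro f
    rw [← Finset.sum_subset (Finset.subset_univ S0)]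
    · apply Finset.sum_congr rfl
      intro x hx
      simp only [hg, if_pos hx]
      have := (hdg0 x hx).ne'
      field_simp
    · intro x _ hx
      simp only [hg, if_neg hx]
      ring
  have hre : ∀ j : ℕ, ∑ x ∈ S0, u x ≤ ∑ x ∈ S0, ((PP K)^[j] u) x := by
    intro j
    have := rearr hK0 hKs u g hopp j
    rwa [hσ, hσ] at this
  have hT1 : ∀ s, (T s).sz * ∑ x ∈ S0, u x ≤ ∑ x ∈ S0, AA K u (T s) x := by
    intro s
    have h1 := sum_iterate_AA K u (fun x => if x ∈ S0 then (1 : ℝ) else 0) (∑ x ∈ S0, u x) (by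
      intro j
      refine (hre j).trans (le_of_eq ?_)
      simp only [ite_mul, one_mul, zero_mul, Finset.sum_ite_mem, Finset.univ_inter]) (T s) 0
    refine h1.trans (le_of_eq ?_)
    simp only [ite_mul, one_mul, zero_mul, Finset.sum_ite_mem, Finset.univ_inter,
      Function.iterate_zero, id_eq]
  refine ⟨fun s x => AA K u (T s) x, ?_, ?_, ?_⟩
  · intro x hx s
    exact (exp_AA_le hK0 hKs hu1 (T s) x (hdg0 x hx)).trans (hh_mono hK0 hKle (T s) x)
  · intro x hx s
    exact AA_le hK0 hKs hu2 (T s) x (hdg0 x hx)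
  · have h1 : ∑ x ∈ S0, min (Real.log (nd R S x)) (Real.log θ) = ∑ x ∈ S0, u x := by
      apply Finset.sum_congr rfl
      intro x hx
      simp only [hu]
      rw [hdgS x (hsubS hx)]
    rw [h1, Finset.sum_comm]
    have h2 := Finset.sum_le_sum (s := Finset.univ) fun s _ => hT1 s
    refine le_trans (le_of_eq ?_) h2
    rw [← Finset.sum_mul]
    push_cast
    rfl

variable [Nonempty V]

lemma log_ge_of {p a b u τ γ : ℝ} (hp : 0 < p) (ha : 0 ≤ a) (hb : 0 ≤ b) (hu : 0 < u)
    (hz1 : p + a - b ≤ u + 2 * τ) (hz0 : u / 2 ≤ p + a - b) (hτ : 0 ≤ τ) (_hγ : 0 < γ) :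
    Real.log p + a / (u + 2 * τ) - b * (2 / u) ≤ Real.log (p + a - b) := by
  have hz : 0 < p + a - b := by linarith
  have h1 := Real.one_sub_inv_le_log_of_pos (show 0 < (p + a - b) / p by positivity)
  rw [Real.log_div hz.ne' hp.ne', inv_div] at h1
  have h2 : 1 - p / (p + a - b) = a / (p + a - b) - b / (p + a - b) := by field_simp; ring
  rw [h2] at h1
  have h3 : a / (u + 2 * τ) ≤ a / (p + a - b) := div_le_div_of_nonneg_left ha hz hz1
  have h4 : b / (p + a - b) ≤ b / (u / 2) := div_le_div_of_nonneg_left hb (by positivity) hz0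
  have h5 : b / (u / 2) = b * (2 / u) := by field_simp
  rw [h5] at h4
  linarith

/-- sum of the truncated logarithms -/
lemma trunc_sum {q : ℕ} (hq : 3 ≤ q) {γ τ : ℝ} (hγ : 0 < γ) (hγ1 : γ ≤ 1 / (16 * q))
    (hτ : 0 < τ) (hτ1 : τ ≤ γ / 16)
    {R B : V → V → Prop} (hRB : ∀ x y, B x y ↔ ¬ R x y) (hR : ∀ x y, R x y → R y x)
    {P : Fin q → Finset V} (hP : Str q γ τ R B P) (A : Finset V)
    (hAd : Disjoint (Finset.univ.biUnion P) A)
    (hA : ∀ x ∈ A, 1 / (q : ℝ) + γ / 4 ≤ nd R (Finset.univ.biUnion P) x) :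
    (Fintype.card V : ℝ) * (ms (Finset.univ.biUnion P) * Real.log (1 / q) +
      (q * γ / 16 * ms A - (1 - ms (Finset.univ.biUnion P) - ms A) -
        2 * q * ∑ i, ed B (P i) (P i))) ≤
      ∑ x ∈ Finset.univ.biUnion P, min (Real.log (nd R (Finset.univ.biUnion P ∪ A) x))
        (Real.log (1 / (q : ℝ) + γ / 4)) := by
  have hq' : (3 : ℝ) ≤ q := by exact_mod_cast hq
  have hq0 : (0 : ℝ) < q := by linarith
  have hn : (0 : ℝ) < (Fintype.card V : ℝ) := card_pos'
  set n : ℝ := (Fintype.card V : ℝ) with hndef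
  set S := Finset.univ.biUnion P with hS
  set u : ℝ := 1 / (q : ℝ) with hu
  have hu0 : 0 < u := by positivity
  have hu1 : u ≤ 1 / 3 := by
    rw [hu]; exact one_div_le_one_div_of_le (by norm_num) hq'
  have hγu : γ ≤ u / 16 := by
    have : 1 / (16 * (q : ℝ)) = u / 16 := by rw [hu]; field_simp
    rw [← this]; exact hγ1
  have hqu : (q : ℝ) * u = 1 := by rw [hu]; field_simp
  have hmsA : ms A ≤ τ := by
    have h1 := ms_union_disj hAd
    have h2 := ms_le_one (S ∪ A)
    have h3 := hP.total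
    linarith
  have hmsA0 := ms_nonneg A
  -- pointwise bound
  have hpt : ∀ i, ∀ x ∈ P i, Real.log (ms (P i)) + nd R A x / (u + 2 * τ) -
      nd B (P i) x * (2 / u) ≤ min (Real.log (nd R (S ∪ A) x)) (Real.log (u + γ / 4)) := by
    intro i x hx
    have a1 : 0 ≤ nd R A x := nd_nonneg _ _ _
    have a2 : nd R A x ≤ τ := (nd_le_ms _ _ _).trans hmsA
    have a3 : 0 ≤ nd B (P i) x := nd_nonneg _ _ _
    have a4 := hP.own i x hx
    have a5 := hP.size_lo i
    have a6 := hP.size_hi i
    have a7 := nB_eq hRB (P i) x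
    have a8 : nd R (S ∪ A) x = nd R S x + nd R A x := nd_union_disj R hAd x
    have a9 : nd R (P i) x ≤ nd R S x := by
      apply nd_mono
      intro y hy
      exact Finset.mem_biUnion.mpr ⟨i, Finset.mem_univ _, hy⟩
    have hz0 : u / 2 ≤ ms (P i) + nd R A x - nd B (P i) x := by linarith
    have hz1 : ms (P i) + nd R A x - nd B (P i) x ≤ u + 2 * τ := by linarith
    have hkey := log_ge_of (p := ms (P i)) (a := nd R A x) (b := nd B (P i) x) (u := u) (τ := τ)
      (γ := γ) (by linarith) a1 a3 hu0 hz1 hz0 hτ.le hγ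
    refine hkey.trans ?_
    apply le_min
    · apply Real.log_le_log (by linarith)
      rw [a8]; linarith
    · apply Real.log_le_log (by linarith)
      linarith
  -- sum over the parts
  have hsum : ∑ x ∈ S, min (Real.log (nd R (S ∪ A) x)) (Real.log (u + γ / 4)) =
      ∑ i, ∑ x ∈ P i, min (Real.log (nd R (S ∪ A) x)) (Real.log (u + γ / 4)) := by
    rw [hS, Finset.sum_biUnion (fun i _ j _ hij => hP.disj i j hij)]
  rw [hsum]
  have h1 : ∀ i, n * (ms (P i) * Real.log (ms (P i)) + ed R (P i) A / (u + 2 * τ) -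
      ed B (P i) (P i) * (2 / u)) ≤
      ∑ x ∈ P i, min (Real.log (nd R (S ∪ A) x)) (Real.log (u + γ / 4)) := by
    intro i
    refine le_trans (le_of_eq ?_) (Finset.sum_le_sum (hpt i))
    rw [Finset.sum_sub_distrib, Finset.sum_add_distrib, ← Finset.sum_div, ← Finset.sum_mul,
      sum_nd_eq, sum_nd_eq, Finset.sum_const, nsmul_eq_mul, card_eq_ms (P i)]
    ring
  refine le_trans ?_ (Finset.sum_le_sum fun i _ => h1 i)
  rw [← Finset.mul_sum]
  apply mul_le_mul_of_nonneg_left _ hn.le
  rw [Finset.sum_sub_distrib, Finset.sum_add_distrib, ← Finset.sum_div, ← Finset.sum_mul]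
  -- entropy term
  have hmsS : ms S = ∑ i, ms (P i) := ms_biUnion P hP.disj
  have h2 : ms S * Real.log u - (1 - ms S) ≤ ∑ i, ms (P i) * Real.log (ms (P i)) := by
    have h3 : ∀ i, ms (P i) * Real.log u + (ms (P i) - u) ≤ ms (P i) * Real.log (ms (P i)) := by
      intro i
      have a5 := hP.size_lo i
      have hpi : 0 < ms (P i) := by linarith
      have h4 := Real.one_sub_inv_le_log_of_pos (show 0 < ms (P i) / u by positivity)
      rw [Real.log_div hpi.ne' hu0.ne', inv_div] at h4
      have h5 := mul_le_mul_of_nonneg_left h4 hpi.le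
      have h6 : ms (P i) * (1 - u / ms (P i)) = ms (P i) - u := by field_simp
      rw [h6] at h5
      linarith
    refine le_trans (le_of_eq ?_) (Finset.sum_le_sum fun i _ => h3 i)
    rw [Finset.sum_add_distrib, Finset.sum_sub_distrib, ← Finset.sum_mul, ← hmsS,
      Finset.sum_const, Finset.card_univ, Fintype.card_fin, nsmul_eq_mul, hqu]
    ring
  -- the edges to A
  have h3 : (1 + q * γ / 16) * ms A ≤ (∑ i, ed R (P i) A) / (u + 2 * τ) := by
    have h4 : ∑ i, ed R (P i) A = ed R S A := by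
      unfold ed
      rw [← Finset.sum_div, hS, Finset.sum_biUnion (fun i _ j _ hij => hP.disj i j hij)]
    have h5 : (u + γ / 4) * ms A ≤ ed R S A := by
      rw [ed_symm hR S A]
      have h6 : n * ((u + γ / 4) * ms A) ≤ n * ed R A S := by
        rw [← sum_nd_eq]
        refine le_trans (le_of_eq ?_) (Finset.sum_le_sum hA)
        rw [Finset.sum_const, nsmul_eq_mul, card_eq_ms A]; ring
      exact le_of_mul_le_mul_left h6 hn
    rw [h4, le_div_iff₀ (by linarith)]
    refine le_trans ?_ h5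
    have h6 : (1 + q * γ / 16) * (u + 2 * τ) ≤ u + γ / 4 := by
      have h7 : (1 + q * γ / 16) * (u + 2 * τ) = u + (q * u) * γ / 16 + 2 * τ +
        (q * γ) * τ / 8 := by ring
      rw [h7, hqu]
      have h8 : (q : ℝ) * γ ≤ 1 / 16 := by
        calc (q : ℝ) * γ ≤ q * (1 / (16 * q)) := mul_le_mul_of_nonneg_left hγ1 hq0.le
          _ = 1 / 16 := by field_simp
      have h9 : (q : ℝ) * γ * τ ≤ 1 / 16 * τ := mul_le_mul_of_nonneg_right h8 hτ.le
      linarith
    have h7 := mul_le_mul_of_nonneg_right h6 hmsA0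
    linarith
  have h4 : (2 : ℝ) / u = 2 * q := by rw [hu]; field_simp
  rw [h4]
  linarith

end near4

end Pool.Agent.Lib.MP_6505eb_co
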