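import Mathlib
import Pool.Agent.Lib.MP_6505eb_co.Near4

set_option autoImplicit false

namespace Pool.Agent.Lib.MP_6505eb_co

open Classical

section near5

variable {V : Type} [Fintype V] [Nonempty V]

lemma td_ge_parts {R : V → V → Prop} {q : ℕ} (P : Fin q → Finset V)
    (hdisj : ∀ i j, i ≠ j → Disjoint (P i) (P j)) (T : Fin (q + 1) → RT)
    (F : Fin (q + 1) → V → ℝ)
    (hF : ∀ i, ∀ x ∈ P i, ∀ s, Real.exp (F s x) ≤ hh (ker R) (T s) x) :
    ∑ i, (∑ x ∈ Fintype.piFinset (fun _ : Fin (q + 1) => P i),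
      (if isCl R x then (1 : ℝ) else 0) * ∏ s, Real.exp (F s (x s))) /
      (Fintype.card V : ℝ) ^ (q + 1) ≤ td R T := by
  have hn : (0 : ℝ) < (Fintype.card V : ℝ) := card_pos'
  unfold td
  rw [← Finset.sum_div]
  apply div_le_div_of_nonneg_right _ (by positivity)
  have h1 : ∀ i, ∑ x ∈ Fintype.piFinset (fun _ : Fin (q + 1) => P i),
      (if isCl R x then (1 : ℝ) else 0) * ∏ s, Real.exp (F s (x s)) ≤
      ∑ x ∈ Fintype.piFinset (fun _ : Fin (q + 1) => P i),
      (if isCl R x then ∏ s, hh (ker R) (T s) (x s) else 0) := by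
    intro i
    apply Finset.sum_le_sum
    intro x hx
    rw [Fintype.mem_piFinset] at hx
    split_ifs
    · rw [one_mul]
      exact Finset.prod_le_prod (fun s _ => (Real.exp_pos _).le) fun s _ => hF i _ (hx s) s
    · simp
  refine (Finset.sum_le_sum fun i _ => h1 i).trans ?_
  have hd : ∀ i ∈ (Finset.univ : Finset (Fin q)), ∀ j ∈ (Finset.univ : Finset (Fin q)), i ≠ j →
      Disjoint (Fintype.piFinset (fun _ : Fin (q + 1) => P i))
        (Fintype.piFinset (fun _ : Fin (q + 1) => P j)) := by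
    intro i _ j _ hij
    rw [Finset.disjoint_left]
    intro x hx hx'
    rw [Fintype.mem_piFinset] at hx hx'
    exact (Finset.disjoint_left.mp (hdisj i j hij)) (hx 0) (hx' 0)
  rw [← Finset.sum_biUnion hd]
  apply Finset.sum_le_sum_of_subset_of_nonneg (Finset.subset_univ _)
  intro x _ _
  split_ifs
  · exact Finset.prod_nonneg fun s _ => hh_nonneg (ker_nonneg R) _ _
  · exact le_refl _

set_option maxHeartbeats 4000000 in
theorem red_lower {q : ℕ} (hq : 3 ≤ q) {γ τ : ℝ} (hγ : 0 < γ) (hγ1 : γ ≤ 1 / (16 * q))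
    (hτ : 0 < τ) (hτ1 : τ ≤ γ / 16)
    {R B : V → V → Prop} (hRB : ∀ x y, B x y ↔ ¬ R x y) (hR : ∀ x y, R x y → R y x)
    {P : Fin q → Finset V} (hP : Str q γ τ R B P) (A Bad : Finset V)
    (hA : A = Finset.univ.filter (fun x => x ∉ Finset.univ.biUnion P ∧
      1 / (q : ℝ) + γ / 4 ≤ nd R (Finset.univ.biUnion P) x))
    (hBad : Bad = Finset.univ.filter (fun x => x ∉ Finset.univ.biUnion P ∧
      nd R (Finset.univ.biUnion P) x < 1 / (q : ℝ) + γ / 4))
    (T : Fin (q + 1) → RT) (hN1 : q + 1 ≤ ∑ s, (T s).sz)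
    (hN2 : 2 * ((q : ℝ) + 1) ≤ ((∑ s, (T s).sz : ℕ) : ℝ) * (q * γ / 16)) :
    (1 / (q : ℝ)) ^ (q + ∑ s, (T s).sz) * (1 - 4 * ((∑ s, (T s).sz : ℕ) : ℝ) *
      (ms Bad + 2 * q * ∑ i, ed B (P i) (P i))) -
      ((q : ℝ) + 1) ^ 2 * (1 / (q : ℝ) + γ / 4) ^ (∑ s, (T s).sz) * ∑ i, ed B (P i) (P i) ≤
      td R T := by
  have hq' : (3 : ℝ) ≤ q := by exact_mod_cast hq
  have hq0 : (0 : ℝ) < q := by linarith
  have hn : (0 : ℝ) < (Fintype.card V : ℝ) := card_pos'
  set n : ℝ := (Fintype.card V : ℝ) with hndef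
  set N := ∑ s, (T s).sz with hN
  set S := Finset.univ.biUnion P with hS
  set u : ℝ := 1 / (q : ℝ) with hu
  set θ : ℝ := u + γ / 4 with hθ
  set Bin := ∑ i, ed B (P i) (P i) with hBin
  have hu0 : 0 < u := by positivity
  have hu1 : u ≤ 1 / 3 := by
    rw [hu]; exact one_div_le_one_div_of_le (by norm_num) hq'
  have hθ0 : 0 < θ := by positivity
  have hγu : γ ≤ u / 16 := by
    have : 1 / (16 * (q : ℝ)) = u / 16 := by rw [hu]; field_simp
    rw [← this]; exact hγ1
  have hqu : (q : ℝ) * u = 1 := by rw [hu]; field_simp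
  have hBin0 : 0 ≤ Bin := Finset.sum_nonneg fun i _ => ed_nonneg _ _ _
  have hAd : Disjoint S A := by
    rw [Finset.disjoint_left]
    intro x hx hx'
    rw [hA, Finset.mem_filter] at hx'
    exact hx'.2.1 hx
  have hAdeg : ∀ x ∈ A, θ ≤ nd R S x := by
    intro x hx
    rw [hA, Finset.mem_filter] at hx
    exact hx.2.2
  -- measure bookkeeping
  have htot : ms S + ms A + ms Bad = 1 := by
    have h1 : (Finset.univ : Finset V) = (S ∪ A) ∪ Bad := by
      ext x
      simp only [Finset.mem_univ, Finset.mem_union, true_iff]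
      by_cases h1 : x ∈ S
      · left; left; exact h1
      · by_cases h2 : θ ≤ nd R S x
        · left; right
          rw [hA, Finset.mem_filter]; exact ⟨Finset.mem_univ _, h1, h2⟩
        · right
          push Not at h2
          rw [hBad, Finset.mem_filter]; exact ⟨Finset.mem_univ _, h1, h2⟩
    have h2 : Disjoint (S ∪ A) Bad := by
      rw [Finset.disjoint_left]
      intro x hx hx'
      rw [hBad, Finset.mem_filter] at hx'
      rcases Finset.mem_union.mp hx with h | h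
      · exact hx'.2.1 h
      · have := hAdeg x h
        linarith [hx'.2.2]
    have h3 := ms_union_disj h2
    rw [← h1, ms_univ, ms_union_disj hAd] at h3
    linarith
  set s' := ms S with hs'
  have hs'1 : s' ≤ 1 := ms_le_one _
  have hs'0 : 1 / 2 ≤ s' := by
    have := hP.total
    linarith
  have hmsA0 := ms_nonneg A
  have hmsB0 := ms_nonneg Bad
  -- walks
  have hpos : ∀ x ∈ S, 0 < nd R (S ∪ A) x := by
    intro x hx
    obtain ⟨i, _, hxi⟩ := Finset.mem_biUnion.mp hx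
    have a4 := hP.own i x hxi
    have a5 := hP.size_lo i
    have a7 := nB_eq hRB (P i) x
    have a9 : nd R (P i) x ≤ nd R (S ∪ A) x := by
      apply nd_mono
      intro y hy
      exact Finset.mem_union_left _ (Finset.mem_biUnion.mpr ⟨i, Finset.mem_univ _, hy⟩)
    linarith
  obtain ⟨F, hF1, hF2, hF3⟩ := walk_near hR T S A hAd hθ0 hpos (fun x hx =>
    (hAdeg x hx).trans (nd_mono R Finset.subset_union_left x))
  have hPS : ∀ i, ∀ x ∈ P i, x ∈ S := fun i x hx =>
    Finset.mem_biUnion.mpr ⟨i, Finset.mem_univ _, hx⟩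
  have htd := td_ge_parts P hP.disj T F (fun i x hx s => hF1 x (hPS i x hx) s)
  -- parts
  have hne : ∀ i, (P i).Nonempty := by
    intro i
    rw [Finset.nonempty_iff_ne_empty]
    intro h
    have := hP.size_lo i
    rw [h] at this
    have h2 : ms (∅ : Finset V) = 0 := by unfold ms; simp
    rw [h2] at this
    linarith
  have hM : ∀ i, ∀ x : Fin (q + 1) → V, (∀ s, x s ∈ P i) →
      ∏ s, Real.exp (F s (x s)) ≤ θ ^ N := by
    intro i x hx
    rw [← Real.exp_sum]
    have h1 : ∑ s, F s (x s) ≤ N * Real.log θ := by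
      have h2 : ∑ s, F s (x s) ≤ ∑ s, ((T s).sz : ℝ) * Real.log θ :=
        Finset.sum_le_sum fun s _ => hF2 _ (hPS i _ (hx s)) s
      rw [← Finset.sum_mul] at h2
      rw [hN]; push_cast; exact h2
    calc Real.exp (∑ s, F s (x s)) ≤ Real.exp (N * Real.log θ) := Real.exp_le_exp.mpr h1
      _ = θ ^ N := by rw [Real.exp_nat_mul, Real.exp_log hθ0]
  have hparts : ∀ i, ms (P i) ^ (q + 1) *
      Real.exp ((∑ x ∈ P i, ∑ s, F s x) / (n * ms (P i))) -
      ((q + 1 : ℕ) : ℝ) ^ 2 * θ ^ N * ed B (P i) (P i) ≤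
      (∑ x ∈ Fintype.piFinset (fun _ : Fin (q + 1) => P i),
      (if isCl R x then (1 : ℝ) else 0) * ∏ s, Real.exp (F s (x s))) / n ^ (q + 1) :=
    fun i => part_sum hRB F (P i) (hne i) (hM i) (by positivity)
  have hsum1 := (Finset.sum_le_sum fun i _ => hparts i).trans htd
  rw [Finset.sum_sub_distrib, ← Finset.mul_sum] at hsum1
  -- Jensen over the parts
  set p : Fin q → ℝ := fun i => ms (P i) with hp
  have hp0 : ∀ i, 0 < p i := fun i => by have := hP.size_lo i; simp only [hp]; linarith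
  set z : Fin q → ℝ := fun i => q * Real.log (p i) + (∑ x ∈ P i, ∑ s, F s x) / (n * p i) with hz
  have hterm : ∀ i, ms (P i) ^ (q + 1) *
      Real.exp ((∑ x ∈ P i, ∑ s, F s x) / (n * ms (P i))) = p i * Real.exp (z i) := by
    intro i
    simp only [hz]
    rw [Real.exp_add, Real.exp_nat_mul, Real.exp_log (hp0 i), pow_succ]
    ring
  have hsp : ∑ i, p i = s' := (ms_biUnion P hP.disj).symm
  have hJ := wsum_exp_ge p z (fun i => (hp0 i).le) (by rw [hsp]; linarith)
  rw [hsp] at hJ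
  rw [Finset.sum_congr rfl fun i _ => hterm i] at hsum1
  -- the exponent
  set W := ∑ i, p i * z i with hW
  set X := ms Bad + 2 * q * Bin with hX
  have hX0 : 0 ≤ X := by positivity
  have hWlow : s' * (q * (Real.log s' + Real.log u)) +
      N * (s' * Real.log u + (q * γ / 16 * ms A - X)) ≤ W := by
    have h1 : W = q * ∑ i, p i * Real.log (p i) + (∑ x ∈ S, ∑ s, F s x) / n := by
      have h2 : ∑ x ∈ S, ∑ s, F s x = ∑ i, ∑ x ∈ P i, ∑ s, F s x := by
        rw [hS, Finset.sum_biUnion (fun i _ j _ hij => hP.disj i j hij)]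
      rw [h2, Finset.sum_div, Finset.mul_sum, ← Finset.sum_add_distrib, hW]
      apply Finset.sum_congr rfl
      intro i _
      simp only [hz]
      have := (hp0 i).ne'
      field_simp
    have h2 : s' * (Real.log s' + Real.log u) ≤ ∑ i, p i * Real.log (p i) := by
      set m := s' * u with hm
      have hm0 : 0 < m := by positivity
      have h3 : ∀ i, p i * Real.log m + (p i - m) ≤ p i * Real.log (p i) := by
        intro i
        have h4 := Real.one_sub_inv_le_log_of_pos (show 0 < p i / m from div_pos (hp0 i) hm0)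
        rw [Real.log_div (hp0 i).ne' hm0.ne', inv_div] at h4
        have h5 := mul_le_mul_of_nonneg_left h4 (hp0 i).le
        have h6 : p i * (1 - m / p i) = p i - m := by
          have := (hp0 i).ne'
          field_simp
        rw [h6] at h5
        linarith
      refine le_trans (le_of_eq ?_) (Finset.sum_le_sum fun i _ => h3 i)
      rw [Finset.sum_add_distrib, Finset.sum_sub_distrib, ← Finset.sum_mul, hsp,
        Finset.sum_const, Finset.card_univ, Fintype.card_fin, nsmul_eq_mul, hm,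
        Real.log_mul (by linarith) hu0.ne']
      have : (q : ℝ) * (s' * u) = s' * (q * u) := by ring
      rw [this, hqu]; ring
    have h3 : (N : ℝ) * (s' * Real.log u + (q * γ / 16 * ms A - X)) ≤
        (∑ x ∈ S, ∑ s, F s x) / n := by
      rw [le_div_iff₀ hn]
      refine le_trans ?_ hF3
      have h4 := trunc_sum hq hγ hγ1 hτ hτ1 hRB hR hP A hAd hAdeg
      rw [mul_assoc]
      apply mul_le_mul_of_nonneg_left _ (by positivity)
      refine le_trans (le_of_eq ?_) h4
      have h5 : 1 - ms S - ms A = ms Bad := by rw [← hs']; linarith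
      rw [h5, ← hu, ← hs', ← hBin, hX]
      ring
    rw [h1]
    have h4 := mul_le_mul_of_nonneg_left h2 hq0.le
    linarith
  have hs'pos : 0 < s' := by linarith
  have hexp : (q + N : ℕ) * Real.log u + (q * Real.log s' - 2 * N * X + N * (q * γ / 16) * ms A) ≤
      W / s' := by
    rw [le_div_iff₀ hs'pos]
    refine le_trans ?_ hWlow
    have h1 : (N : ℝ) * X ≤ (N * X) * (2 * s') := by
      have : 0 ≤ (N : ℝ) * X := by positivity
      nlinarith
    have h2 : (N * (q * γ / 16) * ms A) * s' ≤ (N * (q * γ / 16) * ms A) * 1 :=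
      mul_le_mul_of_nonneg_left hs'1 (by positivity)
    push_cast
    linarith
  have hlogs : -(2 * (1 - s')) ≤ Real.log s' := by
    have h1 := Real.one_sub_inv_le_log_of_pos hs'pos
    have h2 : -(2 * (1 - s')) ≤ 1 - s'⁻¹ := by
      have h3 : s'⁻¹ ≤ 2 := by
        rw [inv_le_comm₀ hs'pos (by norm_num)]; linarith
      have h4 : 1 - s'⁻¹ = -(s'⁻¹ * (1 - s')) := by field_simp; ring
      rw [h4]
      have h5 : s'⁻¹ * (1 - s') ≤ 2 * (1 - s') := mul_le_mul_of_nonneg_right h3 (by linarith)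
      linarith
    linarith
  have hfirst : u ^ (q + N) * (1 - 4 * (N : ℝ) * X) ≤ s' * Real.exp (W / s') := by
    have h1 : s' * Real.exp (W / s') = Real.exp (Real.log s' + W / s') := by
      rw [Real.exp_add, Real.exp_log hs'pos]
    rw [h1]
    have h2 : (q + N : ℕ) * Real.log u + (-(4 * (N : ℝ) * X)) ≤ Real.log s' + W / s' := by
      have h3 : ((q : ℝ) + 1) * (-(2 * (1 - s'))) ≤ ((q : ℝ) + 1) * Real.log s' :=
        mul_le_mul_of_nonneg_left hlogs (by positivity)
      have h4 : 1 - s' = ms A + ms Bad := by linarith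
      have h5 : ms Bad ≤ X := by
        rw [hX]
        have : 0 ≤ 2 * (q : ℝ) * Bin := by positivity
        linarith
      have h6 : ((q : ℝ) + 1) * X ≤ N * X := by
        apply mul_le_mul_of_nonneg_right _ hX0
        exact_mod_cast hN1
      have h7 : 2 * ((q : ℝ) + 1) * ms A ≤ N * (q * γ / 16) * ms A :=
        mul_le_mul_of_nonneg_right hN2 hmsA0
      have h8 : ((q : ℝ) + 1) * ms Bad ≤ ((q : ℝ) + 1) * X :=
        mul_le_mul_of_nonneg_left h5 (by positivity)
      rw [h4] at h3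
      linarith
    refine le_trans ?_ (Real.exp_le_exp.mpr h2)
    rw [Real.exp_add, Real.exp_nat_mul, Real.exp_log hu0]
    apply mul_le_mul_of_nonneg_left _ (by positivity)
    have := Real.add_one_le_exp (-(4 * (N : ℝ) * X))
    linarith
  have hk : ((q + 1 : ℕ) : ℝ) = (q : ℝ) + 1 := by push_cast; ring
  rw [hk] at hsum1
  linarith

end near5

lemma exp_beats (a b c : ℝ) (hc : 0 < c) : ∃ N₂ : ℕ, ∀ N : ℕ, N₂ ≤ N →
    (a * N + b) * (5 / 6 : ℝ) ^ N ≤ c := by
  have h1 : Filter.Tendsto (fun N : ℕ => (N : ℝ) ^ 1 * (5 / 6 : ℝ) ^ N) Filter.atTop (nhds 0) :=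
    tendsto_pow_const_mul_const_pow_of_abs_lt_one 1 (by rw [abs_of_pos] <;> norm_num)
  have h2 : Filter.Tendsto (fun N : ℕ => (5 / 6 : ℝ) ^ N) Filter.atTop (nhds 0) :=
    tendsto_pow_atTop_nhds_zero_of_lt_one (by norm_num) (by norm_num)
  have h3 : Filter.Tendsto (fun N : ℕ => (a * N + b) * (5 / 6 : ℝ) ^ N) Filter.atTop (nhds 0) := by
    have h4 := (h1.const_mul a).add (h2.const_mul b)
    simp only [pow_one, mul_zero, add_zero] at h4
    refine h4.congr (fun N => ?_)
    ring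
  have h5 := h3.eventually (gt_mem_nhds hc)
  obtain ⟨N₂, hN₂⟩ := Filter.eventually_atTop.mp h5
  exact ⟨N₂, fun N hN => (hN₂ N hN).le⟩

set_option maxHeartbeats 4000000 in
/-- **Near case.** -/
theorem near_main (q : ℕ) (hq : 3 ≤ q) : ∃ ε : ℝ, 0 < ε ∧ ∃ N₂ : ℕ,
    ∀ (V : Type) [Fintype V] [Nonempty V] (R B : V → V → Prop),
      (∀ x y, B x y ↔ ¬ R x y) → (∀ x y, R x y → R y x) → (∀ x y, B x y → B y x) →
      (∃ D : Finset V, cl B (q + 1) D ≤ ε ∧ 1 - ε ≤ ms D ∧ 1 - 1 / (q : ℝ) - ε ≤ ed B D D) →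
      ∀ T : Fin (q + 1) → RT, N₂ ≤ ∑ s, (T s).sz →
      (1 / (q : ℝ)) ^ (q + ∑ s, (T s).sz) ≤ td R T + td B T := by
  have hq' : (3 : ℝ) ≤ q := by exact_mod_cast hq
  have hq0 : (0 : ℝ) < q := by linarith
  set γ : ℝ := 1 / (16 * q) with hγ
  have hγ0 : 0 < γ := by positivity
  set c : ℝ := (γ / 4) ^ q / 2 with hc
  have hc0 : 0 < c := by positivity
  set τ : ℝ := min (γ / 16) (c / (q : ℝ) ^ 2) with hτ
  have hτ0 : 0 < τ := lt_min (by positivity) (by positivity)
  have hτ1 : τ ≤ γ / 16 := min_le_left _ _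
  have hτ2 : (q : ℝ) ^ 2 * τ ≤ (γ / 4) ^ q / 2 := by
    have h1 : τ ≤ c / (q : ℝ) ^ 2 := min_le_right _ _
    rw [le_div_iff₀ (by positivity)] at h1
    linarith
  set ε : ℝ := min (γ * τ / 36) (τ ^ 2 / 12) with hε
  have hε0 : 0 < ε := lt_min (by positivity) (by positivity)
  obtain ⟨κ, hκ0, hF⟩ := furedi (q - 1) ε hε0
  obtain ⟨N₂, hN₂⟩ := exp_beats (4 * (1 + 2 * q)) (((q : ℝ) + 1) ^ 2) c hc0
  refine ⟨min ε κ, lt_min hε0 hκ0,
    max N₂ (max (q + 1) ⌈2 * ((q : ℝ) + 1) / (q * γ / 16)⌉₊), ?_⟩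
  intro V _ _ R B hRB hR hB hD T hN
  obtain ⟨D, hD1, hD2, hD3⟩ := hD
  set N := ∑ s, (T s).sz with hNdef
  have hNa : N₂ ≤ N := (le_max_left _ _).trans hN
  have hNb : q + 1 ≤ N := ((le_max_left _ _).trans (le_max_right _ _)).trans hN
  have hNc : 2 * ((q : ℝ) + 1) ≤ (N : ℝ) * (q * γ / 16) := by
    have h1 : ⌈2 * ((q : ℝ) + 1) / (q * γ / 16)⌉₊ ≤ N :=
      ((le_max_right _ _).trans (le_max_right _ _)).trans hN
    have h2 : 2 * ((q : ℝ) + 1) / (q * γ / 16) ≤ N :=
      (Nat.le_ceil _).trans (by exact_mod_cast h1)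
    rwa [div_le_iff₀ (by positivity)] at h2
  have hcard : q - 1 + 2 = q + 1 := by omega
  obtain ⟨col, hcol, hsum⟩ := hF V B hB D (by rw [hcard]; exact hD1.trans (min_le_right _ _))
  obtain ⟨P, hP⟩ := struct_of_good hq hγ0 (by
      rw [hγ]; apply one_div_le_one_div_of_le (by positivity); linarith) hτ0 (by linarith) hε0
    (min_le_left _ _) (min_le_right _ _) hRB D
    (by have := min_le_left ε κ; linarith) (by have := min_le_left ε κ; linarith) col
    (fun x => by have := hcol x; omega) hsum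
  set A := Finset.univ.filter (fun x => x ∉ Finset.univ.biUnion P ∧
      1 / (q : ℝ) + γ / 4 ≤ nd R (Finset.univ.biUnion P) x) with hA
  set Bad := Finset.univ.filter (fun x => x ∉ Finset.univ.biUnion P ∧
      nd R (Finset.univ.biUnion P) x < 1 / (q : ℝ) + γ / 4) with hBad
  have hred := red_lower hq hγ0 (le_refl _) hτ0 hτ1 hRB hR hP A Bad hA hBad T hNb hNc
  rw [← hNdef] at hred
  obtain ⟨hb1, hb2, hb3⟩ := blue_cliques hq hγ0 (le_refl _) hτ0 (by linarith) hτ2 hRB hP Bad (by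
    intro x hx
    rw [hBad, Finset.mem_filter] at hx
    exact hx.2)
  rw [← hc] at hb2 hb3
  set κ' := cl B (q + 1) (Finset.univ.biUnion P ∪ Bad) with hκ'
  have hκ'0 : 0 ≤ κ' := cl_nonneg _ _ _
  have hblue : (1 / 2 : ℝ) ^ N * κ' ≤ td B T := by
    apply glue hB T (by positivity)
    intro x hx
    rw [hNdef, ← Finset.prod_pow_eq_pow_sum]
    exact Finset.prod_le_prod (fun s _ => by positivity)
      fun s _ => hh_ge_closed B (by norm_num) (Finset.univ.biUnion P)
        (fun y hy => hb1 y (Finset.mem_union_left _ hy)) (T s) x (hb1 x hx)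
  set Bin := ∑ i, ed B (P i) (P i) with hBin
  have hBin0 : 0 ≤ Bin := Finset.sum_nonneg fun i _ => ed_nonneg _ _ _
  set u : ℝ := 1 / (q : ℝ) with hu
  have hu0 : 0 < u := by positivity
  have hu1 : u ≤ 1 / 3 := by
    rw [hu]; exact one_div_le_one_div_of_le (by norm_num) hq'
  have hγ1 : γ ≤ 1 / 48 := by
    rw [hγ]; apply one_div_le_one_div_of_le (by norm_num); linarith
  -- bounds on powers
  have hp1 : u ^ (q + N) ≤ (5 / 12 : ℝ) ^ N := by
    rw [pow_add]
    calc u ^ q * u ^ N ≤ 1 * (5 / 12 : ℝ) ^ N := by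
          apply mul_le_mul (pow_le_one₀ hu0.le (by linarith))
            (pow_le_pow_left₀ hu0.le (by linarith) N) (by positivity) (by norm_num)
      _ = (5 / 12 : ℝ) ^ N := one_mul _
  have hp2 : (u + γ / 4) ^ N ≤ (5 / 12 : ℝ) ^ N :=
    pow_le_pow_left₀ (by positivity) (by linarith) N
  have hp3 : (4 * (1 + 2 * q) * N + ((q : ℝ) + 1) ^ 2) * (5 / 12 : ℝ) ^ N ≤ c * (1 / 2) ^ N := by
    have h1 := hN₂ N hNa
    have h2 : (5 / 12 : ℝ) ^ N = (5 / 6 : ℝ) ^ N * (1 / 2) ^ N := by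
      rw [← mul_pow]; norm_num
    rw [h2, ← mul_assoc]
    exact mul_le_mul_of_nonneg_right h1 (by positivity)
  -- combine
  have hX : ms Bad + 2 * q * Bin ≤ (1 + 2 * q) * (κ' / c) := by
    have h1 : ms Bad ≤ κ' / c := by rw [le_div_iff₀ hc0]; linarith
    have h2 : Bin ≤ κ' / c := by rw [le_div_iff₀ hc0]; linarith
    have h3 : 2 * (q : ℝ) * Bin ≤ 2 * q * (κ' / c) := mul_le_mul_of_nonneg_left h2 (by positivity)
    linarith
  have hBin1 : Bin ≤ κ' / c := by rw [le_div_iff₀ hc0]; linarith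
  have e1 : u ^ (q + N) * (4 * (N : ℝ) * (ms Bad + 2 * q * Bin)) ≤
      (5 / 12 : ℝ) ^ N * (4 * (N : ℝ) * ((1 + 2 * q) * (κ' / c))) := by
    apply mul_le_mul hp1 _ _ (by positivity)
    · exact mul_le_mul_of_nonneg_left hX (by positivity)
    · have := ms_nonneg Bad
      positivity
  have e2 : ((q : ℝ) + 1) ^ 2 * (u + γ / 4) ^ N * Bin ≤
      ((q : ℝ) + 1) ^ 2 * (5 / 12 : ℝ) ^ N * (κ' / c) := by
    apply mul_le_mul _ hBin1 hBin0 (by positivity)
    exact mul_le_mul_of_nonneg_left hp2 (by positivity)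
  have e3 : (5 / 12 : ℝ) ^ N * (4 * (N : ℝ) * ((1 + 2 * q) * (κ' / c))) +
      ((q : ℝ) + 1) ^ 2 * (5 / 12 : ℝ) ^ N * (κ' / c) =
      ((4 * (1 + 2 * q) * N + ((q : ℝ) + 1) ^ 2) * (5 / 12 : ℝ) ^ N) * (κ' / c) := by ring
  have e4 : ((4 * (1 + 2 * q) * N + ((q : ℝ) + 1) ^ 2) * (5 / 12 : ℝ) ^ N) * (κ' / c) ≤
      (c * (1 / 2) ^ N) * (κ' / c) := mul_le_mul_of_nonneg_right hp3 (by positivity)
  have e5 : (c * (1 / 2 : ℝ) ^ N) * (κ' / c) = (1 / 2) ^ N * κ' := by field_simp
  have e6 : u ^ (q + N) * (1 - 4 * (N : ℝ) * (ms Bad + 2 * q * Bin)) =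
      u ^ (q + N) - u ^ (q + N) * (4 * (N : ℝ) * (ms Bad + 2 * q * Bin)) := by ring
  rw [e6] at hred
  linarith

/-- **The analytic core**: the bonbon inequality for weighted clique-with-trees densities. -/
theorem bonbon_density (q : ℕ) (hq : 3 ≤ q) : ∃ N₀ n₀ : ℕ,
    ∀ (V : Type) [Fintype V] [Nonempty V] (R B : V → V → Prop),
      (∀ x y, B x y ↔ ¬ R x y) → (∀ x y, R x y → R y x) → (∀ x y, B x y → B y x) →
      n₀ ≤ Fintype.card V → ∀ T : Fin (q + 1) → RT, N₀ ≤ ∑ s, (T s).sz →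
      (1 / (q : ℝ)) ^ (q + ∑ s, (T s).sz) ≤ td R T + td B T := by
  obtain ⟨ε, hε, N₂, hnear⟩ := near_main q hq
  set e := min (ε / 130) (1 / 10000) with he
  have he0 : 0 < e := lt_min (by positivity) (by norm_num)
  have he1 : e ≤ 1 / 10000 := min_le_right _ _
  have he2 : e ≤ ε / 130 := min_le_left _ _
  obtain ⟨N₁, n₁, hfar⟩ := far_main q hq e he0 he1
  refine ⟨max N₁ N₂, n₁, ?_⟩
  intro V _ _ R B hRB hR hB hcard T hN
  by_contra hcon
  push Not at hcon
  rcases hfar V R B hRB hR hB hcard T ((le_max_left _ _).trans hN) hcon with h | h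
  · obtain ⟨D, h1, h2, h3⟩ := h
    have := hnear V R B hRB hR hB ⟨D, by linarith, by linarith, by linarith⟩ T
      ((le_max_right _ _).trans hN)
    linarith
  · obtain ⟨D, h1, h2, h3⟩ := h
    have hRB' : ∀ x y, R x y ↔ ¬ B x y := fun x y => by rw [hRB x y, not_not]
    have := hnear V B R hRB' hB hR ⟨D, by linarith, by linarith, by linarith⟩ T
      ((le_max_right _ _).trans hN)
    linarith

end Pool.Agent.Lib.MP_6505eb_co
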