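import Mathlib
import Pool.Agent.Lib.MP_6505eb_co.Tools

set_option autoImplicit false

namespace Pool.Agent.Lib.MP_6505eb_co

open Classical

section elim

variable {ι : Type} [Fintype ι] [DecidableEq ι] {V : Type} [Fintype V] [Nonempty V]

/-- resampling one coordinate -/
lemma resample (a : ι) (F : (ι → V) → ℝ) :
    ∑ f : ι → V, ∑ y : V, F (Function.update f a y) = (Fintype.card V : ℝ) * ∑ f, F f := by
  have hinv : Function.Involutive (fun p : (ι → V) × V => (Function.update p.1 a p.2, p.1 a)) := by
    rintro ⟨f, y⟩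
    simp
  have h1 : ∑ p : (ι → V) × V, F (Function.update p.1 a p.2) = ∑ p : (ι → V) × V, F p.1 :=
    Fintype.sum_equiv (hinv.toPerm _) _ _ (fun p => rfl)
  rw [Fintype.sum_prod_type, Fintype.sum_prod_type] at h1
  rw [h1]
  simp only [Finset.sum_const, Finset.card_univ, nsmul_eq_mul]
  rw [← Finset.mul_sum]

lemma integrate_out (a c : ι) (hac : c ≠ a) (G : (ι → V) → ℝ)
    (hG : ∀ f y, G (Function.update f a y) = G f) (b : V → V → ℝ) :
    ∑ f : ι → V, G f * b (f c) (f a) =
      ∑ f : ι → V, G f * ((∑ y, b (f c) y) / (Fintype.card V : ℝ)) := by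
  have hn : (0 : ℝ) < (Fintype.card V : ℝ) := card_pos'
  have h1 := resample a (fun f => G f * b (f c) (f a))
  have h2 : ∀ f : ι → V, ∑ y : V, G (Function.update f a y) *
      b (Function.update f a y c) (Function.update f a y a) = G f * ∑ y, b (f c) y := by
    intro f
    rw [Finset.mul_sum]
    apply Finset.sum_congr rfl
    intro y _
    rw [hG, Function.update_of_ne hac, Function.update_self]
  simp only [h2] at h1
  have h3 : ∑ f : ι → V, G f * ((∑ y, b (f c) y) / (Fintype.card V : ℝ)) =
      (∑ f : ι → V, G f * ∑ y, b (f c) y) / (Fintype.card V : ℝ) := by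
    rw [Finset.sum_div]
    exact Finset.sum_congr rfl fun f _ => by ring
  rw [h3, h1]
  field_simp

end elim

/-- Elimination of tree vertices, leaves first. -/
theorem elim_trees {ι : Type} [Fintype ι] [DecidableEq ι] (S : Finset ι) (d : ι → ℕ) (π : ι → ι) :
    ∀ W : Finset ι, Disjoint S W → (∀ v ∈ W, π v ∈ S ∪ W ∧ d (π v) < d v) →
    ∀ T : ι → RT, ∃ T' : ι → RT,
      (∑ s ∈ S, (T' s).sz = ∑ u ∈ S ∪ W, (T u).sz + W.card) ∧
      ∀ (V : Type) [Fintype V] [Nonempty V] (R : V → V → Prop) (Φ : (ι → V) → ℝ),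
        (∀ v ∈ W, ∀ f y, Φ (Function.update f v y) = Φ f) →
        ∑ f : ι → V, Φ f * (∏ u ∈ S ∪ W, hh (ker R) (T u) (f u)) *
          ∏ v ∈ W, (if R (f (π v)) (f v) then (1 : ℝ) else 0) =
        ∑ f : ι → V, Φ f * ∏ s ∈ S, hh (ker R) (T' s) (f s) := by
  intro W
  induction W using Finset.induction_on_max_value d with
  | empty =>
    intro _ _ T
    refine ⟨T, by simp, ?_⟩
    intro V _ _ R Φ _
    simp
  | insert a W ha hmax ih =>
    intro hdisj hπ T
    have hdW : Disjoint S W := Finset.disjoint_of_subset_right (Finset.subset_insert a W) hdisj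
    have haS : a ∉ S := fun h =>
      (Finset.disjoint_left.mp hdisj) h (Finset.mem_insert_self a W)
    have hπa := hπ a (Finset.mem_insert_self a W)
    have hπane : π a ≠ a := fun h => by
      have := hπa.2; rw [h] at this; exact lt_irrefl _ this
    have hπamem : π a ∈ S ∪ W := by
      have h1 := hπa.1
      simp only [Finset.mem_union, Finset.mem_insert] at h1 ⊢
      tauto
    have hπW : ∀ v ∈ W, π v ∈ S ∪ W ∧ d (π v) < d v := by
      intro v hv
      have h1 := hπ v (Finset.mem_insert_of_mem hv)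
      refine ⟨?_, h1.2⟩
      have hne : π v ≠ a := by
        intro h
        have h2 := h1.2
        rw [h] at h2
        have := hmax v hv
        omega
      have h3 := h1.1
      simp only [Finset.mem_union, Finset.mem_insert] at h3 ⊢
      tauto
    set T1 : ι → RT := Function.update T (π a) (RT.graft (T (π a)) (T a)) with hT1
    obtain ⟨T', hT'1, hT'2⟩ := ih hdW hπW T1
    have haSW : a ∉ S ∪ W := by
      rw [Finset.mem_union]; tauto
    have hSW : S ∪ insert a W = insert a (S ∪ W) := by
      rw [Finset.union_insert]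
    refine ⟨T', ?_, ?_⟩
    · rw [hT'1, hSW, Finset.sum_insert haSW, Finset.card_insert_of_notMem ha]
      have h1 : ∑ u ∈ S ∪ W, (T1 u).sz = ∑ u ∈ S ∪ W, (T u).sz + (T a).sz + 1 := by
        rw [← Finset.add_sum_erase _ _ hπamem, ← Finset.add_sum_erase (S ∪ W) (fun u => (T u).sz)
          hπamem]
        have h2 : ∑ u ∈ (S ∪ W).erase (π a), (T1 u).sz = ∑ u ∈ (S ∪ W).erase (π a), (T u).sz := by
          apply Finset.sum_congr rfl
          intro u hu
          rw [hT1, Function.update_of_ne (Finset.mem_erase.mp hu).1]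
        have h3 : (T1 (π a)).sz = (T (π a)).sz + (T a).sz + 1 := by
          rw [hT1, Function.update_self]; rfl
        rw [h2, h3]; omega
      rw [h1]; omega
    · intro V _ _ R Φ hΦ
      have hn : (0 : ℝ) < (Fintype.card V : ℝ) := card_pos'
      rw [← hT'2 V R Φ (fun v hv => hΦ v (Finset.mem_insert_of_mem hv))]
      set G : (ι → V) → ℝ := fun f => Φ f * (∏ u ∈ S ∪ W, hh (ker R) (T u) (f u)) *
          ∏ v ∈ W, (if R (f (π v)) (f v) then (1 : ℝ) else 0) with hG
      set b : V → V → ℝ := fun x y => hh (ker R) (T a) y * (if R x y then (1 : ℝ) else 0) with hb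
      have hGinv : ∀ f y, G (Function.update f a y) = G f := by
        intro f y
        simp only [hG]
        rw [hΦ a (Finset.mem_insert_self a W)]
        congr 1
        · congr 1
          apply Finset.prod_congr rfl
          intro u hu
          rw [Function.update_of_ne (fun h => haSW (by rw [← h]; exact hu))]
        · apply Finset.prod_congr rfl
          intro v hv
          have h1 : v ≠ a := fun h => ha (by rw [← h]; exact hv)
          have h2 : π v ≠ a := fun h => haSW (by rw [← h]; exact (hπW v hv).1)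
          rw [Function.update_of_ne h1, Function.update_of_ne h2]
      have h1 : ∀ f : ι → V, Φ f * (∏ u ∈ S ∪ insert a W, hh (ker R) (T u) (f u)) *
          ∏ v ∈ insert a W, (if R (f (π v)) (f v) then (1 : ℝ) else 0) =
          G f * b (f (π a)) (f a) := by
        intro f
        rw [hSW, Finset.prod_insert haSW, Finset.prod_insert ha]
        simp only [hG, hb]
        ring
      rw [Finset.sum_congr rfl fun f _ => h1 f, integrate_out a (π a) hπane G hGinv b]
      apply Finset.sum_congr rfl
      intro f _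
      have h2 : (∑ y, b (f (π a)) y) / (Fintype.card V : ℝ) =
          ∑ y, ker R (f (π a)) y * hh (ker R) (T a) y := by
        rw [Finset.sum_div]
        apply Finset.sum_congr rfl
        intro y _
        simp only [hb]
        unfold ker
        split_ifs <;> ring
      have h3 : ∏ u ∈ S ∪ W, hh (ker R) (T1 u) (f u) =
          (∏ u ∈ S ∪ W, hh (ker R) (T u) (f u)) *
          ∑ y, ker R (f (π a)) y * hh (ker R) (T a) y := by
        rw [← Finset.mul_prod_erase _ _ hπamem, ← Finset.mul_prod_erase (S ∪ W)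
          (fun u => hh (ker R) (T u) (f u)) hπamem]
        have h4 : ∏ u ∈ (S ∪ W).erase (π a), hh (ker R) (T1 u) (f u) =
            ∏ u ∈ (S ∪ W).erase (π a), hh (ker R) (T u) (f u) := by
          apply Finset.prod_congr rfl
          intro u hu
          rw [hT1, Function.update_of_ne (Finset.mem_erase.mp hu).1]
        rw [h4, hT1, Function.update_self]
        simp only [hh]
        ring
      rw [h2, h3]
      simp only [hG]
      ring

/-- restriction to the clique coordinates -/
lemma sum_restrict {ι : Type} [Fintype ι] [DecidableEq ι] {V : Type} [Fintype V] [Nonempty V] (S : Finset ι)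
    {k : ℕ} (e : Fin k ≃ S) (Ψ : (Fin k → V) → ℝ) :
    ∑ f : ι → V, Ψ (fun i => f (e i)) =
      (Fintype.card V : ℝ) ^ (Fintype.card ι - k) * ∑ x : Fin k → V, Ψ x := by
  have h1 : ∑ f : ι → V, Ψ (fun i => f (e i)) =
      ∑ p : ({x // x ∈ S} → V) × ({x // x ∉ S} → V), Ψ (fun i => p.1 (e i)) :=
    Fintype.sum_equiv (Equiv.piEquivPiSubtypeProd (fun x => x ∈ S) (fun _ => V)) _ _
      (fun f => rfl)
  have h2 : ∑ g : {x // x ∈ S} → V, Ψ (fun i => g (e i)) = ∑ x : Fin k → V, Ψ x :=
    Fintype.sum_equiv (e.symm.arrowCongr (Equiv.refl V)) _ _ (fun g => rfl)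
  have hk : S.card = k := by
    have := Fintype.card_congr e
    simp at this
    exact this.symm
  have h3 : Fintype.card ({x // x ∉ S} → V) = (Fintype.card V) ^ (Fintype.card ι - k) := by
    rw [Fintype.card_fun]
    congr 1
    rw [Fintype.card_subtype_compl]
    simp [hk]
  rw [h1, Fintype.sum_prod_type]
  simp only [Finset.sum_const, Finset.card_univ, nsmul_eq_mul]
  rw [← Finset.mul_sum, h2, h3]
  push_cast
  rfl

/-- A connected graph with a `k`-clique and `C(k,2) + (t - k)` edges is the clique plus a parent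
map towards the clique. -/
theorem graph_struct {t k : ℕ} (H : SimpleGraph (Fin t)) (hc : H.Connected) (S : Finset (Fin t))
    (hS : S.card = k) (hk : 1 ≤ k) (hcl : ∀ u ∈ S, ∀ v ∈ S, u ≠ v → H.Adj u v)
    (hE : H.edgeSet.ncard = k.choose 2 + (t - k)) :
    ∃ (d : Fin t → ℕ) (π : Fin t → Fin t), (∀ v, v ∉ S → H.Adj (π v) v ∧ d (π v) < d v) ∧
      ∀ u v, H.Adj u v → (u ∈ S ∧ v ∈ S) ∨ (u ∉ S ∧ π u = v) ∨ (v ∉ S ∧ π v = u) := by
  have hSne : S.Nonempty := by
    rw [← Finset.card_pos, hS]; omega
  set d : Fin t → ℕ := fun v => S.inf' hSne (fun s => H.dist v s) with hd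
  -- parents
  have hpar : ∀ v, v ∉ S → ∃ u, H.Adj u v ∧ d u < d v := by
    intro v hv
    obtain ⟨s, hs, hds⟩ := Finset.exists_mem_eq_inf' hSne (fun s => H.dist v s)
    obtain ⟨p, hp⟩ := hc.exists_walk_length_eq_dist v s
    cases p with
    | nil => exact absurd hs hv
    | @cons _ w _ hadj p' =>
      refine ⟨w, hadj.symm, ?_⟩
      have h1 : d w ≤ H.dist w s := Finset.inf'_le _ hs
      have h2 : H.dist w s ≤ p'.length := SimpleGraph.dist_le p'
      have h3 : d v = H.dist v s := hds
      rw [SimpleGraph.Walk.length_cons] at hp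
      omega
  choose! π hπ using hpar
  refine ⟨d, π, hπ, ?_⟩
  -- the two kinds of edges
  set E1 : Finset (Sym2 (Fin t)) := S.offDiag.image Sym2.mk.uncurry with hE1
  set E2 : Finset (Sym2 (Fin t)) := (Finset.univ \ S).image (fun v => s(v, π v)) with hE2
  have hc1 : E1.card = k.choose 2 := by
    rw [hE1, ← hS]; exact Sym2.card_image_offDiag S
  have hc2 : E2.card = t - k := by
    rw [hE2, Finset.card_image_of_injOn, Finset.card_sdiff_of_subset (Finset.subset_univ S), hS,
      Finset.card_univ, Fintype.card_fin]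
    intro v hv w hw hvw
    rw [Finset.coe_sdiff, Finset.coe_univ] at hv hw
    have hv' : v ∉ S := hv.2
    have hw' : w ∉ S := hw.2
    simp only [Sym2.eq_iff] at hvw
    rcases hvw with h | h
    · exact h.1
    · exfalso
      have h1 := (hπ v hv').2
      have h2 := (hπ w hw').2
      rw [h.2] at h1
      rw [← h.1] at h2
      omega
  have hdisj : Disjoint E1 E2 := by
    rw [Finset.disjoint_left]
    intro x hx hx'
    rw [hE1, Finset.mem_image] at hx
    rw [hE2, Finset.mem_image] at hx'
    obtain ⟨⟨a, b⟩, hab, rfl⟩ := hx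
    obtain ⟨v, hv, hv2⟩ := hx'
    rw [Finset.mem_offDiag] at hab
    have hv' : v ∉ S := (Finset.mem_sdiff.mp hv).2
    have : v ∈ s(a, b) := by
      have h1 : v ∈ s(v, π v) := Sym2.mem_mk_left _ _
      rw [hv2] at h1
      exact h1
    rw [Sym2.mem_iff] at this
    rcases this with h | h
    · exact hv' (h ▸ hab.1)
    · exact hv' (h ▸ hab.2.1)
  have hsub : E1 ∪ E2 ⊆ H.edgeFinset := by
    intro x hx
    rw [SimpleGraph.mem_edgeFinset]
    rcases Finset.mem_union.mp hx with h | h
    · rw [hE1, Finset.mem_image] at h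
      obtain ⟨⟨a, b⟩, hab, rfl⟩ := h
      rw [Finset.mem_offDiag] at hab
      exact hcl a hab.1 b hab.2.1 hab.2.2
    · rw [hE2, Finset.mem_image] at h
      obtain ⟨v, hv, rfl⟩ := h
      exact (hπ v (Finset.mem_sdiff.mp hv).2).1.symm
  have hcardE : H.edgeFinset.card = k.choose 2 + (t - k) := by
    rw [← hE, ← SimpleGraph.coe_edgeFinset, Set.ncard_coe_finset]
  have heq : E1 ∪ E2 = H.edgeFinset := by
    apply Finset.eq_of_subset_of_card_le hsub
    rw [Finset.card_union_of_disjoint hdisj, hc1, hc2, hcardE]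
  intro u v huv
  have hmem : s(u, v) ∈ E1 ∪ E2 := by
    rw [heq, SimpleGraph.mem_edgeFinset]; exact huv
  rcases Finset.mem_union.mp hmem with h | h
  · left
    rw [hE1, Finset.mem_image] at h
    obtain ⟨⟨a, b⟩, hab, h2⟩ := h
    rw [Finset.mem_offDiag] at hab
    have h3 : s(a, b) = s(u, v) := h2
    rw [Sym2.eq_iff] at h3
    rcases h3 with h3 | h3
    · rw [← h3.1, ← h3.2]; exact ⟨hab.1, hab.2.1⟩
    · rw [← h3.1, ← h3.2]; exact ⟨hab.2.1, hab.1⟩
  · right
    rw [hE2, Finset.mem_image] at h
    obtain ⟨w, hw, h2⟩ := h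
    have hw' : w ∉ S := (Finset.mem_sdiff.mp hw).2
    rw [Sym2.eq_iff] at h2
    rcases h2 with h3 | h3
    · left; rw [← h3.1]; exact ⟨hw', h3.2⟩
    · right; rw [← h3.1]; exact ⟨hw', h3.2⟩

/-- Homomorphism counts of a generalized lollipop in terms of rooted trees. -/
theorem hom_count {t q : ℕ} (H : SimpleGraph (Fin t)) (hc : H.Connected) (S : Finset (Fin t))
    (hS : S.card = q + 1) (hcl : ∀ u ∈ S, ∀ v ∈ S, u ≠ v → H.Adj u v)
    (hE : H.edgeSet.ncard = (q + 1).choose 2 + (t - (q + 1))) :
    ∃ T : Fin (q + 1) → RT, ∑ s, (T s).sz = t - (q + 1) ∧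
      ∀ (V : Type) [Fintype V] [Nonempty V] (R : V → V → Prop), (∀ x y, R x y → R y x) →
        ((Finset.univ.filter (fun f : Fin t → V => ∀ u v, H.Adj u v → R (f u) (f v))).card : ℝ) =
          (Fintype.card V : ℝ) ^ t * td R T := by
  obtain ⟨d, π, hπ, hadj⟩ := graph_struct H hc S hS (by omega) hcl hE
  set W := Finset.univ \ S with hW
  have hSW : S ∪ W = Finset.univ := by
    rw [hW]; exact Finset.union_sdiff_of_subset (Finset.subset_univ S)
  obtain ⟨T', hT1, hT2⟩ := elim_trees S d π W Finset.disjoint_sdiff (by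
    intro v hv
    exact ⟨by rw [hSW]; exact Finset.mem_univ _, (hπ v (Finset.mem_sdiff.mp hv).2).2⟩)
    (fun _ => RT.pt)
  have hWcard : W.card = t - (q + 1) := by
    rw [hW, Finset.card_sdiff_of_subset (Finset.subset_univ S), hS, Finset.card_univ,
      Fintype.card_fin]
  have hqt : q + 1 ≤ t := by
    rw [← hS]
    have := Finset.card_le_univ S
    rwa [Fintype.card_fin] at this
  set e : Fin (q + 1) ≃ S := (S.equivFinOfCardEq hS).symm with he
  refine ⟨fun i => T' (e i), ?_, ?_⟩
  · have h1 : ∑ i : Fin (q + 1), (T' (e i)).sz = ∑ s ∈ S, (T' s).sz := by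
      rw [← Finset.sum_coe_sort S (fun s => (T' s).sz)]
      exact Equiv.sum_comp e (fun s : S => (T' s).sz)
    rw [h1, hT1, hWcard]
    simp [RT.sz]
  · intro V _ _ R hR
    have hn : (0 : ℝ) < (Fintype.card V : ℝ) := card_pos'
    set Φ : (Fin t → V) → ℝ := fun f =>
      if ∀ u ∈ S, ∀ v ∈ S, u ≠ v → R (f u) (f v) then (1 : ℝ) else 0 with hΦ
    have hΦinv : ∀ v ∈ W, ∀ f y, Φ (Function.update f v y) = Φ f := by
      intro v hv f y
      have hv' : v ∉ S := (Finset.mem_sdiff.mp hv).2
      simp only [hΦ]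
      congr 1
      rw [eq_iff_iff]
      constructor
      · intro h a ha b hb hab
        have := h a ha b hb hab
        rwa [Function.update_of_ne (fun h => hv' (by rw [← h]; exact ha)),
          Function.update_of_ne (fun h => hv' (by rw [← h]; exact hb))] at this
      · intro h a ha b hb hab
        rw [Function.update_of_ne (fun h => hv' (by rw [← h]; exact ha)),
          Function.update_of_ne (fun h => hv' (by rw [← h]; exact hb))]
        exact h a ha b hb hab
    have h1 := hT2 V R Φ hΦinv
    have h2 : ((Finset.univ.filter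
        (fun f : Fin t → V => ∀ u v, H.Adj u v → R (f u) (f v))).card : ℝ) =
        ∑ f : Fin t → V, Φ f * (∏ u ∈ S ∪ W, hh (ker R) RT.pt (f u)) *
          ∏ v ∈ W, (if R (f (π v)) (f v) then (1 : ℝ) else 0) := by
      rw [Finset.card_filter]
      push_cast
      apply Finset.sum_congr rfl
      intro f _
      simp only [hh, Finset.prod_const_one, mul_one, hΦ]
      rw [Finset.prod_ite_zero]
      by_cases hf : ∀ u v, H.Adj u v → R (f u) (f v)
      · rw [if_pos hf, if_pos (fun u hu v hv huv => hf u v (hcl u hu v hv huv)),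
          if_pos (fun v hv => hf _ _ (hπ v (Finset.mem_sdiff.mp hv).2).1)]
        simp
      · rw [if_neg hf]
        by_cases hf1 : ∀ u ∈ S, ∀ v ∈ S, u ≠ v → R (f u) (f v)
        · by_cases hf2 : ∀ v ∈ W, R (f (π v)) (f v)
          · exfalso
            apply hf
            intro u v huv
            rcases hadj u v huv with h | h | h
            · exact hf1 u h.1 v h.2 huv.ne
            · have := hf2 u (Finset.mem_sdiff.mpr ⟨Finset.mem_univ _, h.1⟩)
              rw [h.2] at this
              exact hR _ _ this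
            · have := hf2 v (Finset.mem_sdiff.mpr ⟨Finset.mem_univ _, h.1⟩)
              rw [h.2] at this
              exact this
          · rw [if_neg hf2]; simp
        · rw [if_neg hf1]; simp
    rw [h2, h1]
    set Ψ : (Fin (q + 1) → V) → ℝ := fun x =>
      if isCl R x then ∏ i, hh (ker R) (T' (e i)) (x i) else 0 with hΨ
    have h3 : ∀ f : Fin t → V, Φ f * ∏ s ∈ S, hh (ker R) (T' s) (f s) =
        Ψ (fun i => f (e i)) := by
      intro f
      have h4 : ∏ s ∈ S, hh (ker R) (T' s) (f s) = ∏ i, hh (ker R) (T' (e i)) (f (e i)) := by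
        rw [← Finset.prod_coe_sort S (fun s => hh (ker R) (T' s) (f s))]
        exact (Equiv.prod_comp e (fun s : S => hh (ker R) (T' s) (f s))).symm
      have h5 : (∀ u ∈ S, ∀ v ∈ S, u ≠ v → R (f u) (f v)) ↔ isCl R (fun i => f (e i)) := by
        constructor
        · intro h i j hij
          exact h _ (e i).2 _ (e j).2 (fun h' => hij (e.injective (Subtype.ext h')))
        · intro h u hu v hv huv
          have := h (e.symm ⟨u, hu⟩) (e.symm ⟨v, hv⟩) (fun h' => huv (by
            have := e.symm.injective h'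
            exact congrArg Subtype.val this))
          simpa using this
      simp only [hΦ, hΨ]
      by_cases h6 : ∀ u ∈ S, ∀ v ∈ S, u ≠ v → R (f u) (f v)
      · rw [if_pos h6, if_pos (h5.mp h6), one_mul, h4]
      · rw [if_neg h6, if_neg (fun h => h6 (h5.mpr h)), zero_mul]
    rw [Finset.sum_congr rfl fun f _ => h3 f, sum_restrict S e Ψ, Fintype.card_fin]
    unfold td
    have h4 : (Fintype.card V : ℝ) ^ t = (Fintype.card V : ℝ) ^ (t - (q + 1)) *
        (Fintype.card V : ℝ) ^ (q + 1) := by
      rw [← pow_add]; congr 1; omega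
    rw [h4]
    field_simp
    rfl

end Pool.Agent.Lib.MP_6505eb_co
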