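import Mathlib
import Pool.Agent.Lib.MP_6505eb_co.Near5
import Pool.Agent.Lib.MP_6505eb_co.Struct

set_option autoImplicit false

namespace Pool.Agent.Lib.MP_6505eb_co

open Classical

/-! ### Asymptotics -/

lemma ratio_tendsto (t : ℕ) (a : ℝ) (b : ℝ) :
    Filter.Tendsto (fun n : ℕ => ((n : ℝ) * a + b) / ((n : ℝ) + (1 - t))) Filter.atTop
      (nhds a) := by
  have h1 : Filter.Tendsto (fun n : ℕ => (n : ℝ) / ((n : ℝ) + (1 - t))) Filter.atTop (nhds 1) :=
    tendsto_natCast_div_add_atTop (1 - (t : ℝ))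
  have h2 : Filter.Tendsto (fun n : ℕ => b / ((n : ℝ) + (1 - t))) Filter.atTop (nhds 0) := by
    apply Filter.Tendsto.div_atTop tendsto_const_nhds
    exact Filter.tendsto_atTop_add_const_right _ _ tendsto_natCast_atTop_atTop
  have h3 := (h1.mul_const a).add h2
  simp only [one_mul, add_zero] at h3
  refine h3.congr (fun n => ?_)
  ring

lemma desc_ge (n t : ℕ) (h : t ≤ n) : ((n : ℝ) + (1 - t)) ^ t ≤ (n.descFactorial t : ℝ) := by
  have h1 := Nat.pow_sub_le_descFactorial n t
  have h2 : ((n + 1 - t : ℕ) : ℝ) = (n : ℝ) + (1 - t) := by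
    rw [Nat.cast_sub (by omega)]; push_cast; ring
  rw [← h2]
  exact_mod_cast h1

lemma desc_pos {n t : ℕ} (h : t ≤ n) : (0 : ℝ) < (n.descFactorial t : ℝ) := by
  exact_mod_cast Nat.descFactorial_pos.mpr h

/-- `n ^ t / n_(t) → 1` -/
lemma pow_le_desc (t : ℕ) (ε : ℝ) (hε : 0 < ε) : ∃ N : ℕ, ∀ n : ℕ, N ≤ n →
    t ≤ n ∧ (n : ℝ) ^ t ≤ (1 + ε) * (n.descFactorial t : ℝ) := by
  have h1 := (ratio_tendsto t 1 0).pow t
  rw [one_pow] at h1
  have h2 := h1.eventually (gt_mem_nhds (show (1 : ℝ) < 1 + ε by linarith))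
  obtain ⟨N, hN⟩ := Filter.eventually_atTop.mp h2
  refine ⟨max N t, fun n hn => ?_⟩
  have hnt : t ≤ n := (le_max_right _ _).trans hn
  refine ⟨hnt, ?_⟩
  have h3 := hN n ((le_max_left _ _).trans hn)
  have hpos : (0 : ℝ) < (n : ℝ) + (1 - t) := by
    have : (t : ℝ) ≤ n := by exact_mod_cast hnt
    linarith
  rw [mul_one, add_zero, div_pow, div_lt_iff₀ (by positivity)] at h3
  have h4 := desc_ge n t hnt
  have h5 : (1 + ε) * ((n : ℝ) + (1 - t)) ^ t ≤ (1 + ε) * (n.descFactorial t : ℝ) :=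
    mul_le_mul_of_nonneg_left h4 (by linarith)
  linarith

lemma upper_ratio (q t : ℕ) (hq : 1 ≤ q) (ht : 1 ≤ t) (ε : ℝ) (hε : 0 < ε) :
    ∃ N : ℕ, ∀ n : ℕ, N ≤ n →
    t ≤ n ∧ (q : ℝ) * ((n : ℝ) / q + 1) ^ t ≤
      ((1 / (q : ℝ)) ^ (t - 1) + ε) * (n.descFactorial t : ℝ) := by
  have hq0 : (0 : ℝ) < q := by exact_mod_cast hq
  have h1 := ((ratio_tendsto t (1 / q) 1).pow t).const_mul (q : ℝ)
  have hlim : (q : ℝ) * (1 / q) ^ t = (1 / (q : ℝ)) ^ (t - 1) := by
    obtain ⟨s, rfl⟩ : ∃ s, t = s + 1 := ⟨t - 1, by omega⟩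
    rw [pow_succ, Nat.add_sub_cancel]
    field_simp
  rw [hlim] at h1
  have h2 := h1.eventually (gt_mem_nhds (show (1 / (q : ℝ)) ^ (t - 1) <
    (1 / (q : ℝ)) ^ (t - 1) + ε by linarith))
  obtain ⟨N, hN⟩ := Filter.eventually_atTop.mp h2
  refine ⟨max N t, fun n hn => ?_⟩
  have hnt : t ≤ n := (le_max_right _ _).trans hn
  refine ⟨hnt, ?_⟩
  have h3 := hN n ((le_max_left _ _).trans hn)
  have hpos : (0 : ℝ) < (n : ℝ) + (1 - t) := by
    have : (t : ℝ) ≤ n := by exact_mod_cast hnt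
    linarith
  rw [div_pow, ← mul_div_assoc, div_lt_iff₀ (by positivity)] at h3
  have h4 := desc_ge n t hnt
  have h5 : ((1 / (q : ℝ)) ^ (t - 1) + ε) * ((n : ℝ) + (1 - t)) ^ t ≤
      ((1 / (q : ℝ)) ^ (t - 1) + ε) * (n.descFactorial t : ℝ) :=
    mul_le_mul_of_nonneg_left h4 (by positivity)
  have h6 : (n : ℝ) / q + 1 = (n : ℝ) * (1 / q) + 1 := by ring
  rw [h6]
  linarith

/-! ### Counting embeddings -/

/-- number of monochromatic embeddings -/
noncomputable def monoEmb {t n : ℕ} (H : SimpleGraph (Fin t)) (G : SimpleGraph (Fin n)) : ℕ :=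
  ((Finset.univ : Finset (Fin t ↪ Fin n)).filter
    (fun f => (∀ u v, H.Adj u v → G.Adj (f u) (f v)) ∨
              (∀ u v, H.Adj u v → Gᶜ.Adj (f u) (f v)))).card

lemma card_inj (t n : ℕ) :
    ((Finset.univ.filter (fun f : Fin t → Fin n => Function.Injective f)).card) =
      n.descFactorial t := by
  have h1 : (Finset.univ.filter (fun f : Fin t → Fin n => Function.Injective f)).card =
      Fintype.card {f : Fin t → Fin n // Function.Injective f} := by
    rw [Fintype.card_subtype]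
  rw [h1, Fintype.card_congr (Equiv.subtypeInjectiveEquivEmbedding (Fin t) (Fin n)),
    Fintype.card_embedding_eq, Fintype.card_fin, Fintype.card_fin]

lemma emb_lower {t n : ℕ} (H : SimpleGraph (Fin t)) (G : SimpleGraph (Fin n))
    (hedge : ∃ u v, H.Adj u v) :
    ((Finset.univ.filter (fun f : Fin t → Fin n => ∀ u v, H.Adj u v → G.Adj (f u) (f v))).card : ℝ)
    + ((Finset.univ.filter
        (fun f : Fin t → Fin n => ∀ u v, H.Adj u v → ¬ G.Adj (f u) (f v))).card : ℝ) +
      (n.descFactorial t : ℝ) ≤ (monoEmb H G : ℝ) + (n : ℝ) ^ t := by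
  set A1 := Finset.univ.filter (fun f : Fin t → Fin n => ∀ u v, H.Adj u v → G.Adj (f u) (f v))
    with hA1
  set A2 := Finset.univ.filter (fun f : Fin t → Fin n => ∀ u v, H.Adj u v → ¬ G.Adj (f u) (f v))
    with hA2
  set J := Finset.univ.filter (fun f : Fin t → Fin n => Function.Injective f) with hJ
  have hdisj : Disjoint A1 A2 := by
    rw [Finset.disjoint_left]
    intro f hf hf'
    rw [hA1, Finset.mem_filter] at hf
    rw [hA2, Finset.mem_filter] at hf'
    obtain ⟨u, v, huv⟩ := hedge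
    exact hf'.2 u v huv (hf.2 u v huv)
  have h1 : (A1 ∪ A2).card + J.card ≤ ((A1 ∪ A2) ∩ J).card + n ^ t := by
    have h2 := Finset.card_union_add_card_inter (A1 ∪ A2) J
    have h3 : ((A1 ∪ A2) ∪ J).card ≤ n ^ t := by
      have := Finset.card_le_univ ((A1 ∪ A2) ∪ J)
      rwa [Fintype.card_fun, Fintype.card_fin, Fintype.card_fin] at this
    omega
  have h4 : ((A1 ∪ A2) ∩ J).card ≤ monoEmb H G := by
    unfold monoEmb
    set E := (Finset.univ : Finset (Fin t ↪ Fin n)).filter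
      (fun f => (∀ u v, H.Adj u v → G.Adj (f u) (f v)) ∨
              (∀ u v, H.Adj u v → Gᶜ.Adj (f u) (f v))) with hE
    have h5 : (A1 ∪ A2) ∩ J ⊆ E.image (fun f : Fin t ↪ Fin n => (f : Fin t → Fin n)) := by
      intro f hf
      rw [Finset.mem_inter, Finset.mem_union] at hf
      have hinj : Function.Injective f := by
        have := hf.2; rw [hJ, Finset.mem_filter] at this; exact this.2
      rw [Finset.mem_image]
      refine ⟨⟨f, hinj⟩, ?_, rfl⟩
      rw [hE, Finset.mem_filter]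
      refine ⟨Finset.mem_univ _, ?_⟩
      rcases hf.1 with h | h
      · left
        rw [hA1, Finset.mem_filter] at h
        exact h.2
      · right
        rw [hA2, Finset.mem_filter] at h
        intro u v huv
        rw [SimpleGraph.compl_adj]
        exact ⟨fun h' => huv.ne (hinj h'), h.2 u v huv⟩
    exact (Finset.card_le_card h5).trans Finset.card_image_le
  have h5 : (A1 ∪ A2).card = A1.card + A2.card := Finset.card_union_of_disjoint hdisj
  have h6 : J.card = n.descFactorial t := card_inj t n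
  rw [h5, h6] at h1
  have h7 : A1.card + A2.card + n.descFactorial t ≤ monoEmb H G + n ^ t := by omega
  exact_mod_cast h7

/-- the Turan colouring -/
def turanCol (n q : ℕ) : SimpleGraph (Fin n) where
  Adj x y := x ≠ y ∧ (x : ℕ) % q = (y : ℕ) % q
  symm := ⟨fun _ _ h => ⟨h.1.symm, h.2.symm⟩⟩
  loopless := ⟨fun _ h => h.1 rfl⟩

lemma class_card (n q r : ℕ) :
    (Finset.univ.filter (fun x : Fin n => (x : ℕ) % q = r)).card ≤ n / q + 1 := by
  have h1 : (Finset.univ.filter (fun x : Fin n => (x : ℕ) % q = r)).card ≤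
      (Finset.range (n / q + 1)).card := by
    apply Finset.card_le_card_of_injOn (fun x : Fin n => (x : ℕ) / q)
    · intro x _
      simp only [Finset.coe_range, Set.mem_Iio]
      have : (x : ℕ) / q ≤ n / q := Nat.div_le_div_right x.2.le
      omega
    · intro x hx y hy hxy
      simp only [Finset.coe_filter, Finset.mem_univ, true_and, Set.mem_setOf_eq] at hx hy
      have hxy' : (x : ℕ) / q = (y : ℕ) / q := hxy
      apply Fin.ext
      rw [← Nat.div_add_mod (x : ℕ) q, ← Nat.div_add_mod (y : ℕ) q, hx, hy, hxy']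
  rwa [Finset.card_range] at h1

lemma emb_upper {t n q : ℕ} (hq : 1 ≤ q) (ht : 1 ≤ t) (H : SimpleGraph (Fin t))
    (hc : H.Connected) (S : Finset (Fin t)) (hS : S.card = q + 1)
    (hcl : ∀ u ∈ S, ∀ v ∈ S, u ≠ v → H.Adj u v) :
    (monoEmb H (turanCol n q) : ℝ) ≤ (q : ℝ) * ((n : ℝ) / q + 1) ^ t := by
  have hq0 : (0 : ℝ) < q := by exact_mod_cast hq
  have h1 : monoEmb H (turanCol n q) ≤ q * (n / q + 1) ^ t := by
    unfold monoEmb
    set E := (Finset.univ : Finset (Fin t ↪ Fin n)).filter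
      (fun f => (∀ u v, H.Adj u v → (turanCol n q).Adj (f u) (f v)) ∨
              (∀ u v, H.Adj u v → (turanCol n q)ᶜ.Adj (f u) (f v))) with hE
    have h2 : E.card = (E.image (fun f : Fin t ↪ Fin n => (f : Fin t → Fin n))).card := by
      rw [Finset.card_image_of_injective]
      exact DFunLike.coe_injective
    rw [h2]
    have h3 : E.image (fun f : Fin t ↪ Fin n => (f : Fin t → Fin n)) ⊆
        (Finset.range q).biUnion (fun r => Fintype.piFinset
          (fun _ : Fin t => Finset.univ.filter (fun x : Fin n => (x : ℕ) % q = r))) := by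
      intro g hg
      rw [Finset.mem_image] at hg
      obtain ⟨f, hf, rfl⟩ := hg
      rw [hE, Finset.mem_filter] at hf
      rcases hf.2 with h | h
      · -- all in one class
        have hreach : ∀ u v, H.Reachable u v → (f u : ℕ) % q = (f v : ℕ) % q := by
          intro u v huv
          obtain ⟨p⟩ := huv
          induction p with
          | nil => rfl
          | cons hadj _ ih => exact (h _ _ hadj).2.trans ih
        set v0 : Fin t := ⟨0, ht⟩ with hv0
        rw [Finset.mem_biUnion]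
        refine ⟨(f v0 : ℕ) % q, Finset.mem_range.mpr (Nat.mod_lt _ hq), ?_⟩
        rw [Fintype.mem_piFinset]
        intro i
        rw [Finset.mem_filter]
        exact ⟨Finset.mem_univ _, hreach i v0 (hc.preconnected i v0)⟩
      · exfalso
        have h4 : S.card ≤ (Finset.range q).card := by
          apply Finset.card_le_card_of_injOn (fun u => (f u : ℕ) % q)
          · intro u _
            simp only [Finset.coe_range, Set.mem_Iio]
            exact Nat.mod_lt _ hq
          · intro u hu v hv huv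
            by_contra hne
            have h5 := h u v (hcl u hu v hv hne)
            rw [SimpleGraph.compl_adj] at h5
            exact h5.2 ⟨h5.1, huv⟩
        rw [Finset.card_range, hS] at h4
        omega
    refine (Finset.card_le_card h3).trans (Finset.card_biUnion_le.trans ?_)
    have h4 : ∀ r ∈ Finset.range q, (Fintype.piFinset
          (fun _ : Fin t => Finset.univ.filter (fun x : Fin n => (x : ℕ) % q = r))).card ≤
          (n / q + 1) ^ t := by
      intro r _
      rw [Fintype.card_piFinset, Finset.prod_const, Finset.card_univ, Fintype.card_fin]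
      exact Nat.pow_le_pow_left (class_card n q r) t
    refine (Finset.sum_le_sum h4).trans (le_of_eq ?_)
    rw [Finset.sum_const, Finset.card_range, smul_eq_mul]
  have h2 : ((q * (n / q + 1) ^ t : ℕ) : ℝ) ≤ (q : ℝ) * ((n : ℝ) / q + 1) ^ t := by
    push_cast
    apply mul_le_mul_of_nonneg_left _ hq0.le
    apply pow_le_pow_left₀ (by positivity)
    have : ((n / q : ℕ) : ℝ) ≤ (n : ℝ) / q := Nat.cast_div_le
    linarith
  exact (by exact_mod_cast h1 : (monoEmb H (turanCol n q) : ℝ) ≤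
    ((q * (n / q + 1) ^ t : ℕ) : ℝ)).trans h2

/-- **Main theorem** -/
theorem main_thm :
    ∀ k : ℕ, 4 ≤ k → ∃ T : ℕ, ∀ t : ℕ, T ≤ t →
      ∀ H : SimpleGraph (Fin t),
        (H.Connected ∧
          ∃ S : Finset (Fin t), S.card = k ∧
            (∀ u ∈ S, ∀ v ∈ S, u ≠ v → H.Adj u v) ∧
            H.edgeSet.ncard = k.choose 2 + (t - k)) →
        ∀ ε : ℝ, 0 < ε → ∃ N : ℕ, ∀ n : ℕ, N ≤ n →
          (∀ G : SimpleGraph (Fin n),
            ((k : ℝ) - 1) ^ ((1 : ℤ) - (t : ℤ)) - ε ≤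
              (monoEmb H G : ℝ) / ((n.descFactorial t : ℕ) : ℝ)) ∧
          (∃ G : SimpleGraph (Fin n),
              (monoEmb H G : ℝ) / ((n.descFactorial t : ℕ) : ℝ) ≤
              ((k : ℝ) - 1) ^ ((1 : ℤ) - (t : ℤ)) + ε) := by
  intro k hk
  obtain ⟨q, rfl⟩ : ∃ q, k = q + 1 := ⟨k - 1, by omega⟩
  have hq : 3 ≤ q := by omega
  have hq0 : (0 : ℝ) < q := by exact_mod_cast (by omega : 0 < q)
  obtain ⟨N₀, n₀, hmain⟩ := bonbon_density q hq
  refine ⟨N₀ + (q + 1), ?_⟩
  intro t ht H hH ε hε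
  obtain ⟨hc, S, hS, hcl, hE⟩ := hH
  obtain ⟨T, hT1, hT2⟩ := hom_count H hc S hS hcl hE
  have hpow : (((q + 1 : ℕ) : ℝ) - 1) ^ ((1 : ℤ) - (t : ℤ)) = (1 / (q : ℝ)) ^ (t - 1) := by
    have h1 : ((q + 1 : ℕ) : ℝ) - 1 = q := by push_cast; ring
    have h2 : (1 : ℤ) - (t : ℤ) = -((t - 1 : ℕ) : ℤ) := by
      rw [Nat.cast_sub (by omega)]; push_cast; ring
    rw [h1, h2, zpow_neg, zpow_natCast, one_div, inv_pow]
  rw [hpow]
  set c : ℝ := (1 / (q : ℝ)) ^ (t - 1) with hcdef
  have hc0 : 0 ≤ c := by positivity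
  have hc1 : c ≤ 1 := pow_le_one₀ (by positivity) (by
    rw [div_le_one hq0]; exact_mod_cast (by omega : 1 ≤ q))
  have hedge : ∃ u v, H.Adj u v := by
    have h1 : 1 < S.card := by omega
    rw [Finset.one_lt_card] at h1
    obtain ⟨u, hu, v, hv, huv⟩ := h1
    exact ⟨u, v, hcl u hu v hv huv⟩
  obtain ⟨N1, hN1⟩ := pow_le_desc t ε hε
  obtain ⟨N2, hN2⟩ := upper_ratio q t (by omega) (by omega) ε hε
  refine ⟨max (max N1 N2) (max n₀ 1), ?_⟩
  intro n hn
  have hn1 : N1 ≤ n := ((le_max_left _ _).trans (le_max_left _ _)).trans hn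
  have hn2 : N2 ≤ n := ((le_max_right _ _).trans (le_max_left _ _)).trans hn
  have hn3 : n₀ ≤ n := ((le_max_left _ _).trans (le_max_right _ _)).trans hn
  have hn4 : 1 ≤ n := ((le_max_right _ _).trans (le_max_right _ _)).trans hn
  have : Nonempty (Fin n) := ⟨⟨0, hn4⟩⟩
  constructor
  · intro G
    obtain ⟨htn, hpd⟩ := hN1 n hn1
    have hdpos := desc_pos htn
    set R : Fin n → Fin n → Prop := fun x y => G.Adj x y with hR
    set B : Fin n → Fin n → Prop := fun x y => ¬ G.Adj x y with hB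
    have hRs : ∀ x y, R x y → R y x := fun x y h => G.symm.symm _ _ h
    have hBs : ∀ x y, B x y → B y x := fun x y h h' => h (G.symm.symm _ _ h')
    have h1 := hmain (Fin n) R B (fun x y => Iff.rfl) hRs hBs (by rwa [Fintype.card_fin]) T
      (by rw [hT1]; omega)
    have h2 : q + ∑ s, (T s).sz = t - 1 := by rw [hT1]; omega
    rw [h2, ← hcdef] at h1
    obtain ⟨x1, hx1⟩ : ∃ x : ℝ, x = ((Finset.univ.filter
          (fun f : Fin t → Fin n => ∀ u v, H.Adj u v → R (f u) (f v))).card : ℝ) := ⟨_, rfl⟩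
    obtain ⟨x2, hx2⟩ : ∃ x : ℝ, x = ((Finset.univ.filter
          (fun f : Fin t → Fin n => ∀ u v, H.Adj u v → B (f u) (f v))).card : ℝ) := ⟨_, rfl⟩
    have h3 : x1 = (n : ℝ) ^ t * td R T := by
      have h3' := hT2 (Fin n) R hRs
      rw [Fintype.card_fin] at h3'
      rw [hx1]
      convert h3'
    have h4 : x2 = (n : ℝ) ^ t * td B T := by
      have h4' := hT2 (Fin n) B hBs
      rw [Fintype.card_fin] at h4'
      rw [hx2]
      convert h4'
    have h5 : x1 + x2 + (n.descFactorial t : ℝ) ≤ (monoEmb H G : ℝ) + (n : ℝ) ^ t := by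
      have h5' := emb_lower H G hedge
      rw [hx1, hx2]
      convert h5'
    have h6 : (n : ℝ) ^ t * c ≤ (n : ℝ) ^ t * (td R T + td B T) :=
      mul_le_mul_of_nonneg_left h1 (by positivity)
    rw [mul_add, ← h3, ← h4] at h6
    rw [le_div_iff₀ hdpos]
    have h7 : (1 - c) * (n : ℝ) ^ t ≤ (1 - c) * ((1 + ε) * (n.descFactorial t : ℝ)) :=
      mul_le_mul_of_nonneg_left hpd (by linarith)
    have h8 : 0 ≤ c * ε * (n.descFactorial t : ℝ) := by positivity
    have h9 : (n : ℝ) ^ t * c + (n.descFactorial t : ℝ) ≤ (monoEmb H G : ℝ) + (n : ℝ) ^ t := by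
      refine le_trans ?_ h5
      linarith
    nlinarith
  · refine ⟨turanCol n q, ?_⟩
    obtain ⟨htn, hup⟩ := hN2 n hn2
    have hdpos := desc_pos htn
    rw [div_le_iff₀ hdpos]
    exact (emb_upper (by omega) (by omega) H hc S hS hcl).trans hup

end Pool.Agent.Lib.MP_6505eb_co
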